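import Mathlib

/-!
MODULE Const (difficulty 1).  Choice of the sample size.

RECIPE: take `x` with `1 < x < θ / p`, e.g. `x = (1 + θ / p) / 2`.  Then
`q = (1 + (x-1) p) / x ^ θ < 1`, since `log q = log (1 + (x-1) p) - θ log x ≤ (x-1) p - θ (x-1)/x < 0`
(`Real.add_one_le_exp` / `Real.log_le_sub_one_of_pos`, `Real.one_sub_inv_le_log_of_pos`).
Then `M * x ^ 3 * q ^ M → 0` (`tendsto_self_mul_const_pow_of_lt_one` or
`tendsto_pow_const_mul_const_pow_of_abs_lt_one`).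
-/

namespace Pool.OCY

theorem exists_const {p θ ρ : ℝ} (hp : 0 < p) (hpθ : p < θ) (hρ : 0 < ρ) :
    ∃ M : ℕ, 2 ≤ M ∧ ∃ x : ℝ, 1 ≤ x ∧
      (M : ℝ) * (x ^ 3 * ((1 + (x - 1) * p) / x ^ θ) ^ M) ≤ ρ := by
  have hθ : 0 < θ := hp.trans hpθ
  obtain ⟨x, hx1, hx2⟩ : ∃ x : ℝ, 1 < x ∧ x * p < θ := by
    refine ⟨(1 + θ / p) / 2, ?_, ?_⟩
    · have : 1 < θ / p := by rw [lt_div_iff₀ hp]; linarith
      linarith
    · have h1 : (1 + θ / p) / 2 * p = (p + θ) / 2 := by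
        field_simp
      rw [h1]
      linarith
  have hx0 : 0 < x := by linarith
  have hc : 0 < 1 + (x - 1) * p := by
    have : 0 < (x - 1) * p := mul_pos (by linarith) hp
    linarith
  have hxθ : 0 < x ^ θ := Real.rpow_pos_of_pos hx0 θ
  have hq1 : (1 + (x - 1) * p) / x ^ θ < 1 := by
    rw [div_lt_one hxθ]
    have h1 : 1 + (x - 1) * p ≤ Real.exp ((x - 1) * p) := by
      have := Real.add_one_le_exp ((x - 1) * p)
      linarith
    have h2 : (x - 1) * p < θ * Real.log x := by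
      have h3 : 1 - x⁻¹ ≤ Real.log x := Real.one_sub_inv_le_log_of_pos hx0
      have h4 : (x - 1) * p < θ * (1 - x⁻¹) := by
        have h5 : θ * (1 - x⁻¹) = (x - 1) * (θ / x) := by
          field_simp
        rw [h5]
        apply mul_lt_mul_of_pos_left _ (by linarith)
        rw [lt_div_iff₀ hx0]
        linarith
      have h6 : θ * (1 - x⁻¹) ≤ θ * Real.log x := mul_le_mul_of_nonneg_left h3 hθ.le
      linarith
    have h7 : x ^ θ = Real.exp (θ * Real.log x) := by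
      rw [Real.rpow_def_of_pos hx0, mul_comm]
    rw [h7]
    exact h1.trans_lt (Real.exp_lt_exp.2 h2)
  have hq0 : 0 ≤ (1 + (x - 1) * p) / x ^ θ := (div_pos hc hxθ).le
  have hlim := (tendsto_self_mul_const_pow_of_lt_one hq0 hq1).const_mul (x ^ 3)
  rw [mul_zero] at hlim
  have h1 := (hlim.eventually (gt_mem_nhds hρ)).and (Filter.eventually_ge_atTop 2)
  obtain ⟨M, hM1, hM2⟩ := h1.exists
  refine ⟨M, hM2, x, hx1.le, ?_⟩
  have h2 : (M : ℝ) * (x ^ 3 * ((1 + (x - 1) * p) / x ^ θ) ^ M) =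
      x ^ 3 * ((M : ℝ) * ((1 + (x - 1) * p) / x ^ θ) ^ M) := by ring
  rw [h2]
  exact hM1.le

end Pool.OCY
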