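import Pool.Agent.OCY.Avg

/-!
MODULE Tail (difficulty 3).  Chernoff bound: for a random `M`-tuple `U` the vertex `U v` has few
non-neighbours among the others, also when the tuple is weighted by `F (U i) (U j)`.

RECIPE: let `S = univ \ {v, i, j}` (at least `M - 3` elements).  If more than `θ M` indices `l` have
`¬ Adj (U v) (U l)`, then `1 ≤ x ^ 3 * ∏_{l ∈ S} (if Adj (U v) (U l) then 1 else x) / x ^ (θ M)`
(at most 3 of the indices are outside `S`; `x ≥ 1`; `(x ^ θ) ^ M = x ^ (θ M)` real powers).
By induction on the finite set `S` (not containing `v, i, j`):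
`∑ U, F (U i) (U j) * ∏_{l ∈ S} g (U v) (U l) ≤ (1 + (x-1) p) ^ |S| * ∑ U, F (U i) (U j)`,
`g a b = if Adj a b then 1 else x`, because `∑_b g a b ≤ n (1 + (x-1) p)`: the step uses, for `l ∉ S ∪ {v,i,j}`,
`n * ∑ U, H U = ∑ U ∑ w, H (Function.update U l w)` (the map `(U, w) ↦ (update U l w, U l)` is an
involution of `(Fin M → V) × V`).  Then `|S| ≤ M`, `1 + (x-1) p ≥ 1`, and `avg2` for the last sum.
-/

open Finset
open scoped Classical

namespace Pool.OCY

theorem tail_key {V : Type*} [Fintype V] {M : ℕ} (i : Fin M) (H : (Fin M → V) → ℝ) :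
    (Fintype.card V : ℝ) * ∑ U, H U = ∑ U, ∑ a, H (Function.update U i a) := by
  let e : ((Fin M → V) × V) ≃ ((Fin M → V) × V) :=
    { toFun := fun q => (Function.update q.1 i q.2, q.1 i)
      invFun := fun q => (Function.update q.1 i q.2, q.1 i)
      left_inv := by
        rintro ⟨U, a⟩
        simp
      right_inv := by
        rintro ⟨U, a⟩
        simp }
  have h1 : (∑ q : (Fin M → V) × V, H q.1) = ∑ q : (Fin M → V) × V, H (e q).1 :=
    (Equiv.sum_comp e (fun q => H q.1)).symm
  rw [Fintype.sum_prod_type, Fintype.sum_prod_type] at h1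
  have h2 : (∑ U : Fin M → V, ∑ _a : V, H U) = (Fintype.card V : ℝ) * ∑ U, H U := by
    simp only [Finset.sum_const, Finset.card_univ, nsmul_eq_mul]
    rw [Finset.mul_sum]
  rw [← h2, h1]
  rfl

/-- sum of the factors over the last coordinate -/
theorem tail_row {V : Type*} [Fintype V] (G : SimpleGraph V) {p x : ℝ}
    (hG : ∀ u, ((univ.filter fun w => ¬ G.Adj u w).card : ℝ) ≤ p * Fintype.card V)
    (hx : 1 ≤ x) (u : V) :
    ∑ w, (if G.Adj u w then (1 : ℝ) else x) ≤ (Fintype.card V : ℝ) * (1 + (x - 1) * p) := by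
  have h1 : ∑ w, (if G.Adj u w then (1 : ℝ) else x) =
      (Fintype.card V : ℝ) + (x - 1) * ((univ.filter fun w => ¬ G.Adj u w).card : ℝ) := by
    have e1 : ∀ w, (if G.Adj u w then (1 : ℝ) else x) =
        1 + (x - 1) * (if ¬ G.Adj u w then (1 : ℝ) else 0) := by
      intro w
      by_cases h : G.Adj u w
      · simp [h]
      · simp [h]
    rw [Finset.sum_congr rfl (fun w _ => e1 w), Finset.sum_add_distrib, ← Finset.mul_sum]
    congr 1
    · simp
    · rw [Finset.sum_boole]
  rw [h1]
  have h2 := hG u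
  have h3 : (x - 1) * ((univ.filter fun w => ¬ G.Adj u w).card : ℝ) ≤
      (x - 1) * (p * Fintype.card V) := mul_le_mul_of_nonneg_left h2 (by linarith)
  linarith

/-- integration over the coordinates in `S` -/
theorem tail_ind {V : Type*} [Fintype V] {M : ℕ} (v i j : Fin M)
    (G : SimpleGraph V) {p x : ℝ} (hp : 0 ≤ p)
    (hG : ∀ u, ((univ.filter fun w => ¬ G.Adj u w).card : ℝ) ≤ p * Fintype.card V)
    (hx : 1 ≤ x) (F : V → V → ℝ) (hF : ∀ a b, 0 ≤ F a b) (S : Finset (Fin M)) :
    (∀ l ∈ S, l ≠ v ∧ l ≠ i ∧ l ≠ j) →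
    ∑ U : Fin M → V, F (U i) (U j) * ∏ l ∈ S, (if G.Adj (U v) (U l) then (1 : ℝ) else x) ≤
      (1 + (x - 1) * p) ^ S.card * ∑ U : Fin M → V, F (U i) (U j) := by
  classical
  have hc0 : 0 ≤ 1 + (x - 1) * p := by
    have : 0 ≤ (x - 1) * p := mul_nonneg (by linarith) hp
    linarith
  induction S using Finset.induction_on with
  | empty => intro _; simp
  | insert l S hl ih =>
    intro hS
    have ih' := ih (fun m hm => hS m (mem_insert_of_mem hm))
    obtain ⟨hlv, hli, hlj⟩ := hS l (mem_insert_self _ _)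
    by_cases hn : Fintype.card V = 0
    · have hV : IsEmpty V := Fintype.card_eq_zero_iff.1 hn
      have hU : IsEmpty (Fin M → V) := ⟨fun U => hV.elim (U i)⟩
      simp
    · have hn' : (0 : ℝ) < Fintype.card V := by
        exact_mod_cast Nat.pos_of_ne_zero hn
      rw [card_insert_of_notMem hl, pow_succ]
      have h1 := tail_key l (fun U : Fin M → V => F (U i) (U j) *
        ∏ m ∈ insert l S, (if G.Adj (U v) (U m) then (1 : ℝ) else x))
      simp only at h1
      have h2 : ∀ (U : Fin M → V) (w : V),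
          F (Function.update U l w i) (Function.update U l w j) *
          ∏ m ∈ insert l S, (if G.Adj (Function.update U l w v) (Function.update U l w m) then
            (1 : ℝ) else x) =
          (F (U i) (U j) * ∏ m ∈ S, (if G.Adj (U v) (U m) then (1 : ℝ) else x)) *
            (if G.Adj (U v) w then (1 : ℝ) else x) := by
        intro U w
        rw [Function.update_of_ne (Ne.symm hli), Function.update_of_ne (Ne.symm hlj),
          Function.update_of_ne (Ne.symm hlv), prod_insert hl, Function.update_self]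
        have h3 : ∏ m ∈ S, (if G.Adj (U v) (Function.update U l w m) then (1 : ℝ) else x) =
            ∏ m ∈ S, (if G.Adj (U v) (U m) then (1 : ℝ) else x) := by
          refine prod_congr rfl (fun m hm => ?_)
          have : m ≠ l := fun h => hl (h ▸ hm)
          rw [Function.update_of_ne this]
        rw [h3]
        ring
      have h4 : (∑ U : Fin M → V, ∑ w, F (Function.update U l w i) (Function.update U l w j) *
          ∏ m ∈ insert l S, (if G.Adj (Function.update U l w v) (Function.update U l w m) then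
            (1 : ℝ) else x)) ≤
          (Fintype.card V : ℝ) * ((1 + (x - 1) * p) *
            ∑ U : Fin M → V, F (U i) (U j) *
              ∏ m ∈ S, (if G.Adj (U v) (U m) then (1 : ℝ) else x)) := by
        rw [Finset.mul_sum, Finset.mul_sum]
        refine Finset.sum_le_sum (fun U _ => ?_)
        rw [Finset.sum_congr rfl (fun w _ => h2 U w), ← Finset.mul_sum]
        have h5 := tail_row G hG hx (U v)
        have h6 : 0 ≤ F (U i) (U j) * ∏ m ∈ S, (if G.Adj (U v) (U m) then (1 : ℝ) else x) := by
          refine mul_nonneg (hF _ _) (Finset.prod_nonneg (fun m _ => ?_))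
          split_ifs <;> linarith
        refine (mul_le_mul_of_nonneg_left h5 h6).trans (le_of_eq ?_)
        ring
      rw [← h1] at h4
      have h7 := le_of_mul_le_mul_left h4 hn'
      refine h7.trans ?_
      have h8 := mul_le_mul_of_nonneg_left ih' hc0
      refine h8.trans (le_of_eq ?_)
      ring

theorem tail {V : Type*} [Fintype V] {M : ℕ} {i j : Fin M} (hij : i ≠ j) (v : Fin M)
    (G : SimpleGraph V) {p θ x : ℝ} (hp : 0 ≤ p)
    (hG : ∀ u, ((univ.filter fun w => ¬ G.Adj u w).card : ℝ) ≤ p * Fintype.card V)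
    (hx : 1 ≤ x) (F : V → V → ℝ) (hF : ∀ a b, 0 ≤ F a b) :
    (Fintype.card V : ℝ) ^ 2 * ∑ U : Fin M → V,
        (if θ * M < ((univ.filter fun l => ¬ G.Adj (U v) (U l)).card : ℝ) then F (U i) (U j) else 0)
      ≤ x ^ 3 * ((1 + (x - 1) * p) / x ^ θ) ^ M * (Fintype.card V : ℝ) ^ M * ∑ a, ∑ b, F a b := by
  classical
  have hx0 : 0 < x := by linarith
  obtain ⟨c, hc⟩ : ∃ c : ℝ, c = 1 + (x - 1) * p := ⟨_, rfl⟩
  have hc1 : 1 ≤ c := by
    have : 0 ≤ (x - 1) * p := mul_nonneg (by linarith) hp
    linarith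
  have hxθ : 0 < x ^ θ := Real.rpow_pos_of_pos hx0 θ
  set S : Finset (Fin M) := univ \ {v, i, j} with hS
  have hSn : ∀ l ∈ S, l ≠ v ∧ l ≠ i ∧ l ≠ j := by
    intro l hl
    rw [hS, mem_sdiff] at hl
    simp only [mem_insert, mem_singleton, not_or] at hl
    exact hl.2
  have hind := tail_ind v i j G hp hG hx F hF S hSn
  -- pointwise bound
  have hpt : ∀ U : Fin M → V,
      (if θ * M < ((univ.filter fun l => ¬ G.Adj (U v) (U l)).card : ℝ) then F (U i) (U j) else 0) ≤
      x ^ 3 / (x ^ θ) ^ M * (F (U i) (U j) * ∏ l ∈ S, (if G.Adj (U v) (U l) then (1 : ℝ) else x)) := by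
    intro U
    have hprod0 : 0 ≤ ∏ l ∈ S, (if G.Adj (U v) (U l) then (1 : ℝ) else x) := by
      apply Finset.prod_nonneg
      intro l _
      split_ifs <;> linarith
    split_ifs with hU
    · have hkey : (x ^ θ) ^ M ≤ x ^ 3 * ∏ l ∈ S, (if G.Adj (U v) (U l) then (1 : ℝ) else x) := by
        have h1 : ∏ l ∈ S, (if G.Adj (U v) (U l) then (1 : ℝ) else x) =
            x ^ (S.filter fun l => ¬ G.Adj (U v) (U l)).card := by
          rw [← Finset.prod_filter_mul_prod_filter_not S (fun l => ¬ G.Adj (U v) (U l))]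
          have e1 : ∏ l ∈ S.filter (fun l => ¬ G.Adj (U v) (U l)),
              (if G.Adj (U v) (U l) then (1 : ℝ) else x) =
              x ^ (S.filter fun l => ¬ G.Adj (U v) (U l)).card := by
            rw [← Finset.prod_const]
            refine Finset.prod_congr rfl (fun l hl => ?_)
            rw [if_neg (mem_filter.1 hl).2]
          have e2 : ∏ l ∈ S.filter (fun l => ¬ ¬ G.Adj (U v) (U l)),
              (if G.Adj (U v) (U l) then (1 : ℝ) else x) = 1 := by
            apply Finset.prod_eq_one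
            intro l hl
            rw [if_pos (not_not.1 (mem_filter.1 hl).2)]
          rw [e1, e2, mul_one]
        have h2 : (univ.filter fun l => ¬ G.Adj (U v) (U l)).card ≤
            3 + (S.filter fun l => ¬ G.Adj (U v) (U l)).card := by
          have e1 : (univ.filter fun l => ¬ G.Adj (U v) (U l)) ⊆
              {v, i, j} ∪ (S.filter fun l => ¬ G.Adj (U v) (U l)) := by
            intro l hl
            rw [mem_union]
            by_cases hl2 : l ∈ ({v, i, j} : Finset (Fin M))
            · exact Or.inl hl2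
            · right
              rw [mem_filter, hS, mem_sdiff]
              exact ⟨⟨mem_univ _, hl2⟩, (mem_filter.1 hl).2⟩
          refine (card_le_card e1).trans ((card_union_le _ _).trans ?_)
          exact Nat.add_le_add_right card_le_three _
        rw [h1, ← pow_add, ← Real.rpow_natCast (x ^ θ) M, ← Real.rpow_mul hx0.le,
          ← Real.rpow_natCast x (3 + _)]
        apply Real.rpow_le_rpow_of_exponent_le hx
        have h3 : ((univ.filter fun l => ¬ G.Adj (U v) (U l)).card : ℝ) ≤
            ((3 + (S.filter fun l => ¬ G.Adj (U v) (U l)).card : ℕ) : ℝ) := by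
          exact_mod_cast h2
        linarith
      have h4 : 1 ≤ x ^ 3 / (x ^ θ) ^ M * ∏ l ∈ S, (if G.Adj (U v) (U l) then (1 : ℝ) else x) := by
        rw [div_mul_eq_mul_div, le_div_iff₀ (pow_pos hxθ M), one_mul]
        exact hkey
      calc F (U i) (U j) = F (U i) (U j) * 1 := (mul_one _).symm
        _ ≤ F (U i) (U j) * (x ^ 3 / (x ^ θ) ^ M *
            ∏ l ∈ S, (if G.Adj (U v) (U l) then (1 : ℝ) else x)) :=
          mul_le_mul_of_nonneg_left h4 (hF _ _)
        _ = _ := by ring
    · exact mul_nonneg (div_nonneg (pow_nonneg hx0.le 3) (pow_nonneg hxθ.le M))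
        (mul_nonneg (hF _ _) hprod0)
  have hsum : ∑ U : Fin M → V,
      (if θ * M < ((univ.filter fun l => ¬ G.Adj (U v) (U l)).card : ℝ) then F (U i) (U j) else 0) ≤
      x ^ 3 / (x ^ θ) ^ M * (c ^ M * ∑ U : Fin M → V, F (U i) (U j)) := by
    refine (Finset.sum_le_sum (fun U _ => hpt U)).trans ?_
    rw [← Finset.mul_sum]
    apply mul_le_mul_of_nonneg_left _ (div_nonneg (pow_nonneg hx0.le 3) (pow_nonneg hxθ.le M))
    refine hind.trans ?_
    rw [← hc]
    apply mul_le_mul_of_nonneg_right _ (Finset.sum_nonneg (fun U _ => hF _ _))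
    apply pow_le_pow_right₀ hc1
    have := card_le_univ S
    simpa using this
  have hav := avg2 hij F
  have hn : (0 : ℝ) ≤ (Fintype.card V : ℝ) ^ 2 := by positivity
  refine (mul_le_mul_of_nonneg_left hsum hn).trans (le_of_eq ?_)
  rw [← hc, div_pow]
  calc (Fintype.card V : ℝ) ^ 2 * (x ^ 3 / (x ^ θ) ^ M * (c ^ M * ∑ U : Fin M → V, F (U i) (U j)))
      = x ^ 3 * (c ^ M / (x ^ θ) ^ M) *
        ((Fintype.card V : ℝ) ^ 2 * ∑ U : Fin M → V, F (U i) (U j)) := by ring
    _ = _ := by rw [hav]; ring

end Pool.OCY
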