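import Mathlib

/-!
MODULE CleanA (difficulty 2).  Deleting few bad pairs and few vertices.

RECIPE: `S = {v | |{w | Bad v w}| ≤ γ n}`; the complement has at most `β n ^ 2 / (γ n) ≤ γ n` elements
(`β ≤ γ ^ 2`).  `H.Adj a b := G.Adj a b ∧ a ∈ S ∧ b ∈ S ∧ ¬ Bad a b` (symmetric as `Bad` is).
For `v ∈ S`: `H.degree v ≥ G.degree v - |{w | Bad v w}| - |Sᶜ| ≥ (δ - 2γ) n`; for `b ∈ S` with `G.Adj a b`,
`¬ H.Adj a b` one has `Bad a b`.  For `a ∉ S`: `|N(a) ∩ S| ≥ G.degree a - |Sᶜ| ≥ (δ - γ) n`.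
-/

open Finset
open scoped Classical

namespace Pool.OCY

theorem cleanA {V : Type*} [Fintype V] (G : SimpleGraph V) (Bad : V → V → Prop)
    (hs : ∀ a b, Bad a b → Bad b a) {β γ δ : ℝ} (hγ : 0 < γ) (hβ : β ≤ γ ^ 2)
    (hB : ((univ.filter fun x : V × V => Bad x.1 x.2).card : ℝ) ≤ β * (Fintype.card V : ℝ) ^ 2)
    (hG : ∀ v, δ * Fintype.card V ≤ G.degree v) :
    ∃ (S : Finset V) (H : SimpleGraph V), H ≤ G ∧ (∀ a b, H.Adj a b → a ∈ S ∧ b ∈ S) ∧
      (∀ a b, H.Adj a b → ¬ Bad a b) ∧ ((Sᶜ.card : ℝ) ≤ γ * Fintype.card V) ∧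
      (∀ v ∈ S, (δ - 2 * γ) * Fintype.card V ≤ H.degree v) ∧
      (∀ a ∈ S, ((S.filter fun b => G.Adj a b ∧ ¬ H.Adj a b).card : ℝ) ≤ γ * Fintype.card V) ∧
      (∀ a ∉ S, (δ - 2 * γ) * Fintype.card V ≤ ((S.filter fun x => G.Adj a x).card : ℝ)) := by
  set n : ℝ := (Fintype.card V : ℝ) with hn
  have hn0 : 0 ≤ n := Nat.cast_nonneg _
  let bd : V → Finset V := fun v => univ.filter fun w => Bad v w
  let S : Finset V := univ.filter fun v => ((bd v).card : ℝ) ≤ γ * n
  obtain ⟨H, hHdef⟩ : ∃ H : SimpleGraph V,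
      ∀ a b, H.Adj a b ↔ G.Adj a b ∧ a ∈ S ∧ b ∈ S ∧ ¬ Bad a b :=
    ⟨{ Adj := fun a b => G.Adj a b ∧ a ∈ S ∧ b ∈ S ∧ ¬ Bad a b
       symm := ⟨fun a b h => ⟨h.1.symm, h.2.2.1, h.2.1, fun h1 => h.2.2.2 (hs _ _ h1)⟩⟩
       loopless := ⟨fun a h => G.loopless.irrefl a h.1⟩ }, fun _ _ => Iff.rfl⟩
  have hSmem : ∀ v, v ∈ S ↔ ((bd v).card : ℝ) ≤ γ * n := by
    intro v
    simp [S]
  -- the complement
  have hSc : (Sᶜ.card : ℝ) ≤ γ * n := by
    rcases hn0.eq_or_lt with h0 | hpos
    · have hc : Fintype.card V = 0 := by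
        have : (Fintype.card V : ℝ) = 0 := by rw [← hn, ← h0]
        exact_mod_cast this
      have : Sᶜ.card = 0 := by
        have h1 : Sᶜ.card ≤ Fintype.card V := Finset.card_le_univ _
        omega
      rw [this]
      simp only [Nat.cast_zero]
      exact mul_nonneg hγ.le hn0
    · have h1 : ∑ v, ((bd v).card : ℝ) = ((univ.filter fun x : V × V => Bad x.1 x.2).card : ℝ) := by
        rw [← Nat.cast_sum]
        congr 1
        rw [Finset.card_filter, Fintype.sum_prod_type]
        apply Finset.sum_congr rfl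
        intro v _
        simp only [bd]
        rw [Finset.card_filter]
      have h2 : (Sᶜ.card : ℝ) * (γ * n) ≤ ∑ v, ((bd v).card : ℝ) := by
        calc (Sᶜ.card : ℝ) * (γ * n) = ∑ v ∈ Sᶜ, γ * n := by
              rw [Finset.sum_const, nsmul_eq_mul]
          _ ≤ ∑ v ∈ Sᶜ, ((bd v).card : ℝ) := by
              apply Finset.sum_le_sum
              intro v hv
              have : ¬ (((bd v).card : ℝ) ≤ γ * n) := by
                intro h
                exact (Finset.mem_compl.1 hv) ((hSmem v).2 h)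
              exact (not_le.1 this).le
          _ ≤ ∑ v, ((bd v).card : ℝ) := by
              apply Finset.sum_le_sum_of_subset_of_nonneg (Finset.subset_univ _)
              intro v _ _
              exact Nat.cast_nonneg _
      have h3 : (Sᶜ.card : ℝ) * (γ * n) ≤ (γ * n) * (γ * n) := by
        calc (Sᶜ.card : ℝ) * (γ * n) ≤ ∑ v, ((bd v).card : ℝ) := h2
          _ = _ := h1
          _ ≤ β * n ^ 2 := hB
          _ ≤ γ ^ 2 * n ^ 2 := mul_le_mul_of_nonneg_right hβ (sq_nonneg _)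
          _ = (γ * n) * (γ * n) := by ring
      exact le_of_mul_le_mul_right h3 (mul_pos hγ hpos)
  refine ⟨S, H, ?_, ?_, ?_, hSc, ?_, ?_, ?_⟩
  · intro a b h
    exact ((hHdef a b).1 h).1
  · intro a b h
    exact ⟨((hHdef a b).1 h).2.1, ((hHdef a b).1 h).2.2.1⟩
  · intro a b h
    exact ((hHdef a b).1 h).2.2.2
  · intro v hv
    have h1 : G.neighborFinset v ⊆ H.neighborFinset v ∪ (bd v ∪ Sᶜ) := by
      intro w hw
      rw [SimpleGraph.mem_neighborFinset] at hw
      by_cases hb : Bad v w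
      · exact Finset.mem_union_right _ (Finset.mem_union_left _ (by simp [bd, hb]))
      · by_cases hwS : w ∈ S
        · apply Finset.mem_union_left
          rw [SimpleGraph.mem_neighborFinset]
          exact (hHdef v w).2 ⟨hw, hv, hwS, hb⟩
        · exact Finset.mem_union_right _ (Finset.mem_union_right _ (Finset.mem_compl.2 hwS))
    have h2 : G.degree v ≤ H.degree v + ((bd v).card + Sᶜ.card) := by
      rw [← SimpleGraph.card_neighborFinset_eq_degree, ← SimpleGraph.card_neighborFinset_eq_degree]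
      calc (G.neighborFinset v).card ≤ (H.neighborFinset v ∪ (bd v ∪ Sᶜ)).card :=
            Finset.card_le_card h1
        _ ≤ (H.neighborFinset v).card + (bd v ∪ Sᶜ).card := Finset.card_union_le _ _
        _ ≤ (H.neighborFinset v).card + ((bd v).card + Sᶜ.card) :=
            Nat.add_le_add_left (Finset.card_union_le _ _) _
    have h3 : (G.degree v : ℝ) ≤ H.degree v + ((bd v).card + Sᶜ.card) := by
      exact_mod_cast h2
    have h4 := (hSmem v).1 hv
    have h5 := hG v
    nlinarith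
  · intro a ha
    have h1 : (S.filter fun b => G.Adj a b ∧ ¬ H.Adj a b) ⊆ bd a := by
      intro b hb
      rw [Finset.mem_filter] at hb
      obtain ⟨hbS, hab, hn'⟩ := hb
      by_contra hcon
      apply hn'
      refine (hHdef a b).2 ⟨hab, ha, hbS, ?_⟩
      intro hbad
      apply hcon
      simp [bd, hbad]
    have h2 := Finset.card_le_card h1
    have h3 : (((S.filter fun b => G.Adj a b ∧ ¬ H.Adj a b).card : ℕ) : ℝ) ≤ (bd a).card := by
      exact_mod_cast h2
    exact h3.trans ((hSmem a).1 ha)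
  · intro a _
    have h1 : G.neighborFinset a ⊆ (S.filter fun x => G.Adj a x) ∪ Sᶜ := by
      intro w hw
      rw [SimpleGraph.mem_neighborFinset] at hw
      by_cases hwS : w ∈ S
      · exact Finset.mem_union_left _ (Finset.mem_filter.2 ⟨hwS, hw⟩)
      · exact Finset.mem_union_right _ (Finset.mem_compl.2 hwS)
    have h2 : G.degree a ≤ (S.filter fun x => G.Adj a x).card + Sᶜ.card := by
      rw [← SimpleGraph.card_neighborFinset_eq_degree]
      exact (Finset.card_le_card h1).trans (Finset.card_union_le _ _)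
    have h3 : (G.degree a : ℝ) ≤ (S.filter fun x => G.Adj a x).card + Sᶜ.card := by
      exact_mod_cast h2
    have h5 := hG a
    have h6 : 0 ≤ γ * n := mul_nonneg hγ.le hn0
    nlinarith

end Pool.OCY
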