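import Pool.Agent.OCY.Defs

/-!
MODULE CycF (difficulty 3).  Copies of the cycle graph and closed lists.

RECIPE: `cycleGraph (n+1)` on `Fin (n+1)` has `Adj u v ↔ u - v = 1 ∨ v - u = 1` (`SimpleGraph.cycleGraph_adj`,
`cycleGraph_adj'`), for `n + 1 = 2k + 1 ≥ 3`.
(1) `sum_cycle`: for `g : Fin (2k+1) → Fin (2k+1) → ℝ` symmetric, `∑ i j, (if Adj i j then g i j else 0) = 2 ∑ i, g i (i+1)`
(the two cases `j = i + 1`, `j = i - 1` are disjoint as `2k + 1 ≥ 3`).
(2) `cycNonpos_of_copies`: given `a, L` let `f i = (a :: L).get i` (`(a :: L).length = 2k+1`): injective since the list has no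
repetition; adjacent since the closed list is a chain; `psum r (a :: (L ++ [a])) = ∑ i, r (f i) (f (i+1))`; so by (1) and the
hypothesis `2 * psum ≤ 0`.
-/

open Finset
open scoped Classical

namespace Pool.OCY

lemma cycF_adj {k : ℕ} (hk : 1 ≤ k) (i j : Fin (2 * k + 1)) :
    (SimpleGraph.cycleGraph (2 * k + 1)).Adj i j ↔ (j = i + 1 ∨ i = j + 1) := by
  have h1 : ((1 : Fin (2 * k + 1)) : ℕ) = 1 := by
    rw [Fin.val_one']
    exact Nat.mod_eq_of_lt (by omega)
  have h2 : ∀ u v : Fin (2 * k + 1), (u - v).val = 1 ↔ u = v + 1 := by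
    intro u v
    constructor
    · intro h
      have h3 : u - v = 1 := Fin.ext (by rw [h, h1])
      rw [← h3]
      abel
    · rintro rfl
      have : v + 1 - v = 1 := by abel
      rw [this, h1]
  rw [SimpleGraph.cycleGraph_adj', h2, h2]
  exact or_comm

lemma cycF_dis {k : ℕ} (hk : 1 ≤ k) (i j : Fin (2 * k + 1)) : ¬ (j = i + 1 ∧ i = j + 1) := by
  rintro ⟨h, h'⟩
  rw [h] at h'
  have h1 : (1 : Fin (2 * k + 1)) + 1 = 0 := by
    have h2 : i + 0 = i + (1 + 1) := by rw [add_zero, ← add_assoc]; exact h'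
    exact (add_left_cancel h2).symm
  have h3 := congrArg Fin.val h1
  rw [Fin.val_add, Fin.val_one', Nat.mod_eq_of_lt (by omega : 1 < 2 * k + 1)] at h3
  have h4 : ((0 : Fin (2 * k + 1)) : ℕ) = 0 := rfl
  rw [h4] at h3
  have h5 : 2 < 2 * k + 1 := by omega
  rw [Nat.mod_eq_of_lt (by omega)] at h3
  omega

theorem sum_cycle {k : ℕ} (hk : 1 ≤ k) (g : Fin (2 * k + 1) → Fin (2 * k + 1) → ℝ)
    (hg : ∀ i j, g i j = g j i) :
    ∑ i, ∑ j, (if (SimpleGraph.cycleGraph (2 * k + 1)).Adj i j then g i j else 0)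
      = 2 * ∑ i, g i (i + 1) := by
  have h1 : ∀ i j, (if (SimpleGraph.cycleGraph (2 * k + 1)).Adj i j then g i j else 0) =
      (if j = i + 1 then g i j else 0) + (if i = j + 1 then g i j else 0) := by
    intro i j
    by_cases h2 : j = i + 1
    · have h3 : ¬ i = j + 1 := fun h => cycF_dis hk i j ⟨h2, h⟩
      rw [if_pos ((cycF_adj hk i j).2 (Or.inl h2)), if_pos h2, if_neg h3, add_zero]
    · by_cases h3 : i = j + 1
      · rw [if_pos ((cycF_adj hk i j).2 (Or.inr h3)), if_neg h2, if_pos h3, zero_add]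
      · rw [if_neg (fun h => ((cycF_adj hk i j).1 h).elim h2 h3), if_neg h2, if_neg h3, add_zero]
  have h2 : ∑ i, ∑ j, (if (SimpleGraph.cycleGraph (2 * k + 1)).Adj i j then g i j else 0) =
      ∑ i, ∑ j, (if j = i + 1 then g i j else 0) + ∑ i, ∑ j, (if i = j + 1 then g i j else 0) := by
    rw [← Finset.sum_add_distrib]
    refine Finset.sum_congr rfl fun i _ => ?_
    rw [← Finset.sum_add_distrib]
    exact Finset.sum_congr rfl fun j _ => h1 i j
  have h3 : ∑ i, ∑ j, (if j = i + 1 then g i j else 0) = ∑ i, g i (i + 1) := by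
    refine Finset.sum_congr rfl fun i _ => ?_
    rw [Finset.sum_ite_eq']
    rw [if_pos (Finset.mem_univ _)]
  have h4 : ∑ i, ∑ j, (if i = j + 1 then g i j else 0) = ∑ i, g i (i + 1) := by
    rw [Finset.sum_comm]
    refine Finset.sum_congr rfl fun j _ => ?_
    rw [Finset.sum_ite_eq']
    rw [if_pos (Finset.mem_univ _)]
    exact hg _ _
  rw [h2, h3, h4]
  ring

lemma cycF_psum {V : Type*} (r : V → V → ℝ) (d : V) : ∀ M : List V,
    psum r M = ∑ i ∈ Finset.range (M.length - 1), r (M.getD i d) (M.getD (i + 1) d) := by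
  intro M
  induction M with
  | nil => simp [psum]
  | cons a M ih =>
    cases M with
    | nil => simp [psum]
    | cons b L =>
      have h1 : psum r (a :: b :: L) = r a b + psum r (b :: L) := rfl
      have h2 : (a :: b :: L).length - 1 = ((b :: L).length - 1) + 1 := by simp
      rw [h1, h2, Finset.sum_range_succ', ih]
      simp only [List.getD_cons_succ, List.getD_cons_zero]
      ring

theorem cycNonpos_of_copies {k : ℕ} (hk : 1 ≤ k) {V : Type*} {G : SimpleGraph V}
    {r : V → V → ℝ} (hs : ∀ a b, r a b = r b a)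
    (h : ∀ f : Fin (2 * k + 1) → V, Function.Injective f →
      (∀ i j, (SimpleGraph.cycleGraph (2 * k + 1)).Adj i j → G.Adj (f i) (f j)) →
        ∑ i, ∑ j, (if (SimpleGraph.cycleGraph (2 * k + 1)).Adj i j then r (f i) (f j) else 0) ≤ 0) :
    CycNonpos G (2 * k + 1) r := by
  intro a L hL hnd hch
  have hlen : (a :: L).length = 2 * k + 1 := by rw [List.length_cons, hL]
  let f : Fin (2 * k + 1) → V := fun i => (a :: L)[i.val]'(by rw [hlen]; exact i.2)
  have hM : a :: (L ++ [a]) = (a :: L) ++ [a] := rfl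
  have hMl : (a :: (L ++ [a])).length = 2 * k + 2 := by
    rw [hM, List.length_append, hlen]
    rfl
  have hf : Function.Injective f := by
    intro i j hij
    exact Fin.ext ((List.Nodup.getElem_inj_iff hnd).1 hij)
  have hget : ∀ i : Fin (2 * k + 1), (a :: (L ++ [a])).getD i.val a = f i := by
    intro i
    have hi : i.val < (a :: L).length := by rw [hlen]; exact i.2
    rw [hM, List.getD_append _ _ _ _ hi, List.getD_eq_getElem _ _ hi]
  have hget1 : ∀ i : Fin (2 * k + 1), (a :: (L ++ [a])).getD (i.val + 1) a = f (i + 1) := by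
    intro i
    by_cases hi : i.val + 1 < 2 * k + 1
    · have h1 : (i + 1).val = i.val + 1 := by
        rw [Fin.val_add, Fin.val_one', Nat.mod_eq_of_lt (by omega : 1 < 2 * k + 1),
          Nat.mod_eq_of_lt hi]
      rw [← h1]
      exact hget (i + 1)
    · have h0 : i.val + 1 = 2 * k + 1 := by have := i.2; omega
      have h1 : i + 1 = 0 := by
        apply Fin.ext
        rw [Fin.val_add, Fin.val_one', Nat.mod_eq_of_lt (by omega : 1 < 2 * k + 1), h0,
          Nat.mod_self]
        rfl
      rw [h1, h0, hM, List.getD_append_right _ _ _ _ (by rw [hlen]), hlen, Nat.sub_self]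
      rfl
  have hadj : ∀ i : Fin (2 * k + 1), G.Adj (f i) (f (i + 1)) := by
    intro i
    rw [List.isChain_iff_getElem] at hch
    have hi : i.val + 1 < (a :: (L ++ [a])).length := by rw [hMl]; have := i.2; omega
    have h1 := hch i.val hi
    rw [← hget i, ← hget1 i, List.getD_eq_getElem _ _ (Nat.lt_of_succ_lt hi),
      List.getD_eq_getElem _ _ hi]
    exact h1
  have h1 := h f hf (by
    intro i j hij
    rcases (cycF_adj hk i j).1 hij with rfl | rfl
    · exact hadj i
    · exact (hadj j).symm)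
  rw [sum_cycle hk (fun i j => r (f i) (f j)) (fun i j => hs _ _)] at h1
  have h2 : psum r (a :: (L ++ [a])) = ∑ i, r (f i) (f (i + 1)) := by
    rw [cycF_psum r a, hMl]
    have h3 : 2 * k + 2 - 1 = 2 * k + 1 := by omega
    rw [h3, Finset.sum_range]
    refine Finset.sum_congr rfl fun i _ => ?_
    rw [hget, hget1]
  rw [h2]
  linarith

end Pool.OCY
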