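import Pool.Agent.OCY.PathAv

/-!
MODULE BadE (difficulty 2).  The deleted edges inside `S`.

RECIPE: `path_av` with `m = 2k - 1`.  For `a, b ∈ S` with `G.Adj a b`: for every list `L` of length `2k - 1` with
`b :: (L ++ [a])` without repetition and a chain in `H ≤ G`, the closed list `a :: ((b :: L) ++ [a])` is a cycle of length
`2k + 1` in `G`, weight `r a b + psum (b :: (L ++ [a])) ≤ 0`.  So
`r a b ≤ C/n (rho b + rho a) + C/n² tot` (`K = r a b`, `x = b`, `y = a`; `tot, rho` of `H`).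
Sum over the ordered pairs `a, b ∈ S`, `G.Adj a b`, `¬ H.Adj a b`: each `a` is in at most `γ n` of them (also as the second
entry, by symmetry), there are at most `γ n²` of them: total `≤ C/n * 2 * γ n * tot + C γ tot = 3 C γ tot`
(`∑_a rho a = tot`).
-/

open Finset
open scoped Classical

namespace Pool.OCY

theorem badE_point {k : ℕ} (hk : 2 ≤ k) {V : Type} {G H : SimpleGraph V} (hHG : H ≤ G)
    {r : V → V → ℝ} (hr : CycNonpos G (2 * k + 1) r) {a b : V} (hab : G.Adj a b) :
    ∀ L : List V, L.length = 2 * k - 1 → (b :: (L ++ [a])).Nodup →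
        List.IsChain H.Adj (b :: (L ++ [a])) → r a b + psum r (b :: (L ++ [a])) ≤ 0 := by
  intro L hL hnd hch
  have h1 := hr a (b :: L) (by simp only [List.length_cons]; omega) (by
    have hp : (a :: b :: L).Perm (b :: (L ++ [a])) := by
      refine (List.Perm.swap b a L).trans ?_
      refine List.Perm.cons b ?_
      exact (List.perm_append_singleton a L).symm
    exact hp.nodup_iff.2 hnd) (by
    have hch' : List.IsChain G.Adj (b :: (L ++ [a])) := hch.imp (fun x y h => hHG h)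
    show List.IsChain G.Adj (a :: b :: (L ++ [a]))
    exact List.IsChain.cons_cons hab hch')
  exact h1

theorem badE {k : ℕ} (hk : 2 ≤ k) {η : ℝ} (hη : 0 < η) (hη1 : η ≤ 1 / 2) :
    ∃ C : ℝ, 0 < C ∧ ∃ n₀ : ℕ, ∀ (V : Type) [Fintype V], n₀ ≤ Fintype.card V →
      ∀ (G H : SimpleGraph V) (S : Finset V), H ≤ G → (∀ a b, H.Adj a b → a ∈ S ∧ b ∈ S) →
      (∀ v ∈ S, (1 / 2 + η) * Fintype.card V ≤ H.degree v) → ∀ γ : ℝ, 0 ≤ γ →
      (∀ a ∈ S, ((S.filter fun b => G.Adj a b ∧ ¬ H.Adj a b).card : ℝ) ≤ γ * Fintype.card V) →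
      ∀ r : V → V → ℝ, (∀ a b, r a b = r b a) → CycNonpos G (2 * k + 1) r →
      ∑ a ∈ S, ∑ b ∈ S, (if H.Adj a b then 0 else ext G r a b) ≤ C * γ * tot H r := by
  obtain ⟨C, hC, n1, h1⟩ := path_av hη hη1 (2 * k - 1) (by omega)
  refine ⟨3 * C, by positivity, max n1 1, ?_⟩
  intro V _ hn G H S hHG hHS hdeg γ hγ hbad r hs hr
  have hn1 : n1 ≤ Fintype.card V := le_trans (le_max_left _ _) hn
  have hnp : (1 : ℕ) ≤ Fintype.card V := le_trans (le_max_right _ _) hn
  have hnR : (0 : ℝ) < (Fintype.card V : ℝ) := by exact_mod_cast hnp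
  set n : ℝ := (Fintype.card V : ℝ) with hndef
  have hrho : ∀ a, 0 ≤ rho H r a := fun a => Finset.sum_nonneg (fun _ _ => abs_nonneg _)
  have htot0 : 0 ≤ tot H r := Finset.sum_nonneg (fun a _ => hrho a)
  have hsumS : ∑ a ∈ S, rho H r a ≤ tot H r :=
    Finset.sum_le_sum_of_subset_of_nonneg (Finset.subset_univ S) (fun a _ _ => hrho a)
  have hpt : ∀ a ∈ S, ∀ b ∈ S, (if H.Adj a b then 0 else ext G r a b) ≤
      (if G.Adj a b ∧ ¬ H.Adj a b then
        (C / n * (rho H r b + rho H r a) + C / n ^ 2 * tot H r) else 0) := by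
    intro a ha b hb
    by_cases hH : H.Adj a b
    · simp [hH]
    · by_cases hG : G.Adj a b
      · rw [if_neg hH, if_pos ⟨hG, hH⟩]
        unfold ext
        rw [if_pos hG]
        exact h1 V hn1 H S hHS hdeg r hs b hb a ha hG.ne' (r a b) (badE_point hk hHG hr hG)
      · simp [hH, hG, ext]
  refine (Finset.sum_le_sum (fun a ha => Finset.sum_le_sum (fun b hb => hpt a ha b hb))).trans ?_
  -- split
  have hsplit : ∀ a b : V, (if G.Adj a b ∧ ¬ H.Adj a b then
        (C / n * (rho H r b + rho H r a) + C / n ^ 2 * tot H r) else 0) =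
      C / n * (if G.Adj a b ∧ ¬ H.Adj a b then rho H r b else 0) +
      C / n * (if G.Adj a b ∧ ¬ H.Adj a b then rho H r a else 0) +
      C / n ^ 2 * tot H r * (if G.Adj a b ∧ ¬ H.Adj a b then 1 else 0) := by
    intro a b
    split_ifs <;> ring
  simp only [hsplit, Finset.sum_add_distrib, ← Finset.mul_sum]
  have hA : ∑ a ∈ S, ∑ b ∈ S, (if G.Adj a b ∧ ¬ H.Adj a b then rho H r a else 0) ≤
      γ * n * tot H r := by
    have hA1 : ∀ a ∈ S, ∑ b ∈ S, (if G.Adj a b ∧ ¬ H.Adj a b then rho H r a else 0) ≤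
        γ * n * rho H r a := by
      intro a ha
      rw [← Finset.sum_filter, Finset.sum_const, nsmul_eq_mul]
      exact mul_le_mul_of_nonneg_right (hbad a ha) (hrho a)
    refine (Finset.sum_le_sum hA1).trans ?_
    rw [← Finset.mul_sum]
    exact mul_le_mul_of_nonneg_left hsumS (by positivity)
  have hB : ∑ a ∈ S, ∑ b ∈ S, (if G.Adj a b ∧ ¬ H.Adj a b then rho H r b else 0) ≤
      γ * n * tot H r := by
    rw [Finset.sum_comm]
    refine le_trans (le_of_eq ?_) hA
    refine Finset.sum_congr rfl (fun a _ => Finset.sum_congr rfl (fun b _ => ?_))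
    have e : (G.Adj b a ∧ ¬ H.Adj b a) ↔ (G.Adj a b ∧ ¬ H.Adj a b) := by
      rw [G.adj_comm, H.adj_comm]
    simp only [e]
  have hD : ∑ a ∈ S, ∑ b ∈ S, (if G.Adj a b ∧ ¬ H.Adj a b then (1 : ℝ) else 0) ≤ γ * n * n := by
    have hD1 : ∀ a ∈ S, ∑ b ∈ S, (if G.Adj a b ∧ ¬ H.Adj a b then (1 : ℝ) else 0) ≤ γ * n := by
      intro a ha
      rw [← Finset.sum_filter, Finset.sum_const, nsmul_eq_mul, mul_one]
      exact hbad a ha
    refine (Finset.sum_le_sum hD1).trans ?_
    rw [Finset.sum_const, nsmul_eq_mul, mul_comm]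
    refine mul_le_mul_of_nonneg_left ?_ (by positivity)
    have : S.card ≤ Fintype.card V := Finset.card_le_univ S
    rw [hndef]
    exact_mod_cast this
  have hCn : 0 ≤ C / n := by positivity
  have hCn2 : 0 ≤ C / n ^ 2 * tot H r := by positivity
  have k1 := mul_le_mul_of_nonneg_left hB hCn
  have k2 := mul_le_mul_of_nonneg_left hA hCn
  have k3 := mul_le_mul_of_nonneg_left hD hCn2
  have e1 : C / n * (γ * n * tot H r) = C * γ * tot H r := by
    field_simp
  have e3 : C / n ^ 2 * tot H r * (γ * n * n) = C * γ * tot H r := by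
    field_simp
  rw [e1] at k1 k2
  rw [e3] at k3
  linarith

end Pool.OCY
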