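import Pool.Agent.OCY.Star
import Pool.Agent.OCY.CleanA
import Pool.Agent.OCY.ExcB

/-!
MODULE Clean (difficulty 4).  The cleaned graph.

RECIPE: take `c₀, C₀` from `star` for `T, ε/2`, and `c = c₀ / 2`.  Given `γ > 0` (we may assume `γ ≤ ε/4` and
`γ ≤ 1/2`, replacing it by `min γ (ε/4)`), let `ζ = c₀ / (12 C₀ (T+1))`, `τ = ζ γ ^ 2 / 14`.  Let
`Bad a b = ¬ Good G T r ζ a b` (symmetric); `bad_count` and `cleanA` with `β = γ ^ 2`, `δ = 1/2 + 1/(2T) + ε` give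
`S, H`; `δ - 2γ ≥ 1/2 + 1/(2T) + ε/2`.
Apply `star` to the type `↥S` (`V' = S`), the graph `H' = H.comap Subtype.val` and `r' a b = r a b`:
degrees `H'.degree v = H.degree v ≥ (1/2 + 1/(2T) + ε/2) n ≥ (...) |S|`.  The sums over `↥S` of `ext H'`, `exc4 H'`,
`exc3 H'` are the sums over `V` of `ext H`, `exc4 H`, `exc3 H` (`Finset.sum_coe_sort`; a nonzero term of the
latter has all its vertices in `S`), so with `n' = |S| ≥ n / 2`:
`∑∑ ext H + c₀ tot H ≤ C₀ (E4 / n' ^ 2 + E3 / n') ≤ C₀ (4 + 2) (T+1) ζ tot H = (c₀ / 2) tot H` by `exc_bound`.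
(If `V` is empty everything is `0`, take `S = univ`, `H = G`.)
-/

open Finset
open scoped Classical

namespace Pool.OCY

theorem clean_sum1 {V : Type*} [Fintype V] (S : Finset V) (f : V → ℝ) (hf : ∀ a, a ∉ S → f a = 0) :
    ∑ a : ↥S, f a.1 = ∑ a, f a := by
  rw [Finset.sum_coe_sort S f]
  apply Finset.sum_subset (Finset.subset_univ _)
  intro a _ ha
  exact hf a ha

theorem clean_sum2 {V : Type*} [Fintype V] (S : Finset V) (f : V → V → ℝ)
    (hf : ∀ a b, ¬ (a ∈ S ∧ b ∈ S) → f a b = 0) :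
    ∑ a : ↥S, ∑ b : ↥S, f a.1 b.1 = ∑ a, ∑ b, f a b := by
  rw [← clean_sum1 S (fun a => ∑ b, f a b) (fun a ha =>
    Finset.sum_eq_zero fun b _ => hf a b fun h => ha h.1)]
  apply Finset.sum_congr rfl
  intro a _
  exact clean_sum1 S (fun b => f a.1 b) (fun b hb => hf _ _ fun h => hb h.2)

theorem clean_sum3 {V : Type*} [Fintype V] (S : Finset V) (f : V → V → V → ℝ)
    (hf : ∀ a b c, ¬ (a ∈ S ∧ b ∈ S ∧ c ∈ S) → f a b c = 0) :
    ∑ a : ↥S, ∑ b : ↥S, ∑ c : ↥S, f a.1 b.1 c.1 = ∑ a, ∑ b, ∑ c, f a b c := by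
  rw [← clean_sum1 S (fun a => ∑ b, ∑ c, f a b c) (fun a ha =>
    Finset.sum_eq_zero fun b _ => Finset.sum_eq_zero fun c _ => hf a b c fun h => ha h.1)]
  apply Finset.sum_congr rfl
  intro a _
  exact clean_sum2 S (fun b c => f a.1 b c) (fun b c hb => hf _ _ _ fun h => hb h.2)

theorem clean_sum4 {V : Type*} [Fintype V] (S : Finset V) (f : V → V → V → V → ℝ)
    (hf : ∀ a b c d, ¬ (a ∈ S ∧ b ∈ S ∧ c ∈ S ∧ d ∈ S) → f a b c d = 0) :
    ∑ a : ↥S, ∑ b : ↥S, ∑ c : ↥S, ∑ d : ↥S, f a.1 b.1 c.1 d.1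
      = ∑ a, ∑ b, ∑ c, ∑ d, f a b c d := by
  rw [← clean_sum1 S (fun a => ∑ b, ∑ c, ∑ d, f a b c d) (fun a ha =>
    Finset.sum_eq_zero fun b _ => Finset.sum_eq_zero fun c _ =>
      Finset.sum_eq_zero fun d _ => hf a b c d fun h => ha h.1)]
  apply Finset.sum_congr rfl
  intro a _
  exact clean_sum3 S (fun b c d => f a.1 b c d) (fun b c d hb => hf _ _ _ _ fun h => hb h.2)

theorem clean_degree {V : Type*} [Fintype V] (S : Finset V) (H : SimpleGraph V)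
    (hS : ∀ a b, H.Adj a b → a ∈ S ∧ b ∈ S) (v : ↥S)
    (i : Fintype ((H.comap (Subtype.val : ↥S → V)).neighborSet v)) :
    @SimpleGraph.degree _ (H.comap (Subtype.val : ↥S → V)) v i = H.degree v.1 := by
  rw [← SimpleGraph.card_neighborFinset_eq_degree, ← SimpleGraph.card_neighborFinset_eq_degree]
  rw [← Finset.card_map ⟨(Subtype.val : ↥S → V), Subtype.val_injective⟩]
  congr 1
  ext w
  simp only [Finset.mem_map, SimpleGraph.mem_neighborFinset, Function.Embedding.coeFn_mk,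
    SimpleGraph.comap_adj]
  constructor
  · rintro ⟨a, h1, h2⟩
    rw [← h2]
    exact h1
  · intro h
    exact ⟨⟨w, (hS _ _ h).2⟩, h, rfl⟩

theorem clean_alg {A t c C E4 E3 n m T : ℝ} (hT : 3 ≤ T) (hc : 0 < c) (hC : 0 < C) (ht : 0 ≤ t)
    (hn : 0 < n) (hm : n / 2 ≤ m)
    (h : A + c * t ≤ C * (E4 / m ^ 2 + E3 / m))
    (h4 : E4 ≤ (T + 1) * (c / (12 * C * (T + 1))) * n ^ 2 * t)
    (h3 : E3 ≤ (T + 1) * (c / (12 * C * (T + 1))) * n * t) :
    A ≤ -(c / 2) * t := by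
  have hm0 : 0 < m := by linarith
  have hT1 : 0 < T + 1 := by linarith
  have e : (T + 1) * (c / (12 * C * (T + 1))) = c / (12 * C) := by
    field_simp
  rw [e] at h4 h3
  have hq : 0 ≤ c / (12 * C) := by positivity
  have g4 : E4 / m ^ 2 ≤ 4 * (c / (12 * C)) * t := by
    rw [div_le_iff₀ (by positivity)]
    have h5 : n ^ 2 ≤ 4 * m ^ 2 := by nlinarith
    calc E4 ≤ c / (12 * C) * n ^ 2 * t := h4
      _ = (c / (12 * C) * t) * n ^ 2 := by ring
      _ ≤ (c / (12 * C) * t) * (4 * m ^ 2) :=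
          mul_le_mul_of_nonneg_left h5 (mul_nonneg hq ht)
      _ = _ := by ring
  have g3 : E3 / m ≤ 2 * (c / (12 * C)) * t := by
    rw [div_le_iff₀ hm0]
    have h5 : n ≤ 2 * m := by linarith
    calc E3 ≤ c / (12 * C) * n * t := h3
      _ = (c / (12 * C) * t) * n := by ring
      _ ≤ (c / (12 * C) * t) * (2 * m) :=
          mul_le_mul_of_nonneg_left h5 (mul_nonneg hq ht)
      _ = _ := by ring
  have g : C * (E4 / m ^ 2 + E3 / m) ≤ C * (6 * (c / (12 * C)) * t) := by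
    apply mul_le_mul_of_nonneg_left _ hC.le
    linarith
  have e2 : C * (6 * (c / (12 * C)) * t) = c / 2 * t := by
    field_simp
    ring
  linarith

theorem clean {T ε : ℝ} (hT : 3 ≤ T) (hε : 0 < ε) (hε1 : ε ≤ 1 / 12) :
    ∃ c : ℝ, 0 < c ∧ ∀ γ : ℝ, 0 < γ → ∃ τ : ℝ, 0 < τ ∧ ∀ (V : Type) [Fintype V]
      (G : SimpleGraph V), (∀ v, (1 / 2 + 1 / (2 * T) + ε) * Fintype.card V ≤ G.degree v) →
      ∀ r : V → V → ℝ, (∀ a b, r a b = r b a) →
      ((univ.filter fun x : V × V × V × V => P4 G T r x.1 x.2.1 x.2.2.1 x.2.2.2).card : ℝ)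
        ≤ τ * (Fintype.card V : ℝ) ^ 4 →
      ((univ.filter fun x : V × V × V => P3 G T r x.1 x.2.1 x.2.2).card : ℝ)
        ≤ τ * (Fintype.card V : ℝ) ^ 3 →
      ∃ (S : Finset V) (H : SimpleGraph V), H ≤ G ∧ (∀ a b, H.Adj a b → a ∈ S ∧ b ∈ S) ∧
        ((Sᶜ.card : ℝ) ≤ γ * Fintype.card V) ∧
        (∀ v ∈ S, (1 / 2 + 1 / (2 * T) + ε / 2) * Fintype.card V ≤ H.degree v) ∧
        (∀ a ∈ S, ((S.filter fun b => G.Adj a b ∧ ¬ H.Adj a b).card : ℝ)
          ≤ γ * Fintype.card V) ∧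
        (∀ a ∉ S, (1 / 2 + 1 / (2 * T) + ε / 2) * Fintype.card V
          ≤ ((S.filter fun x => G.Adj a x).card : ℝ)) ∧
        ∑ a, ∑ b, ext H r a b ≤ -c * tot H r := by
  obtain ⟨c₀, C₀, hc₀, hC₀, hstar⟩ := star (T := T) (ε := ε / 2) hT (by linarith) (by linarith)
  refine ⟨c₀ / 2, by positivity, ?_⟩
  intro γ hγ
  obtain ⟨γ', hγ', hγγ, hγε, hγ2⟩ : ∃ γ' : ℝ, 0 < γ' ∧ γ' ≤ γ ∧ γ' ≤ ε / 4 ∧ γ' ≤ 1 / 2 :=
    ⟨min γ (min (ε / 4) (1 / 2)), by positivity, min_le_left _ _,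
      (min_le_right _ _).trans (min_le_left _ _), (min_le_right _ _).trans (min_le_right _ _)⟩
  have hT1 : 0 < T + 1 := by linarith
  obtain ⟨ζ, hζ⟩ : ∃ ζ : ℝ, ζ = c₀ / (12 * C₀ * (T + 1)) := ⟨_, rfl⟩
  have hζ0 : 0 < ζ := by rw [hζ]; positivity
  refine ⟨ζ * γ' ^ 2 / 14, by positivity, ?_⟩
  intro V _ G hdeg r hs h4 h3
  have hbad := bad_count G T r (ζ := ζ) (τ := ζ * γ' ^ 2 / 14) hζ0 (by positivity) h4 h3
  have hbe : 14 * (ζ * γ' ^ 2 / 14) / ζ = γ' ^ 2 := by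
    field_simp
  rw [hbe] at hbad
  obtain ⟨Bad, hBad⟩ : ∃ Bad : V → V → Prop, ∀ a b, Bad a b ↔ ¬ Good G T r ζ a b :=
    ⟨fun a b => ¬ Good G T r ζ a b, fun _ _ => Iff.rfl⟩
  have hsym : ∀ a b, Bad a b → Bad b a := by
    intro a b h
    rw [hBad] at h ⊢
    intro h'
    exact h ⟨h'.2, h'.1⟩
  have hbc : (univ.filter fun x : V × V => Bad x.1 x.2).card
      = (univ.filter fun x : V × V => ¬ Good G T r ζ x.1 x.2).card := by
    apply congrArg Finset.card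
    ext x
    simp [hBad]
  rw [← hbc] at hbad
  obtain ⟨S, H, hHG, hHS, hHB, hSc, hSd, hSf, hSo⟩ :=
    cleanA G Bad hsym (β := γ' ^ 2) (γ := γ')
      (δ := 1 / 2 + 1 / (2 * T) + ε) hγ' le_rfl hbad hdeg
  have hn0 : (0 : ℝ) ≤ Fintype.card V := Nat.cast_nonneg _
  have hγn : γ' * (Fintype.card V : ℝ) ≤ γ * Fintype.card V := mul_le_mul_of_nonneg_right hγγ hn0
  have hδ : (1 / 2 + 1 / (2 * T) + ε / 2) * (Fintype.card V : ℝ)
      ≤ (1 / 2 + 1 / (2 * T) + ε - 2 * γ') * Fintype.card V := by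
    apply mul_le_mul_of_nonneg_right _ hn0
    linarith
  refine ⟨S, H, hHG, hHS, hSc.trans hγn, fun v hv => hδ.trans (hSd v hv),
    fun a ha => (hSf a ha).trans hγn, fun a ha => hδ.trans (hSo a ha), ?_⟩
  rcases isEmpty_or_nonempty V with hV | hV
  · simp [tot]
  have hnpos : (0 : ℝ) < Fintype.card V := by
    exact_mod_cast Fintype.card_pos
  have hSn : (Fintype.card V : ℝ) / 2 ≤ (S.card : ℝ) := by
    have h1 : S.card + Sᶜ.card = Fintype.card V := Finset.card_add_card_compl S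
    have h2 : (S.card : ℝ) + (Sᶜ.card : ℝ) = Fintype.card V := by exact_mod_cast h1
    have h3 : γ' * (Fintype.card V : ℝ) ≤ 1 / 2 * Fintype.card V :=
      mul_le_mul_of_nonneg_right hγ2 hn0
    linarith
  have hcard : (Fintype.card ↥S : ℝ) = S.card := by
    rw [Fintype.card_coe]
  have hSle : (S.card : ℝ) ≤ Fintype.card V := by
    exact_mod_cast Finset.card_le_univ S
  have hT0 : 0 < 1 / (2 * T) := by
    have : 0 < T := by linarith
    positivity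
  have hst := hstar ↥S (H.comap (Subtype.val : ↥S → V)) (fun v => by
    rw [clean_degree S H hHS v _, hcard]
    have h1 := hδ.trans (hSd v.1 v.2)
    refine le_trans ?_ h1
    have h2 : 0 ≤ 1 / 2 + 1 / (2 * T) + ε / 2 := by linarith
    exact mul_le_mul_of_nonneg_left hSle h2) (fun a b => r a.1 b.1) (fun a b => hs _ _)
  have e2 : ∑ a : ↥S, ∑ b : ↥S, ext (H.comap (Subtype.val : ↥S → V)) (fun a b => r a.1 b.1) a b
      = ∑ a, ∑ b, ext H r a b :=
    clean_sum2 S (fun a b => ext H r a b) (fun a b h => by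
      show ext H r a b = 0
      unfold ext
      rw [if_neg]
      intro h'
      exact h (hHS a b h'))
  have et : tot (H.comap (Subtype.val : ↥S → V)) (fun a b => r a.1 b.1) = tot H r :=
    clean_sum2 S (fun a b => |ext H r a b|) (fun a b h => by
      show |ext H r a b| = 0
      unfold ext
      rw [if_neg, abs_zero]
      intro h'
      exact h (hHS a b h'))
  have e4 : ∑ a : ↥S, ∑ b : ↥S, ∑ c' : ↥S, ∑ d : ↥S,
      exc4 (H.comap (Subtype.val : ↥S → V)) T (fun a b => r a.1 b.1) a b c' d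
      = ∑ a, ∑ b, ∑ c', ∑ d, exc4 H T r a b c' d :=
    clean_sum4 S (fun a b c' d => exc4 H T r a b c' d) (fun a b c' d h => by
      show exc4 H T r a b c' d = 0
      unfold exc4
      rw [if_neg]
      intro h'
      exact h ⟨(hHS _ _ h'.1).1, (hHS _ _ h'.1).2, (hHS _ _ h'.2.1).2, (hHS _ _ h'.2.2.2).2⟩)
  have e3 : ∑ a : ↥S, ∑ b : ↥S, ∑ c' : ↥S,
      exc3 (H.comap (Subtype.val : ↥S → V)) T (fun a b => r a.1 b.1) a b c'
      = ∑ a, ∑ b, ∑ c', exc3 H T r a b c' :=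
    clean_sum3 S (fun a b c' => exc3 H T r a b c') (fun a b c' h => by
      show exc3 H T r a b c' = 0
      unfold exc3
      rw [if_neg]
      intro h'
      exact h ⟨(hHS _ _ h'.1).1, (hHS _ _ h'.1).2, (hHS _ _ h'.2.1).2⟩)
  rw [e2, et, e4, e3, hcard] at hst
  obtain ⟨b4, b3⟩ := exc_bound G H hHG hT r hs (ζ := ζ) hζ0.le
    (fun a b h => not_not.1 (fun h' => hHB a b h ((hBad a b).2 h')))
  rw [hζ] at b4 b3
  have htot0 : 0 ≤ tot H r :=
    Finset.sum_nonneg fun a _ => Finset.sum_nonneg fun b _ => abs_nonneg _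
  exact clean_alg hT hc₀ hC₀ htot0 hnpos hSn hst b4 b3

end Pool.OCY
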