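import Pool.Agent.OCY.HubA

/-!
MODULE HubB (difficulty 3).  The edges at the hubs, abstract version (`B` = hubs, `S` = complement,
`N a` = neighbours of `a` in `S`, `D x y = dd x + dd y + κ`).

RECIPE: `n = card V`.  For `a, b ∈ B` adjacent (`A a b`): sum (P2) over all `x ∈ N a`, `y ∈ N b`, `x ≠ y`:
with `Q = |N a| |N b| - |N a ∩ N b| ≥ n²/8` (for `n ≥ n₀ = 64`, `|N a| ≥ n/2`):
`Q * g a b + ∑_{x ∈ N a} f a x (|N b| - 1[x ∈ N b]) + ∑_{y ∈ N b} f b y (|N a| - 1[y ∈ N a]) ≤ ∑∑ D x y`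
and `∑∑ D x y ≤ n (∑ dd) + n (∑ dd) + n² κ` (sums over `x, y ∈ V`, `dd, κ ≥ 0`).
So `g a b ≤ -∑_x q_{ab}(x) f a x - ∑_y q_{ba}(y) f b y + (16 Σdd / n + 8 κ)` with
`q_{ab}(x) = (|N b| - 1[x ∈ N b]) / Q ∈ [0, 8/n]`.  Sum over `a, b ∈ B` with `A a b` (`A`, `g` symmetric):
`∑_{a,b ∈ B} g a b ≤ -2 ∑_a ∑_{x ∈ N a} (∑_{b ~ a} q_{ab}(x)) f a x + |B|² (16 Σdd/n + 8κ)`.
Hence the left side of the claim is `≤ 2 ∑_a ∑_{x ∈ N a} p_a(x) f a x + |B|² (...)`,
`p_a(x) = 1 - ∑_b q_{ab}(x) ∈ [1 - 8 |B| / n, 1] ⊆ [7/8, 1]` as `|B| ≤ n/64`.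
By (P1) and `hubA` with `N = N a`: `∑ p_a f ≤ 1/(|N a| - 2) * ∑∑ D ≤ (4/n) (2 n Σdd + n² κ) = 8 Σdd + 4 n κ`.
Total: `|B| (16 Σdd + 8 n κ) + |B|² (16 Σdd / n + 8 κ) ≤ |B| (32 Σdd + 16 n κ)`.
-/

open Finset
open scoped Classical

namespace Pool.OCY

/-- the sum of (P2) over all pairs -/
theorem hubb_pair {V : Type*} [Fintype V] (X Y : Finset V) (g : ℝ) (f f' dd : V → ℝ) (κ : ℝ)
    (hd : ∀ x, 0 ≤ dd x) (hκ : 0 ≤ κ)
    (h : ∀ x ∈ X, ∀ y ∈ Y, x ≠ y → g + f x + f' y ≤ dd x + dd y + κ) :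
    ((X.card : ℝ) * Y.card - (X ∩ Y).card) * g
      + ∑ x ∈ X, ((Y.card : ℝ) - if x ∈ Y then 1 else 0) * f x
      + ∑ y ∈ Y, ((X.card : ℝ) - if y ∈ X then 1 else 0) * f' y
      ≤ 2 * Fintype.card V * ∑ x, dd x + (Fintype.card V : ℝ) ^ 2 * κ := by
  have e1 : ∑ x ∈ X, ((Y.card : ℝ) - if x ∈ Y then 1 else 0) * f x
      = Y.card * ∑ x ∈ X, f x - ∑ x ∈ X ∩ Y, f x := by
    rw [← Finset.sum_ite_mem, Finset.mul_sum, ← Finset.sum_sub_distrib]
    refine Finset.sum_congr rfl fun x _ => ?_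
    split_ifs <;> ring
  have e2 : ∑ y ∈ Y, ((X.card : ℝ) - if y ∈ X then 1 else 0) * f' y
      = X.card * ∑ y ∈ Y, f' y - ∑ x ∈ X ∩ Y, f' x := by
    rw [Finset.inter_comm, ← Finset.sum_ite_mem, Finset.mul_sum, ← Finset.sum_sub_distrib]
    refine Finset.sum_congr rfl fun x _ => ?_
    split_ifs <;> ring
  have e3 : ∑ x ∈ X, ∑ y ∈ Y, (if x = y then 0 else g + f x + f' y)
      = ∑ x ∈ X, ∑ y ∈ Y, (g + f x + f' y) - ∑ x ∈ X ∩ Y, (g + f x + f' x) := by
    rw [← Finset.sum_ite_mem, ← Finset.sum_sub_distrib]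
    refine Finset.sum_congr rfl fun x _ => ?_
    have e4 : (if x ∈ Y then g + f x + f' x else 0)
        = ∑ y ∈ Y, (if x = y then g + f x + f' y else 0) := by
      rw [Finset.sum_ite_eq]
    rw [e4, ← Finset.sum_sub_distrib]
    refine Finset.sum_congr rfl fun y _ => ?_
    split_ifs <;> ring
  have e5 : ∑ x ∈ X, ∑ y ∈ Y, (g + f x + f' y)
      = X.card * Y.card * g + Y.card * ∑ x ∈ X, f x + X.card * ∑ y ∈ Y, f' y := by
    simp only [Finset.sum_add_distrib, Finset.sum_const, nsmul_eq_mul, ← Finset.mul_sum]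
    ring
  have e6 : ∑ x ∈ X ∩ Y, (g + f x + f' x)
      = (X ∩ Y).card * g + ∑ x ∈ X ∩ Y, f x + ∑ x ∈ X ∩ Y, f' x := by
    simp only [Finset.sum_add_distrib, Finset.sum_const, nsmul_eq_mul]
  have e7 : ((X.card : ℝ) * Y.card - (X ∩ Y).card) * g
      + ∑ x ∈ X, ((Y.card : ℝ) - if x ∈ Y then 1 else 0) * f x
      + ∑ y ∈ Y, ((X.card : ℝ) - if y ∈ X then 1 else 0) * f' y
      = ∑ x ∈ X, ∑ y ∈ Y, (if x = y then 0 else g + f x + f' y) := by
    rw [e1, e2, e3, e5, e6]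
    ring
  have e8 : ∑ x ∈ X, ∑ y ∈ Y, (if x = y then 0 else g + f x + f' y)
      ≤ ∑ x ∈ X, ∑ y ∈ Y, (dd x + dd y + κ) := by
    refine Finset.sum_le_sum fun x hx => Finset.sum_le_sum fun y hy => ?_
    have h1 := hd x
    have h2 := hd y
    split_ifs with hxy
    · linarith
    · exact h x hx y hy hxy
  have e9 : ∑ x ∈ X, ∑ y ∈ Y, (dd x + dd y + κ) ≤ ∑ x, ∑ y, (dd x + dd y + κ) := by
    have h1 : ∀ x, ∑ y ∈ Y, (dd x + dd y + κ) ≤ ∑ y, (dd x + dd y + κ) := by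
      intro x
      refine Finset.sum_le_sum_of_subset_of_nonneg (Finset.subset_univ _) fun y _ _ => ?_
      have h1 := hd x
      have h2 := hd y
      linarith
    refine (Finset.sum_le_sum fun x _ => h1 x).trans ?_
    refine Finset.sum_le_sum_of_subset_of_nonneg (Finset.subset_univ _) fun x _ _ => ?_
    refine Finset.sum_nonneg fun y _ => ?_
    have h1 := hd x
    have h2 := hd y
    linarith
  have e10 : ∑ x : V, ∑ y : V, (dd x + dd y + κ)
      = 2 * Fintype.card V * ∑ x, dd x + (Fintype.card V : ℝ) ^ 2 * κ := by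
    simp only [Finset.sum_add_distrib, Finset.sum_const, nsmul_eq_mul, ← Finset.mul_sum,
      Finset.card_univ]
    ring
  rw [e7]
  linarith

theorem hubB {V : Type*} [Fintype V] (hn : 64 ≤ Fintype.card V) (B : Finset V)
    (hB : (B.card : ℝ) ≤ Fintype.card V / 64) (N : V → Finset V)
    (hN : ∀ a ∈ B, (Fintype.card V : ℝ) / 2 ≤ (N a).card)
    (A : V → V → Prop) (hA : ∀ a b, A a b → A b a) (g : V → V → ℝ) (hg : ∀ a b, g a b = g b a)
    (f : V → V → ℝ) (dd : V → ℝ) (κ : ℝ) (hd : ∀ x, 0 ≤ dd x) (hκ : 0 ≤ κ)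
    (P1 : ∀ a ∈ B, ∀ x ∈ N a, ∀ y ∈ N a, x ≠ y → f a x + f a y ≤ dd x + dd y + κ)
    (P2 : ∀ a ∈ B, ∀ b ∈ B, A a b → ∀ x ∈ N a, ∀ y ∈ N b, x ≠ y →
      g a b + f a x + f b y ≤ dd x + dd y + κ) :
    ∑ a ∈ B, ∑ b ∈ B, (if A a b then g a b else 0) + 2 * ∑ a ∈ B, ∑ x ∈ N a, f a x
      ≤ B.card * (32 * ∑ x, dd x + 16 * Fintype.card V * κ) := by
  obtain ⟨n, hnd⟩ : ∃ n : ℝ, n = Fintype.card V := ⟨_, rfl⟩
  obtain ⟨S, hS⟩ : ∃ S : ℝ, S = ∑ x, dd x := ⟨_, rfl⟩
  have hn' : (64 : ℝ) ≤ n := by rw [hnd]; exact_mod_cast hn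
  have hn0 : 0 < n := by linarith
  have hS0 : 0 ≤ S := by rw [hS]; exact Finset.sum_nonneg fun x _ => hd x
  rw [← hnd] at hB
  have hNle : ∀ a, ((N a).card : ℝ) ≤ n := by
    intro a
    rw [hnd]
    exact_mod_cast Finset.card_le_univ _
  -- the normalisation
  obtain ⟨Q, hQ⟩ : ∃ Q : V → V → ℝ, ∀ a b, Q a b = ((N a).card : ℝ) * (N b).card
      - ((N a) ∩ (N b)).card := ⟨_, fun _ _ => rfl⟩
  have hQs : ∀ a b, Q a b = Q b a := by
    intro a b
    rw [hQ, hQ, Finset.inter_comm]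
    ring
  have hQge : ∀ a ∈ B, ∀ b ∈ B, n ^ 2 / 8 ≤ Q a b := by
    intro a ha b hb
    rw [hQ]
    have h1 := hN a ha
    have h2 := hN b hb
    rw [← hnd] at h1 h2
    have h3 : (((N a) ∩ (N b)).card : ℝ) ≤ (N a).card := by
      exact_mod_cast Finset.card_le_card Finset.inter_subset_left
    nlinarith [mul_le_mul h1 h2 (by linarith : (0 : ℝ) ≤ n / 2) (by linarith : (0:ℝ) ≤ (N a).card),
      mul_nonneg (by linarith : (0:ℝ) ≤ (N a).card) (by linarith : (0:ℝ) ≤ (N b).card - n / 2)]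
  obtain ⟨q, hq⟩ : ∃ q : V → V → V → ℝ, ∀ a b x, q a b x =
      (((N b).card : ℝ) - if x ∈ N b then 1 else 0) / Q a b := ⟨_, fun _ _ _ => rfl⟩
  have hq0 : ∀ a ∈ B, ∀ b ∈ B, ∀ x, 0 ≤ q a b x ∧ q a b x ≤ 8 / n := by
    intro a ha b hb x
    have h1 := hQge a ha b hb
    have h2 : 0 < Q a b := lt_of_lt_of_le (by positivity) h1
    have h3 := hN b hb
    rw [← hnd] at h3
    have h4 := hNle b
    rw [hq]
    constructor
    · apply div_nonneg _ h2.le
      split_ifs <;> linarith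
    · rw [div_le_div_iff₀ h2 hn0]
      have h5 : (((N b).card : ℝ) - if x ∈ N b then 1 else 0) ≤ n := by
        split_ifs <;> linarith
      nlinarith
  obtain ⟨E, hE⟩ : ∃ E : ℝ, E = 16 * S / n + 8 * κ := ⟨_, rfl⟩
  have hE0 : 0 ≤ E := by rw [hE]; positivity
  -- the bound for one pair
  have hpair : ∀ a ∈ B, ∀ b ∈ B, A a b → g a b ≤
      - ∑ x ∈ N a, q a b x * f a x - ∑ y ∈ N b, q b a y * f b y + E := by
    intro a ha b hb hab
    have h0 := hubb_pair (N a) (N b) (g a b) (f a) (f b) dd κ hd hκ (P2 a ha b hb hab)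
    rw [← hQ, ← hnd, ← hS] at h0
    have h1 := hQge a ha b hb
    have h2 : 0 < Q a b := lt_of_lt_of_le (by positivity) h1
    have e1 : ∑ x ∈ N a, q a b x * f a x =
        (∑ x ∈ N a, (((N b).card : ℝ) - if x ∈ N b then 1 else 0) * f a x) / Q a b := by
      rw [Finset.sum_div]
      refine Finset.sum_congr rfl fun x _ => ?_
      rw [hq]
      ring
    have e2 : ∑ y ∈ N b, q b a y * f b y =
        (∑ y ∈ N b, (((N a).card : ℝ) - if y ∈ N a then 1 else 0) * f b y) / Q a b := by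
      rw [Finset.sum_div]
      refine Finset.sum_congr rfl fun x _ => ?_
      rw [hq, hQs b a]
      ring
    have e3 : (2 * n * S + n ^ 2 * κ) / Q a b ≤ E := by
      rw [hE, div_le_iff₀ h2]
      have h3 : (16 * S / n + 8 * κ) * (n ^ 2 / 8) ≤ (16 * S / n + 8 * κ) * Q a b := by
        apply mul_le_mul_of_nonneg_left h1
        positivity
      have h4 : (16 * S / n + 8 * κ) * (n ^ 2 / 8) = 2 * n * S + n ^ 2 * κ := by
        field_simp
        ring
      linarith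
    have e4 : g a b + ∑ x ∈ N a, q a b x * f a x + ∑ y ∈ N b, q b a y * f b y
        ≤ (2 * n * S + n ^ 2 * κ) / Q a b := by
      rw [e1, e2, le_div_iff₀ h2]
      have h5 : (g a b + (∑ x ∈ N a, (((N b).card : ℝ) - if x ∈ N b then 1 else 0) * f a x) / Q a b
          + (∑ y ∈ N b, (((N a).card : ℝ) - if y ∈ N a then 1 else 0) * f b y) / Q a b) * Q a b
          = Q a b * g a b + ∑ x ∈ N a, (((N b).card : ℝ) - if x ∈ N b then 1 else 0) * f a x
          + ∑ y ∈ N b, (((N a).card : ℝ) - if y ∈ N a then 1 else 0) * f b y := by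
        field_simp
      rw [h5]
      exact h0
    linarith
  -- summation over pairs
  obtain ⟨s, hs⟩ : ∃ s : V → V → ℝ, ∀ a x, s a x = ∑ b ∈ B, (if A a b then q a b x else 0) :=
    ⟨_, fun _ _ => rfl⟩
  have hsb : ∀ a ∈ B, ∀ x, 0 ≤ s a x ∧ s a x ≤ 1 / 8 := by
    intro a ha x
    rw [hs]
    constructor
    · refine Finset.sum_nonneg fun b hb => ?_
      split_ifs
      · exact (hq0 a ha b hb x).1
      · exact le_rfl
    · have h1 : ∑ b ∈ B, (if A a b then q a b x else 0) ≤ ∑ _b ∈ B, 8 / n := by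
        refine Finset.sum_le_sum fun b hb => ?_
        split_ifs
        · exact (hq0 a ha b hb x).2
        · positivity
      rw [Finset.sum_const, nsmul_eq_mul] at h1
      have h2 : (B.card : ℝ) * (8 / n) ≤ n / 64 * (8 / n) :=
        mul_le_mul_of_nonneg_right hB (by positivity)
      have h3 : n / 64 * (8 / n) = 1 / 8 := by
        field_simp
        norm_num
      linarith
  have hsum : ∑ a ∈ B, ∑ b ∈ B, (if A a b then g a b else 0)
      ≤ -2 * ∑ a ∈ B, ∑ x ∈ N a, s a x * f a x + (B.card : ℝ) ^ 2 * E := by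
    have h1 : ∑ a ∈ B, ∑ b ∈ B, (if A a b then g a b else 0)
        ≤ ∑ a ∈ B, ∑ b ∈ B, (-(if A a b then ∑ x ∈ N a, q a b x * f a x else 0)
          - (if A b a then ∑ x ∈ N b, q b a x * f b x else 0) + E) := by
      refine Finset.sum_le_sum fun a ha => Finset.sum_le_sum fun b hb => ?_
      by_cases hab : A a b
      · rw [if_pos hab, if_pos hab, if_pos (hA a b hab)]
        exact hpair a ha b hb hab
      · have hba : ¬ A b a := fun h => hab (hA b a h)
        rw [if_neg hab, if_neg hab, if_neg hba]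
        linarith
    have h2 : ∑ a ∈ B, ∑ b ∈ B, (-(if A a b then ∑ x ∈ N a, q a b x * f a x else 0)
          - (if A b a then ∑ x ∈ N b, q b a x * f b x else 0) + E)
        = -(∑ a ∈ B, ∑ b ∈ B, (if A a b then ∑ x ∈ N a, q a b x * f a x else 0))
          - (∑ a ∈ B, ∑ b ∈ B, (if A b a then ∑ x ∈ N b, q b a x * f b x else 0))
          + (B.card : ℝ) ^ 2 * E := by
      simp only [Finset.sum_add_distrib, Finset.sum_sub_distrib, Finset.sum_neg_distrib,
        Finset.sum_const, nsmul_eq_mul]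
      ring
    have h3 : ∑ a ∈ B, ∑ b ∈ B, (if A b a then ∑ x ∈ N b, q b a x * f b x else 0)
        = ∑ a ∈ B, ∑ b ∈ B, (if A a b then ∑ x ∈ N a, q a b x * f a x else 0) := by
      rw [Finset.sum_comm]
    have h4 : ∑ a ∈ B, ∑ b ∈ B, (if A a b then ∑ x ∈ N a, q a b x * f a x else 0)
        = ∑ a ∈ B, ∑ x ∈ N a, s a x * f a x := by
      refine Finset.sum_congr rfl fun a _ => ?_
      have h5 : ∀ b ∈ B, (if A a b then ∑ x ∈ N a, q a b x * f a x else 0)
          = ∑ x ∈ N a, (if A a b then q a b x else 0) * f a x := by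
        intro b _
        split_ifs
        · rfl
        · simp
      rw [Finset.sum_congr rfl h5, Finset.sum_comm]
      refine Finset.sum_congr rfl fun x _ => ?_
      rw [hs, Finset.sum_mul]
    rw [h2, h3, h4] at h1
    linarith
  -- the edges from the hubs
  have hhub : ∀ a ∈ B, ∑ x ∈ N a, (1 - s a x) * f a x ≤ 8 * S + 4 * n * κ := by
    intro a ha
    have h1 := hN a ha
    rw [← hnd] at h1
    have hc : 16 ≤ (N a).card := by
      have : (16 : ℝ) ≤ (N a).card := by linarith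
      exact_mod_cast this
    have h2 := hubA (N a) hc (f a) (fun x y => dd x + dd y + κ) (fun x => 1 - s a x)
      (fun x _ => ⟨by have := (hsb a ha x).2; linarith, by have := (hsb a ha x).1; linarith⟩)
      (fun x y => by have h1 := hd x; have h2 := hd y; linarith) (P1 a ha)
    have h3 : ∑ x ∈ N a, ∑ y ∈ N a, (dd x + dd y + κ) ≤ 2 * n * S + n ^ 2 * κ := by
      have h4 : ∑ x ∈ N a, ∑ y ∈ N a, (dd x + dd y + κ)
          = 2 * (N a).card * ∑ x ∈ N a, dd x + ((N a).card : ℝ) ^ 2 * κ := by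
        simp only [Finset.sum_add_distrib, Finset.sum_const, nsmul_eq_mul, ← Finset.mul_sum]
        ring
      have h5 : ∑ x ∈ N a, dd x ≤ S := by
        rw [hS]
        exact Finset.sum_le_sum_of_subset_of_nonneg (Finset.subset_univ _) fun x _ _ => hd x
      have h6 : 0 ≤ ∑ x ∈ N a, dd x := Finset.sum_nonneg fun x _ => hd x
      have h7 := hNle a
      have h8 : (0 : ℝ) ≤ (N a).card := Nat.cast_nonneg _
      rw [h4]
      have h9 : 2 * ((N a).card : ℝ) * ∑ x ∈ N a, dd x ≤ 2 * n * S := by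
        apply mul_le_mul _ h5 h6 (by linarith)
        linarith
      have h10 : ((N a).card : ℝ) ^ 2 * κ ≤ n ^ 2 * κ := by
        apply mul_le_mul_of_nonneg_right _ hκ
        exact pow_le_pow_left₀ h8 h7 2
      linarith
    have h4 : 0 ≤ 2 * n * S + n ^ 2 * κ := by positivity
    have h5 : 0 < ((N a).card : ℝ) - 2 := by linarith
    have h6 : 1 / (((N a).card : ℝ) - 2) ≤ 4 / n := by
      rw [div_le_div_iff₀ h5 hn0]
      linarith
    have h7 : 0 ≤ ∑ x ∈ N a, ∑ y ∈ N a, (dd x + dd y + κ) := by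
      refine Finset.sum_nonneg fun x _ => Finset.sum_nonneg fun y _ => ?_
      have h1 := hd x
      have h2 := hd y
      linarith
    calc ∑ x ∈ N a, (1 - s a x) * f a x
        ≤ 1 / (((N a).card : ℝ) - 2) * ∑ x ∈ N a, ∑ y ∈ N a, (dd x + dd y + κ) := h2
      _ ≤ 4 / n * (2 * n * S + n ^ 2 * κ) :=
          mul_le_mul h6 h3 h7 (by positivity)
      _ = 8 * S + 4 * n * κ := by
          field_simp
          ring
  have hhub2 : ∑ a ∈ B, ∑ x ∈ N a, (1 - s a x) * f a x ≤ (B.card : ℝ) * (8 * S + 4 * n * κ) := by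
    refine (Finset.sum_le_sum hhub).trans ?_
    rw [Finset.sum_const, nsmul_eq_mul]
  have hsplit : ∑ a ∈ B, ∑ x ∈ N a, (1 - s a x) * f a x
      = ∑ a ∈ B, ∑ x ∈ N a, f a x - ∑ a ∈ B, ∑ x ∈ N a, s a x * f a x := by
    rw [← Finset.sum_sub_distrib]
    refine Finset.sum_congr rfl fun a _ => ?_
    rw [← Finset.sum_sub_distrib]
    refine Finset.sum_congr rfl fun x _ => ?_
    ring
  rw [hsplit] at hhub2
  have hb0 : (0 : ℝ) ≤ B.card := Nat.cast_nonneg _
  have hbb : (B.card : ℝ) ^ 2 * E ≤ B.card * (S / 4 + n * κ / 8) := by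
    have h1 : (B.card : ℝ) ^ 2 * E = B.card * (B.card * E) := by ring
    rw [h1]
    apply mul_le_mul_of_nonneg_left _ hb0
    have h2 : (B.card : ℝ) * E ≤ n / 64 * E := mul_le_mul_of_nonneg_right hB hE0
    have h3 : n / 64 * E = S / 4 + n * κ / 8 := by
      rw [hE]
      field_simp
      ring
    linarith
  rw [← hnd, ← hS]
  have hfin : (B.card : ℝ) * (S / 4 + n * κ / 8) + 2 * (B.card * (8 * S + 4 * n * κ))
      ≤ B.card * (32 * S + 16 * n * κ) := by
    have h1 : (B.card : ℝ) * (S / 4 + n * κ / 8) + 2 * (B.card * (8 * S + 4 * n * κ))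
        = B.card * (65 / 4 * S + 65 / 8 * n * κ) := by ring
    rw [h1]
    apply mul_le_mul_of_nonneg_left _ hb0
    have : 0 ≤ n * κ := by positivity
    nlinarith
  linarith

end Pool.OCY
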