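import Pool.Agent.OCY.PathAv
import Pool.Agent.OCY.HubB

/-!
MODULE Hubs (difficulty 3).  The edges at the hubs.

RECIPE: apply `path_av` with `m = 2k - 2` and with `m = 2k - 3` (both `≥ 1`), let `C` be the larger constant
(the right side is monotone in `C`), `n₀` the larger of the numbers and `64`; `β₀ = 1/64`.
`B = Sᶜ`, `N a = S.filter (G.Adj a)`, `A = G.Adj`, `g = r`, `f = r`, `dd x = C / n * rho H r x`,
`κ = C / n² * tot H r`.
(P1): for `a ∉ S`, `x ≠ y` in `N a` and a list `L` of length `2k - 2`, `x :: (L ++ [y])` without repetition and a chain in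
`H` (so all its vertices are in `S`, hence `≠ a`; `L ≠ []`), the closed list `a :: ((x :: (L ++ [y])) ++ [a])` is a cycle
of length `2k + 1` in `G` (`H ≤ G`), its weight is `r a x + psum (x :: (L ++ [y])) + r y a ≤ 0`; use
`path_av` with `K = r a x + r a y`.
(P2): for `a, b ∉ S` adjacent, `x ∈ N a`, `y ∈ N b`, `x ≠ y`, `L` of length `2k - 3`: the cycle
`a, x, L, y, b` : `r a x + psum (x :: (L ++ [y])) + r y b + r b a ≤ 0`; `path_av` with
`K = r a b + r a x + r b y`.
Then `hubB`; `∑ a ∉ S ∑ b ∉ S ext G r a b = ∑ ∑ if Adj then r`, and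
`∑_{x ∈ S} ext G r a x = ∑_{x ∈ N a} r a x`.  `∑ dd x = C / n * tot H r`; total constant `48 C`.
-/

open Finset
open scoped Classical

namespace Pool.OCY

theorem hubs_psum {V : Type*} (r : V → V → ℝ) (L : List V) (x y b : V) :
    psum r ((x :: (L ++ [y])) ++ [b]) = psum r (x :: (L ++ [y])) + r y b := by
  induction L generalizing x with
  | nil => simp [psum]
  | cons z L ih =>
    have h1 : psum r ((x :: (z :: L ++ [y])) ++ [b]) = r x z + psum r ((z :: (L ++ [y])) ++ [b]) :=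
      rfl
    have h2 : psum r (x :: (z :: L ++ [y])) = r x z + psum r (z :: (L ++ [y])) := rfl
    rw [h1, h2, ih]
    ring

theorem hubs_mem {V : Type*} {H : SimpleGraph V} {S : Finset V}
    (hS : ∀ a b, H.Adj a b → a ∈ S ∧ b ∈ S) (L : List V) (x y : V) (hx : x ∈ S) (hy : y ∈ S)
    (h : List.IsChain H.Adj (x :: (L ++ [y]))) : ∀ v ∈ x :: (L ++ [y]), v ∈ S := by
  induction L generalizing x with
  | nil =>
    intro v hv
    simp only [List.nil_append, List.mem_cons, List.not_mem_nil, or_false] at hv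
    rcases hv with rfl | rfl
    · exact hx
    · exact hy
  | cons z L ih =>
    intro v hv
    rw [List.cons_append, List.isChain_cons_cons] at h
    rcases List.mem_cons.1 hv with rfl | hv
    · exact hx
    · exact ih z (hS _ _ h.1).2 h.2 v hv

theorem hubs_chain {V : Type*} {G : SimpleGraph V} (L : List V) (x y b : V)
    (h : List.IsChain G.Adj (x :: (L ++ [y]))) (hb : G.Adj y b) :
    List.IsChain G.Adj ((x :: (L ++ [y])) ++ [b]) := by
  induction L generalizing x with
  | nil =>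
    simp only [List.nil_append, List.isChain_cons_cons, List.cons_append] at h ⊢
    exact ⟨h.1, hb, List.isChain_singleton _⟩
  | cons z L ih =>
    rw [List.cons_append, List.isChain_cons_cons] at h
    have h1 := ih z h.2
    change List.IsChain G.Adj (x :: (z :: ((L ++ [y]) ++ [b])))
    rw [List.isChain_cons_cons]
    exact ⟨h.1, h1⟩

theorem hubs_rho {V : Type*} [Fintype V] (H : SimpleGraph V) (r : V → V → ℝ) (a : V) :
    0 ≤ rho H r a := Finset.sum_nonneg fun _ _ => abs_nonneg _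

theorem hubs_tot {V : Type*} [Fintype V] (H : SimpleGraph V) (r : V → V → ℝ) :
    0 ≤ tot H r := Finset.sum_nonneg fun _ _ => hubs_rho H r _

/-- the first kind of cycles -/
theorem hubs_c1 {V : Type*} {G H : SimpleGraph V} {S : Finset V} (hHG : H ≤ G)
    (hS : ∀ a b, H.Adj a b → a ∈ S ∧ b ∈ S) {l m : ℕ} (hl : l = m + 3) {r : V → V → ℝ}
    (hr : ∀ a b, r a b = r b a) (hc : CycNonpos G l r) {a x y : V} (ha : a ∉ S) (hx : x ∈ S)
    (hy : y ∈ S) (hax : G.Adj a x) (hay : G.Adj a y) (L : List V) (hL : L.length = m)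
    (hnd : (x :: (L ++ [y])).Nodup) (hch : List.IsChain H.Adj (x :: (L ++ [y]))) :
    r a x + r a y + psum r (x :: (L ++ [y])) ≤ 0 := by
  have hmem := hubs_mem hS L x y hx hy hch
  have h := hc a (x :: (L ++ [y])) (by simp [hL, hl]) ?_ ?_
  · have h1 : psum r (a :: ((x :: (L ++ [y])) ++ [a])) =
        r a x + psum r ((x :: (L ++ [y])) ++ [a]) := rfl
    rw [h1, hubs_psum] at h
    rw [hr y a] at h
    linarith
  · rw [List.nodup_cons]
    exact ⟨fun h => ha (hmem a h), hnd⟩
  · have h2 := hubs_chain L x y a (hch.imp fun _ _ h => hHG h) hay.symm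
    change List.IsChain G.Adj (a :: (x :: ((L ++ [y]) ++ [a])))
    rw [List.isChain_cons_cons]
    exact ⟨hax, h2⟩

/-- the second kind of cycles -/
theorem hubs_c2 {V : Type*} {G H : SimpleGraph V} {S : Finset V} (hHG : H ≤ G)
    (hS : ∀ a b, H.Adj a b → a ∈ S ∧ b ∈ S) {l m : ℕ} (hl : l = m + 4) {r : V → V → ℝ}
    (hr : ∀ a b, r a b = r b a) (hc : CycNonpos G l r) {a b x y : V} (ha : a ∉ S) (hb : b ∉ S)
    (hab : G.Adj a b) (hx : x ∈ S)
    (hy : y ∈ S) (hax : G.Adj a x) (hby : G.Adj b y) (L : List V) (hL : L.length = m)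
    (hnd : (x :: (L ++ [y])).Nodup) (hch : List.IsChain H.Adj (x :: (L ++ [y]))) :
    r a b + r a x + r b y + psum r (x :: (L ++ [y])) ≤ 0 := by
  have hmem := hubs_mem hS L x y hx hy hch
  have hbc := hubs_chain L x y b (hch.imp fun _ _ h => hHG h) hby.symm
  have h := hc a (x :: ((L ++ [y]) ++ [b])) (by simp [hL, hl]) ?_ ?_
  · have h1 : psum r (a :: ((x :: ((L ++ [y]) ++ [b])) ++ [a])) =
        r a x + psum r ((x :: ((L ++ [y]) ++ [b])) ++ [a]) := rfl
    have h2 : psum r ((x :: ((L ++ [y]) ++ [b])) ++ [a]) =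
        psum r ((x :: (L ++ [y])) ++ [b]) + r b a := hubs_psum r (L ++ [y]) x b a
    rw [h1, h2, hubs_psum] at h
    rw [hr y b, hr b a] at h
    linarith
  · have h3 : ((x :: (L ++ [y])) ++ [b]).Nodup := by
      rw [List.nodup_append]
      refine ⟨hnd, List.nodup_singleton _, ?_⟩
      intro u hu v hv
      rw [List.mem_singleton] at hv
      subst hv
      rintro rfl
      exact hb (hmem _ hu)
    rw [List.nodup_cons]
    refine ⟨fun h => ?_, h3⟩
    have h' : a ∈ (x :: (L ++ [y])) ++ [b] := h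
    rcases List.mem_append.1 h' with h' | h'
    · exact ha (hmem a h')
    · rw [List.mem_singleton] at h'
      exact hab.ne h'
  · have h2 := hubs_chain (L ++ [y]) x b a hbc hab.symm
    change List.IsChain G.Adj (a :: (x :: (((L ++ [y]) ++ [b]) ++ [a])))
    rw [List.isChain_cons_cons]
    exact ⟨hax, h2⟩

theorem hubs {k : ℕ} (hk : 2 ≤ k) {η : ℝ} (hη : 0 < η) (hη1 : η ≤ 1 / 2) :
    ∃ C β₀ : ℝ, 0 < C ∧ 0 < β₀ ∧ ∃ n₀ : ℕ, ∀ (V : Type) [Fintype V], n₀ ≤ Fintype.card V →
      ∀ (G H : SimpleGraph V) (S : Finset V), H ≤ G → (∀ a b, H.Adj a b → a ∈ S ∧ b ∈ S) →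
      (∀ v ∈ S, (1 / 2 + η) * Fintype.card V ≤ H.degree v) →
      (∀ a ∉ S, (1 / 2 + η) * Fintype.card V ≤ ((S.filter fun x => G.Adj a x).card : ℝ)) →
      ((Sᶜ.card : ℝ) ≤ β₀ * Fintype.card V) →
      ∀ r : V → V → ℝ, (∀ a b, r a b = r b a) → CycNonpos G (2 * k + 1) r →
      ∑ a ∈ Sᶜ, ∑ b ∈ Sᶜ, ext G r a b + 2 * ∑ a ∈ Sᶜ, ∑ x ∈ S, ext G r a x
        ≤ C * ((Sᶜ.card : ℝ) / Fintype.card V) * tot H r := by
  obtain ⟨C1, hC1, n1, h1⟩ := path_av hη hη1 (2 * k - 2) (by omega)
  obtain ⟨C2, hC2, n2, h2⟩ := path_av hη hη1 (2 * k - 3) (by omega)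
  set C := max C1 C2 with hCdef
  have hC : 0 < C := lt_of_lt_of_le hC1 (le_max_left _ _)
  refine ⟨48 * C, 1 / 64, by positivity, by norm_num, max (max n1 n2) 64, ?_⟩
  intro V _ hn G H S hHG hS hdeg hdegN hcard r hr hcyc
  have hn1 : n1 ≤ Fintype.card V := le_trans (le_trans (le_max_left _ _) (le_max_left _ _)) hn
  have hn2 : n2 ≤ Fintype.card V := le_trans (le_trans (le_max_right _ _) (le_max_left _ _)) hn
  have hn64 : 64 ≤ Fintype.card V := le_trans (le_max_right _ _) hn
  have hnpos : (0 : ℝ) < Fintype.card V := by exact_mod_cast (by omega : 0 < Fintype.card V)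
  have hmono : ∀ C' : ℝ, C' ≤ C → ∀ x y : V,
      C' / (Fintype.card V : ℝ) * (rho H r x + rho H r y)
        + C' / (Fintype.card V : ℝ) ^ 2 * tot H r ≤
      C / (Fintype.card V : ℝ) * rho H r x + C / (Fintype.card V : ℝ) * rho H r y
        + C / (Fintype.card V : ℝ) ^ 2 * tot H r := by
    intro C' hC' x y
    have e1 := hubs_rho H r x
    have e2 := hubs_rho H r y
    have e3 := hubs_tot H r
    have f1 : C' / (Fintype.card V : ℝ) ≤ C / (Fintype.card V : ℝ) :=
      div_le_div_of_nonneg_right hC' hnpos.le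
    have f2 : C' / (Fintype.card V : ℝ) ^ 2 ≤ C / (Fintype.card V : ℝ) ^ 2 :=
      div_le_div_of_nonneg_right hC' (by positivity)
    have g1 := mul_le_mul_of_nonneg_right f1 (add_nonneg e1 e2)
    have g2 := mul_le_mul_of_nonneg_right f2 e3
    linarith
  have key := hubB (V := V) hn64 Sᶜ (by linarith) (fun a => S.filter fun x => G.Adj a x)
    (fun a ha => by
      have h := hdegN a (Finset.mem_compl.1 ha)
      have : (Fintype.card V : ℝ) / 2 ≤ (1 / 2 + η) * Fintype.card V := by nlinarith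
      exact this.trans h)
    G.Adj (fun a b h => h.symm) r hr r (fun x => C / (Fintype.card V : ℝ) * rho H r x)
    (C / (Fintype.card V : ℝ) ^ 2 * tot H r)
    (fun x => mul_nonneg (div_nonneg hC.le hnpos.le) (hubs_rho H r x))
    (mul_nonneg (div_nonneg hC.le (by positivity)) (hubs_tot H r)) ?_ ?_
  · have e1 : ∑ a ∈ Sᶜ, ∑ b ∈ Sᶜ, ext G r a b =
        ∑ a ∈ Sᶜ, ∑ b ∈ Sᶜ, (if G.Adj a b then r a b else 0) := rfl
    have e2 : ∑ a ∈ Sᶜ, ∑ x ∈ S, ext G r a x =
        ∑ a ∈ Sᶜ, ∑ x ∈ S.filter (fun x => G.Adj a x), r a x := by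
      refine Finset.sum_congr rfl fun a _ => ?_
      rw [Finset.sum_filter]
      rfl
    rw [e1, e2]
    refine key.trans (le_of_eq ?_)
    rw [← Finset.mul_sum]
    have e3 : ∑ x, rho H r x = tot H r := rfl
    rw [e3]
    field_simp
    ring
  · intro a ha x hx y hy hxy
    rw [Finset.mem_filter] at hx hy
    refine (h1 V hn1 H S hS hdeg r hr x hx.1 y hy.1 hxy (r a x + r a y) ?_).trans
      (hmono C1 (le_max_left _ _) x y)
    intro L hL hnd hch
    exact hubs_c1 hHG hS (by omega) hr hcyc (Finset.mem_compl.1 ha) hx.1 hy.1 hx.2 hy.2 L hL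
      hnd hch
  · intro a ha b hb hab x hx y hy hxy
    rw [Finset.mem_filter] at hx hy
    refine (h2 V hn2 H S hS hdeg r hr x hx.1 y hy.1 hxy (r a b + r a x + r b y) ?_).trans
      (hmono C2 (le_max_right _ _) x y)
    intro L hL hnd hch
    exact hubs_c2 hHG hS (by omega) hr hcyc (Finset.mem_compl.1 ha) (Finset.mem_compl.1 hb) hab
      hx.1 hy.1 hx.2 hy.2 L hL hnd hch

end Pool.OCY
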