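import Pool.Agent.OCY.Few
import Pool.Agent.OCY.Hubs
import Pool.Agent.OCY.BadE
import Pool.Agent.OCY.Clean

/-!
MODULE Main (difficulty 3).  Dual form of the theorem: weights which are nonpositive on all `(2k+1)`-cycles have a
nonpositive sum.

RECIPE: we may assume `ε ≤ 1/12`.  `T = 2k ≥ 4`, `1/(2T) = 1/(4k)`.  Take `c` from `clean`, `η = 1/(4k) ≤ 1/8`
(`(1/2 + η) ≤ 1/2 + 1/(2T) + ε/2`), `C₁` from `badE`, `C₂, β₀` from `hubs`, `γ = min β₀ (c / (C₁ + C₂ + 1))`,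
`τ` from `clean`, `n₀` = maximum of the `n₀` of `few` (for `τ`), `badE`, `hubs` and `1`.  With `S, H` from `clean`:
`∑_{V×V} ext G = ∑_{V×V} ext H + ∑_{a,b ∈ S} (if H.Adj then 0 else ext G) + ∑_{a,b ∉ S} ext G + 2 ∑_{a ∉ S, x ∈ S} ext G`
(`ext H a b = 0` unless `a, b ∈ S`, and `ext H a b = ext G a b` when `H.Adj a b`; symmetry)
`≤ (-c + C₁ γ + C₂ γ) tot H ≤ 0`.
-/

open Finset
open scoped Classical

namespace Pool.OCY

theorem main_split {V : Type*} [Fintype V] (f : V → V → ℝ) (hf : ∀ a b, f a b = f b a)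
    (S : Finset V) :
    ∑ a, ∑ b, f a b = ∑ a ∈ S, ∑ b ∈ S, f a b +
      (∑ a ∈ Sᶜ, ∑ b ∈ Sᶜ, f a b + 2 * ∑ a ∈ Sᶜ, ∑ x ∈ S, f a x) := by
  have h1 : ∀ a, ∑ b, f a b = ∑ b ∈ S, f a b + ∑ b ∈ Sᶜ, f a b := fun a =>
    (Finset.sum_add_sum_compl S _).symm
  rw [← Finset.sum_add_sum_compl S]
  simp only [h1, Finset.sum_add_distrib]
  have h2 : ∑ a ∈ S, ∑ b ∈ Sᶜ, f a b = ∑ a ∈ Sᶜ, ∑ x ∈ S, f a x := by
    rw [Finset.sum_comm]
    exact Finset.sum_congr rfl fun a _ => Finset.sum_congr rfl fun b _ => hf b a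
  rw [h2]
  ring

theorem main_ext_symm {V : Type*} (G : SimpleGraph V) {r : V → V → ℝ}
    (hs : ∀ a b, r a b = r b a) (a b : V) : ext G r a b = ext G r b a := by
  unfold ext
  by_cases h : G.Adj a b
  · rw [if_pos h, if_pos h.symm, hs]
  · rw [if_neg h, if_neg (fun h' => h h'.symm)]

theorem main_ext_zero {V : Type*} {H : SimpleGraph V} {S : Finset V} (r : V → V → ℝ)
    (hH : ∀ a b, H.Adj a b → a ∈ S ∧ b ∈ S) : ∀ a b, a ∉ S ∨ b ∉ S → ext H r a b = 0 := by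
  intro a b h
  unfold ext
  rw [if_neg]
  intro h'
  have := hH a b h'
  rcases h with h | h
  · exact h this.1
  · exact h this.2

theorem main_inside {V : Type*} [Fintype V] {G H : SimpleGraph V} {S : Finset V}
    (r : V → V → ℝ) (hHG : H ≤ G) (hH : ∀ a b, H.Adj a b → a ∈ S ∧ b ∈ S) :
    ∑ a ∈ S, ∑ b ∈ S, ext G r a b = ∑ a, ∑ b, ext H r a b +
      ∑ a ∈ S, ∑ b ∈ S, (if H.Adj a b then 0 else ext G r a b) := by
  have h1 : ∑ a, ∑ b, ext H r a b = ∑ a ∈ S, ∑ b ∈ S, ext H r a b := by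
    symm
    have h2 : ∀ a, ∑ b ∈ S, ext H r a b = ∑ b, ext H r a b := fun a =>
      Finset.sum_subset (Finset.subset_univ S)
        (fun b _ hb => main_ext_zero r hH a b (Or.inr hb))
    rw [Finset.sum_congr rfl fun a _ => h2 a]
    refine Finset.sum_subset (Finset.subset_univ S) fun a _ ha => ?_
    exact Finset.sum_eq_zero fun b _ => main_ext_zero r hH a b (Or.inl ha)
  rw [h1, ← Finset.sum_add_distrib]
  refine Finset.sum_congr rfl fun a _ => ?_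
  rw [← Finset.sum_add_distrib]
  refine Finset.sum_congr rfl fun b _ => ?_
  by_cases h : H.Adj a b
  · rw [if_pos h, add_zero]
    unfold ext
    rw [if_pos h, if_pos (hHG h)]
  · rw [if_neg h]
    have : ext H r a b = 0 := by unfold ext; rw [if_neg h]
    rw [this, zero_add]

theorem main {k : ℕ} (hk : 2 ≤ k) {ε : ℝ} (hε : 0 < ε) : ∃ n₀ : ℕ, ∀ (V : Type) [Fintype V],
    n₀ ≤ Fintype.card V → ∀ G : SimpleGraph V,
      (∀ v, (1 / 2 + 1 / (4 * k) + ε) * Fintype.card V ≤ G.degree v) →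
      ∀ r : V → V → ℝ, (∀ a b, r a b = r b a) → CycNonpos G (2 * k + 1) r →
      ∑ a, ∑ b, ext G r a b ≤ 0 := by
  have hkr : (2 : ℝ) ≤ k := by exact_mod_cast hk
  have hε' : 0 < min ε (1 / 12) := lt_min hε (by norm_num)
  obtain ⟨c, hc, hclean⟩ := clean (T := 2 * (k : ℝ)) (ε := min ε (1 / 12)) (by linarith) hε'
    (min_le_right _ _)
  have hη : (0 : ℝ) < 1 / (4 * k) := by positivity
  have hη1 : (1 : ℝ) / (4 * k) ≤ 1 / 2 := by
    rw [div_le_div_iff₀ (by positivity) (by norm_num)]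
    linarith
  have hηT : (1 : ℝ) / (2 * (2 * (k : ℝ))) = 1 / (4 * k) := by
    congr 1; ring
  obtain ⟨C₁, hC₁, n₁, h₁⟩ := badE hk hη hη1
  obtain ⟨C₂, β₀, hC₂, hβ₀, n₂, h₂⟩ := hubs hk hη hη1
  have hγ : 0 < min β₀ (c / (C₁ + C₂ + 1)) := lt_min hβ₀ (by positivity)
  set γ := min β₀ (c / (C₁ + C₂ + 1)) with hγdef
  have hγ1 : γ ≤ β₀ := min_le_left _ _
  have hγ2 : (C₁ + C₂) * γ ≤ c := by
    have h : γ ≤ c / (C₁ + C₂ + 1) := min_le_right _ _
    rw [le_div_iff₀ (by positivity)] at h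
    nlinarith
  obtain ⟨τ, hτ, hcl⟩ := hclean γ hγ
  obtain ⟨n₃, h₃⟩ := few hk hτ
  refine ⟨max (max n₁ n₂) (max n₃ 1), fun V _ hn G hdeg r hs hr => ?_⟩
  have hn1 : n₁ ≤ Fintype.card V := le_trans (le_trans (le_max_left _ _) (le_max_left _ _)) hn
  have hn2 : n₂ ≤ Fintype.card V := le_trans (le_trans (le_max_right _ _) (le_max_left _ _)) hn
  have hn3 : n₃ ≤ Fintype.card V := le_trans (le_trans (le_max_left _ _) (le_max_right _ _)) hn
  have hn4 : 1 ≤ Fintype.card V := le_trans (le_trans (le_max_right _ _) (le_max_right _ _)) hn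
  have hN : (0 : ℝ) < Fintype.card V := by exact_mod_cast hn4
  obtain ⟨hP4, hP3⟩ := h₃ V hn3 G r hs hr
  have hdeg' : ∀ v, (1 / 2 + 1 / (2 * (2 * (k : ℝ))) + min ε (1 / 12)) * Fintype.card V ≤
      G.degree v := by
    intro v
    refine le_trans ?_ (hdeg v)
    rw [hηT]
    exact mul_le_mul_of_nonneg_right (by linarith [min_le_left ε (1 / 12)]) hN.le
  obtain ⟨S, H, hHG, hHS, hSc, hHdeg, hBad, hHub, hneg⟩ := hcl V G hdeg' r hs hP4 hP3
  have htot : 0 ≤ tot H r := Finset.sum_nonneg fun a _ => Finset.sum_nonneg fun b _ => abs_nonneg _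
  have hw : (1 / 2 + 1 / (4 * (k : ℝ))) ≤ 1 / 2 + 1 / (2 * (2 * (k : ℝ))) + min ε (1 / 12) / 2 := by
    rw [hηT]
    linarith
  have hHdeg' : ∀ v ∈ S, (1 / 2 + 1 / (4 * (k : ℝ))) * Fintype.card V ≤ H.degree v :=
    fun v hv => le_trans (mul_le_mul_of_nonneg_right hw hN.le) (hHdeg v hv)
  have hHub' : ∀ a ∉ S, (1 / 2 + 1 / (4 * (k : ℝ))) * Fintype.card V ≤
      ((S.filter fun x => G.Adj a x).card : ℝ) :=
    fun v hv => le_trans (mul_le_mul_of_nonneg_right hw hN.le) (hHub v hv)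
  have hb := h₁ V hn1 G H S hHG hHS hHdeg' γ hγ.le hBad r hs hr
  have hh := h₂ V hn2 G H S hHG hHS hHdeg' hHub'
    (le_trans hSc (mul_le_mul_of_nonneg_right hγ1 hN.le)) r hs hr
  have hh' : C₂ * ((Sᶜ.card : ℝ) / Fintype.card V) * tot H r ≤ C₂ * γ * tot H r := by
    refine mul_le_mul_of_nonneg_right (mul_le_mul_of_nonneg_left ?_ hC₂.le) htot
    rw [div_le_iff₀ hN]
    exact hSc
  rw [main_split _ (main_ext_symm G hs) S, main_inside r hHG hHS]
  nlinarith [mul_le_mul_of_nonneg_right hγ2 htot]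

end Pool.OCY
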