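import Pool.Agent.OCY.Avg

/-!
MODULE StarB (difficulty 3).  The average of the excess over all tuples `U`.

RECIPE: exchange the sums: `∑ U ∑ i j k l = ∑ i j k l ∑ U`.  For fixed `i j k l`:
* if `i = j` or `i = k` or `j = k` or `i = l`, then `exc4 (U i) (U j) (U k) (U l) = 0` (no loops);
* if `i, j, k` are distinct and `l = j`: `exc4 a b c b = exc3 a b c`, use `avg3`;
* if `i, j, k` are distinct and `l = k`: `exc4 a b c c = exc3 a c b`
  (`r b c = r c b`, `(T-2) + 1 = T - 1`), use `avg3`;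
* if all are distinct: `avg4`.
Every term is nonnegative, there are at most `M ^ 4` quadruples of the last kind and at most `M ^ 3` of each
of the two others.  `n = Fintype.card V > 0`: divide by `n ^ 4`, `n ^ 3`.
-/

open Finset
open scoped Classical

namespace Pool.OCY

theorem starB_exc3_nonneg {T : ℝ} {V : Type*} (G : SimpleGraph V) (r : V → V → ℝ) (a b c : V) :
    0 ≤ exc3 G T r a b c := by
  unfold exc3
  split_ifs
  · exact le_max_left _ _
  · exact le_rfl

theorem starB_exc4_nonneg {T : ℝ} {V : Type*} (G : SimpleGraph V) (r : V → V → ℝ) (a b c d : V) :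
    0 ≤ exc4 G T r a b c d := by
  unfold exc4
  split_ifs
  · exact le_max_left _ _
  · exact le_rfl

theorem starB_j {T : ℝ} {V : Type*} (G : SimpleGraph V) (r : V → V → ℝ) (a b c : V) :
    exc4 G T r a b c b = exc3 G T r a b c := by
  unfold exc4 exc3
  have h1 : (G.Adj a b ∧ G.Adj a c ∧ G.Adj b c ∧ G.Adj a b) ↔
      (G.Adj a b ∧ G.Adj a c ∧ G.Adj b c) := by tauto
  have h2 : r a b + r a c + r b c + (T - 2) * r a b = (T - 1) * r a b + r a c + r b c := by ring
  rw [h2]
  by_cases h : G.Adj a b ∧ G.Adj a c ∧ G.Adj b c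
  · rw [if_pos h, if_pos (h1.2 h)]
  · rw [if_neg h, if_neg (fun hh => h (h1.1 hh))]

theorem starB_k {T : ℝ} {V : Type*} (G : SimpleGraph V) {r : V → V → ℝ}
    (hs : ∀ a b, r a b = r b a) (a b c : V) :
    exc4 G T r a b c c = exc3 G T r a c b := by
  unfold exc4 exc3
  have h1 : (G.Adj a b ∧ G.Adj a c ∧ G.Adj b c ∧ G.Adj a c) ↔
      (G.Adj a c ∧ G.Adj a b ∧ G.Adj c b) := by
    rw [G.adj_comm c b]
    tauto
  have h2 : r a b + r a c + r b c + (T - 2) * r a c = (T - 1) * r a c + r a b + r c b := by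
    rw [hs c b]
    ring
  rw [h2]
  by_cases h : G.Adj a c ∧ G.Adj a b ∧ G.Adj c b
  · rw [if_pos h, if_pos (h1.2 h)]
  · rw [if_neg h, if_neg (fun hh => h (h1.1 hh))]

theorem starB_term {T : ℝ} {V : Type*} [Fintype V] [Nonempty V] (G : SimpleGraph V)
    {r : V → V → ℝ} (hs : ∀ a b, r a b = r b a) {M : ℕ} (i j k l : Fin M) :
    ∑ U : Fin M → V, exc4 G T r (U i) (U j) (U k) (U l) ≤
      (Fintype.card V : ℝ) ^ M * (∑ a, ∑ b, ∑ c, ∑ d, exc4 G T r a b c d) /
        (Fintype.card V : ℝ) ^ 4 +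
      (if l = j then (Fintype.card V : ℝ) ^ M * (∑ a, ∑ b, ∑ c, exc3 G T r a b c) /
        (Fintype.card V : ℝ) ^ 3 else 0) +
      (if l = k then (Fintype.card V : ℝ) ^ M * (∑ a, ∑ b, ∑ c, exc3 G T r a b c) /
        (Fintype.card V : ℝ) ^ 3 else 0) := by
  have hn : (0 : ℝ) < Fintype.card V := by exact_mod_cast Fintype.card_pos
  have h4 : 0 ≤ (Fintype.card V : ℝ) ^ M * (∑ a, ∑ b, ∑ c, ∑ d, exc4 G T r a b c d) /
      (Fintype.card V : ℝ) ^ 4 := by
    refine div_nonneg (mul_nonneg (by positivity) ?_) (by positivity)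
    exact Finset.sum_nonneg fun a _ => Finset.sum_nonneg fun b _ => Finset.sum_nonneg fun c _ =>
      Finset.sum_nonneg fun d _ => starB_exc4_nonneg G r a b c d
  have h3 : 0 ≤ (Fintype.card V : ℝ) ^ M * (∑ a, ∑ b, ∑ c, exc3 G T r a b c) /
      (Fintype.card V : ℝ) ^ 3 := by
    refine div_nonneg (mul_nonneg (by positivity) ?_) (by positivity)
    exact Finset.sum_nonneg fun a _ => Finset.sum_nonneg fun b _ => Finset.sum_nonneg fun c _ =>
      starB_exc3_nonneg G r a b c
  have hj : 0 ≤ (if l = j then (Fintype.card V : ℝ) ^ M * (∑ a, ∑ b, ∑ c, exc3 G T r a b c) /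
        (Fintype.card V : ℝ) ^ 3 else 0) := by
    split_ifs
    · exact h3
    · exact le_rfl
  have hk : 0 ≤ (if l = k then (Fintype.card V : ℝ) ^ M * (∑ a, ∑ b, ∑ c, exc3 G T r a b c) /
        (Fintype.card V : ℝ) ^ 3 else 0) := by
    split_ifs
    · exact h3
    · exact le_rfl
  by_cases hz : i = j ∨ i = k ∨ j = k ∨ i = l
  · have h0 : ∑ U : Fin M → V, exc4 G T r (U i) (U j) (U k) (U l) = 0 := by
      refine Finset.sum_eq_zero fun U _ => ?_
      unfold exc4
      rw [if_neg]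
      rintro ⟨e1, e2, e3, e4⟩
      rcases hz with rfl | rfl | rfl | rfl
      · exact G.loopless.irrefl _ e1
      · exact G.loopless.irrefl _ e2
      · exact G.loopless.irrefl _ e3
      · exact G.loopless.irrefl _ e4
    rw [h0]
    positivity
  · push Not at hz
    obtain ⟨hij, hik, hjk, hil⟩ := hz
    by_cases hlj : l = j
    · subst hlj
      have h0 : ∑ U : Fin M → V, exc4 G T r (U i) (U l) (U k) (U l) =
          (Fintype.card V : ℝ) ^ M * (∑ a, ∑ b, ∑ c, exc3 G T r a b c) /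
            (Fintype.card V : ℝ) ^ 3 := by
        rw [eq_div_iff (by positivity), mul_comm, ← avg3 hij hik hjk]
        congr 1
        exact Finset.sum_congr rfl fun U _ => starB_j G r _ _ _
      rw [h0, if_pos rfl]
      linarith
    · by_cases hlk : l = k
      · subst hlk
        have h0 : ∑ U : Fin M → V, exc4 G T r (U i) (U j) (U l) (U l) =
            (Fintype.card V : ℝ) ^ M * (∑ a, ∑ b, ∑ c, exc3 G T r a b c) /
              (Fintype.card V : ℝ) ^ 3 := by
          rw [eq_div_iff (by positivity), mul_comm, ← avg3 hil hij hlj]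
          congr 1
          exact Finset.sum_congr rfl fun U _ => starB_k G hs _ _ _
        rw [h0, if_pos rfl]
        linarith
      · have h0 : ∑ U : Fin M → V, exc4 G T r (U i) (U j) (U k) (U l) =
            (Fintype.card V : ℝ) ^ M * (∑ a, ∑ b, ∑ c, ∑ d, exc4 G T r a b c d) /
              (Fintype.card V : ℝ) ^ 4 := by
          rw [eq_div_iff (by positivity), mul_comm]
          exact avg4 hij hik hil hjk (fun h => hlj h.symm) (fun h => hlk h.symm) _
        rw [h0]
        linarith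

theorem sum_exc {T : ℝ} {V : Type*} [Fintype V] [Nonempty V] (G : SimpleGraph V)
    {r : V → V → ℝ} (hs : ∀ a b, r a b = r b a) (M : ℕ) :
    ∑ U : Fin M → V, ∑ i, ∑ j, ∑ k, ∑ l, exc4 G T r (U i) (U j) (U k) (U l)
      ≤ (Fintype.card V : ℝ) ^ M *
        ((M : ℝ) ^ 4 * (∑ a, ∑ b, ∑ c, ∑ d, exc4 G T r a b c d) / (Fintype.card V : ℝ) ^ 4
          + 2 * (M : ℝ) ^ 3 * (∑ a, ∑ b, ∑ c, exc3 G T r a b c) / (Fintype.card V : ℝ) ^ 3) := by
  have e1 : ∑ U : Fin M → V, ∑ i, ∑ j, ∑ k, ∑ l, exc4 G T r (U i) (U j) (U k) (U l) =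
      ∑ i, ∑ j, ∑ k, ∑ l, ∑ U : Fin M → V, exc4 G T r (U i) (U j) (U k) (U l) := by
    rw [Finset.sum_comm]
    refine Finset.sum_congr rfl fun i _ => ?_
    rw [Finset.sum_comm]
    refine Finset.sum_congr rfl fun j _ => ?_
    rw [Finset.sum_comm]
    refine Finset.sum_congr rfl fun k _ => ?_
    rw [Finset.sum_comm]
  rw [e1]
  refine (Finset.sum_le_sum fun i _ => Finset.sum_le_sum fun j _ => Finset.sum_le_sum fun k _ =>
    Finset.sum_le_sum fun l _ => starB_term G hs i j k l).trans (le_of_eq ?_)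
  simp only [Finset.sum_add_distrib, Finset.sum_const, Finset.card_univ, Fintype.card_fin,
    Finset.sum_ite_eq', Finset.mem_univ, if_true, nsmul_eq_mul]
  ring

end Pool.OCY
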