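import Pool.Agent.OCY.Defs

/-!
MODULE Avg (difficulty 2).  Averages over random `M`-tuples of vertices of functions of 2, 3, 4 coordinates.

RECIPE: general fact: for `ι : Fin q → Fin M` injective, `n ^ q * ∑ U, g (U ∘ ι) = n ^ M * ∑ x : Fin q → V, g x`
(the fibre over `x` is in bijection with the functions on the complement of the range, it has
`n ^ (M - q)` elements, `q ≤ M`).  Or by iteration of: for `i` fixed, `∑ U, H U = n⁻¹ ∑ U ∑ a, H (Function.update U i a)`
(the map `(U, a) ↦ (update U i a, U i)` is an involution of `(Fin M → V) × V`).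
-/

open Finset
open scoped Classical

namespace Pool.OCY

theorem avg_key {V : Type*} [Fintype V] {M : ℕ} (i : Fin M) (H : (Fin M → V) → ℝ) :
    (Fintype.card V : ℝ) * ∑ U, H U = ∑ U, ∑ a, H (Function.update U i a) := by
  let e : ((Fin M → V) × V) ≃ ((Fin M → V) × V) :=
    { toFun := fun q => (Function.update q.1 i q.2, q.1 i)
      invFun := fun q => (Function.update q.1 i q.2, q.1 i)
      left_inv := by
        rintro ⟨U, a⟩
        simp
      right_inv := by
        rintro ⟨U, a⟩
        simp }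
  have h1 : (∑ q : (Fin M → V) × V, H q.1) = ∑ q : (Fin M → V) × V, H (e q).1 :=
    (Equiv.sum_comp e (fun q => H q.1)).symm
  rw [Fintype.sum_prod_type, Fintype.sum_prod_type] at h1
  have h2 : (∑ U : Fin M → V, ∑ _a : V, H U) = (Fintype.card V : ℝ) * ∑ U, H U := by
    simp only [Finset.sum_const, Finset.card_univ, nsmul_eq_mul]
    rw [Finset.mul_sum]
  rw [← h2, h1]
  rfl

theorem avg2 {V : Type*} [Fintype V] {M : ℕ} {i j : Fin M} (hij : i ≠ j) (g : V → V → ℝ) :
    (Fintype.card V : ℝ) ^ 2 * ∑ U : Fin M → V, g (U i) (U j)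
      = (Fintype.card V : ℝ) ^ M * ∑ a, ∑ b, g a b := by
  have h1 := avg_key j (fun U : Fin M → V => g (U i) (U j))
  have h2 := avg_key i (fun U : Fin M → V => ∑ b, g (U i) b)
  have h3 : (∑ U : Fin M → V, ∑ b, g (Function.update U j b i) (Function.update U j b j)) =
      ∑ U : Fin M → V, ∑ b, g (U i) b := by
    refine Finset.sum_congr rfl (fun U _ => Finset.sum_congr rfl (fun b _ => ?_))
    rw [Function.update_self, Function.update_of_ne hij]
  simp only at h1 h2
  rw [h3] at h1
  have h4 : (∑ U : Fin M → V, ∑ a, ∑ b, g (Function.update U i a i) b) =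
      (Fintype.card V : ℝ) ^ M * ∑ a, ∑ b, g a b := by
    simp only [Function.update_self]
    rw [Finset.sum_const, Finset.card_univ, nsmul_eq_mul, Fintype.card_fun, Fintype.card_fin]
    push_cast
    ring
  rw [h4] at h2
  rw [pow_two, mul_assoc, h1, h2]

theorem avg3 {V : Type*} [Fintype V] {M : ℕ} {i j k : Fin M} (hij : i ≠ j) (hik : i ≠ k)
    (hjk : j ≠ k) (g : V → V → V → ℝ) :
    (Fintype.card V : ℝ) ^ 3 * ∑ U : Fin M → V, g (U i) (U j) (U k)
      = (Fintype.card V : ℝ) ^ M * ∑ a, ∑ b, ∑ c, g a b c := by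
  have h1 := avg_key k (fun U : Fin M → V => g (U i) (U j) (U k))
  simp only at h1
  have h3 : (∑ U : Fin M → V, ∑ c, g (Function.update U k c i) (Function.update U k c j)
      (Function.update U k c k)) = ∑ U : Fin M → V, ∑ c, g (U i) (U j) c := by
    refine Finset.sum_congr rfl (fun U _ => Finset.sum_congr rfl (fun b _ => ?_))
    rw [Function.update_self, Function.update_of_ne hik, Function.update_of_ne hjk]
  rw [h3] at h1
  have h2 := avg2 hij (fun a b => ∑ c, g a b c)
  rw [pow_succ, mul_assoc, h1, h2]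

theorem avg4 {V : Type*} [Fintype V] {M : ℕ} {i j k l : Fin M} (hij : i ≠ j) (hik : i ≠ k)
    (hil : i ≠ l) (hjk : j ≠ k) (hjl : j ≠ l) (hkl : k ≠ l) (g : V → V → V → V → ℝ) :
    (Fintype.card V : ℝ) ^ 4 * ∑ U : Fin M → V, g (U i) (U j) (U k) (U l)
      = (Fintype.card V : ℝ) ^ M * ∑ a, ∑ b, ∑ c, ∑ d, g a b c d := by
  have h1 := avg_key l (fun U : Fin M → V => g (U i) (U j) (U k) (U l))
  simp only at h1
  have h3 : (∑ U : Fin M → V, ∑ c, g (Function.update U l c i) (Function.update U l c j)
      (Function.update U l c k) (Function.update U l c l)) =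
      ∑ U : Fin M → V, ∑ c, g (U i) (U j) (U k) c := by
    refine Finset.sum_congr rfl (fun U _ => Finset.sum_congr rfl (fun b _ => ?_))
    rw [Function.update_self, Function.update_of_ne hil, Function.update_of_ne hjl,
      Function.update_of_ne hkl]
  rw [h3] at h1
  have h2 := avg3 hij hik hjk (fun a b c => ∑ d, g a b c d)
  rw [pow_succ, mul_assoc, h1, h2]

end Pool.OCY
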