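import Pool.Agent.OCY.Defs

/-!
MODULE BadCount (difficulty 2).  Few pairs are in many violating quadruples or triples.

RECIPE: `¬ Good a b` means that one of the 14 numbers (7 for `(a, b)`, 7 for `(b, a)`) is large.  For each of
them Markov: e.g. `∑_{a,b} |{(c,d) | P4 a b c d}| = |P4| ≤ τ n ^ 4`, so the number of pairs `(a, b)` with
`|{(c,d) | ...}| > ζ n ^ 2` is at most `τ n ^ 4 / (ζ n ^ 2)`; for `P3`: `τ n ^ 3 / (ζ n)`.  The other positions
are the same after a permutation of the coordinates, and `(a, b) ↦ (b, a)` is a bijection.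
Total `≤ 14 τ / ζ * n ^ 2`.  (If `n = 0` there are no pairs.)
-/

open Finset
open scoped Classical

namespace Pool.OCY

/-- the pair `(a, b)` is in few violating configurations, in this order -/
def Good1 {V : Type*} [Fintype V] (G : SimpleGraph V) (T : ℝ) (r : V → V → ℝ) (ζ : ℝ) (a b : V) :
    Prop :=
  ((univ.filter fun x : V × V => P4 G T r a b x.1 x.2).card : ℝ) ≤ ζ * (Fintype.card V : ℝ) ^ 2 ∧
  ((univ.filter fun x : V × V => P4 G T r a x.1 b x.2).card : ℝ) ≤ ζ * (Fintype.card V : ℝ) ^ 2 ∧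
  ((univ.filter fun x : V × V => P4 G T r x.1 a b x.2).card : ℝ) ≤ ζ * (Fintype.card V : ℝ) ^ 2 ∧
  ((univ.filter fun x : V × V => P4 G T r a x.1 x.2 b).card : ℝ) ≤ ζ * (Fintype.card V : ℝ) ^ 2 ∧
  ((univ.filter fun x : V => P3 G T r a b x).card : ℝ) ≤ ζ * (Fintype.card V : ℝ) ∧
  ((univ.filter fun x : V => P3 G T r a x b).card : ℝ) ≤ ζ * (Fintype.card V : ℝ) ∧
  ((univ.filter fun x : V => P3 G T r x a b).card : ℝ) ≤ ζ * (Fintype.card V : ℝ)

/-- few violating configurations, in both orders -/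
def Good {V : Type*} [Fintype V] (G : SimpleGraph V) (T : ℝ) (r : V → V → ℝ) (ζ : ℝ) (a b : V) :
    Prop := Good1 G T r ζ a b ∧ Good1 G T r ζ b a

theorem badCount_card {α β : Type*} [Fintype α] [Fintype β] (Q : α → β → Prop) :
    ((univ.filter fun x : α × β => Q x.1 x.2).card : ℝ) =
      ∑ a, ((univ.filter fun b => Q a b).card : ℝ) := by
  rw [Finset.card_filter, Fintype.sum_prod_type]
  push_cast
  refine Finset.sum_congr rfl fun a _ => ?_
  rw [Finset.card_filter]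
  push_cast
  rfl

theorem badCount_markov {α β : Type*} [Fintype α] [Fintype β] (Q : α → β → Prop) {s K : ℝ}
    (hK : ∑ a, ((univ.filter fun b => Q a b).card : ℝ) ≤ K) :
    ((univ.filter fun a => ¬ ((univ.filter fun b => Q a b).card : ℝ) ≤ s).card : ℝ) * s ≤ K := by
  refine le_trans ?_ hK
  rw [← nsmul_eq_mul]
  refine (Finset.card_nsmul_le_sum _ (fun a => ((univ.filter fun b => Q a b).card : ℝ)) s
    (fun a ha => ?_)).trans ?_
  · rw [mem_filter] at ha
    exact (not_le.1 ha.2).le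
  · exact Finset.sum_le_sum_of_subset_of_nonneg (Finset.filter_subset _ _)
      (fun a _ _ => Nat.cast_nonneg _)

/-- number of elements with the property `p` -/
noncomputable def badCount_c {α : Type*} [Fintype α] (p : α → Prop) : ℝ :=
  ((@Finset.filter α p (Classical.decPred p) univ).card : ℝ)

theorem badCount_c_eq {α : Type*} [Fintype α] (p : α → Prop) [DecidablePred p] :
    ((univ.filter p).card : ℝ) = badCount_c p := by
  unfold badCount_c
  have : univ.filter p = @Finset.filter α p (Classical.decPred p) univ := by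
    ext a
    simp only [mem_filter]
  rw [this]

theorem badCount_and {α : Type*} [Fintype α] (A B : α → Prop) :
    badCount_c (fun a => ¬ (A a ∧ B a)) ≤
      badCount_c (fun a => ¬ A a) + badCount_c (fun a => ¬ B a) := by
  rw [← badCount_c_eq, ← badCount_c_eq, ← badCount_c_eq]
  have h : (univ.filter fun a => ¬ (A a ∧ B a)) ⊆
      (univ.filter fun a => ¬ A a) ∪ (univ.filter fun a => ¬ B a) := by
    intro a ha
    rw [mem_union, mem_filter, mem_filter]
    rw [mem_filter] at ha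
    rcases not_and_or.1 ha.2 with h | h
    · exact Or.inl ⟨mem_univ _, h⟩
    · exact Or.inr ⟨mem_univ _, h⟩
  exact_mod_cast (card_le_card h).trans (card_union_le _ _)

theorem badCount_sum4 {V : Type*} [Fintype V] (Q : V → V → V → V → Prop) :
    ∑ p : V × V, ((univ.filter fun x : V × V => Q p.1 p.2 x.1 x.2).card : ℝ) =
      ∑ a, ∑ b, ∑ c, ∑ d, (if Q a b c d then (1 : ℝ) else 0) := by
  rw [Fintype.sum_prod_type]
  refine Finset.sum_congr rfl fun a _ => Finset.sum_congr rfl fun b _ => ?_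
  rw [Finset.card_filter]
  push_cast
  rw [Fintype.sum_prod_type]

theorem badCount_sum3 {V : Type*} [Fintype V] (Q : V → V → V → Prop) :
    ∑ p : V × V, ((univ.filter fun x : V => Q p.1 p.2 x).card : ℝ) =
      ∑ a, ∑ b, ∑ c, (if Q a b c then (1 : ℝ) else 0) := by
  rw [Fintype.sum_prod_type]
  refine Finset.sum_congr rfl fun a _ => Finset.sum_congr rfl fun b _ => ?_
  rw [Finset.card_filter]
  push_cast
  rfl

theorem badCount_div {B ζ τ n : ℝ} (hζ : 0 < ζ) (hn : 0 < n) (h : B * (ζ * n ^ 2) ≤ τ * n ^ 4) :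
    B ≤ τ / ζ * n ^ 2 := by
  rw [div_mul_eq_mul_div, le_div_iff₀ hζ]
  have h2 : (B * ζ) * n ^ 2 ≤ (τ * n ^ 2) * n ^ 2 := by nlinarith
  exact le_of_mul_le_mul_right h2 (by positivity)

theorem badCount_div1 {B ζ τ n : ℝ} (hζ : 0 < ζ) (hn : 0 < n) (h : B * (ζ * n) ≤ τ * n ^ 3) :
    B ≤ τ / ζ * n ^ 2 := by
  rw [div_mul_eq_mul_div, le_div_iff₀ hζ]
  have h2 : (B * ζ) * n ≤ (τ * n ^ 2) * n := by nlinarith
  exact le_of_mul_le_mul_right h2 hn

theorem badCount_one {V : Type*} [Fintype V] (G : SimpleGraph V) (T : ℝ) (r : V → V → ℝ)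
    {ζ τ : ℝ} (hζ : 0 < ζ) (hn : 0 < (Fintype.card V : ℝ))
    (h4 : ((univ.filter fun x : V × V × V × V => P4 G T r x.1 x.2.1 x.2.2.1 x.2.2.2).card : ℝ)
        ≤ τ * (Fintype.card V : ℝ) ^ 4)
    (h3 : ((univ.filter fun x : V × V × V => P3 G T r x.1 x.2.1 x.2.2).card : ℝ)
        ≤ τ * (Fintype.card V : ℝ) ^ 3) :
    ((univ.filter fun x : V × V => ¬ Good1 G T r ζ x.1 x.2).card : ℝ)
      ≤ 7 * (τ / ζ * (Fintype.card V : ℝ) ^ 2) := by
  obtain ⟨n, hndef⟩ : ∃ n : ℝ, n = (Fintype.card V : ℝ) := ⟨_, rfl⟩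
  have f4 : ((univ.filter fun x : V × V × V × V => P4 G T r x.1 x.2.1 x.2.2.1 x.2.2.2).card : ℝ)
      = ∑ a, ∑ b, ∑ c, ∑ d, (if P4 G T r a b c d then (1 : ℝ) else 0) := by
    rw [Finset.card_filter]
    push_cast
    rw [Fintype.sum_prod_type]
    refine Finset.sum_congr rfl fun a _ => ?_
    rw [Fintype.sum_prod_type]
    refine Finset.sum_congr rfl fun b _ => ?_
    rw [Fintype.sum_prod_type]
  have f3 : ((univ.filter fun x : V × V × V => P3 G T r x.1 x.2.1 x.2.2).card : ℝ)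
      = ∑ a, ∑ b, ∑ c, (if P3 G T r a b c then (1 : ℝ) else 0) := by
    rw [Finset.card_filter]
    push_cast
    rw [Fintype.sum_prod_type]
    refine Finset.sum_congr rfl fun a _ => ?_
    rw [Fintype.sum_prod_type]
  rw [f4, ← hndef] at h4
  rw [f3, ← hndef] at h3
  rw [← hndef] at hn
  have q2 : ∑ a, ∑ b, ∑ c, ∑ d, (if P4 G T r a b c d then (1 : ℝ) else 0) =
      ∑ a, ∑ c, ∑ b, ∑ d, (if P4 G T r a b c d then (1 : ℝ) else 0) :=
    Finset.sum_congr rfl fun a _ => Finset.sum_comm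
  have q3 : ∑ a, ∑ b, ∑ c, ∑ d, (if P4 G T r a b c d then (1 : ℝ) else 0) =
      ∑ b, ∑ c, ∑ a, ∑ d, (if P4 G T r a b c d then (1 : ℝ) else 0) := by
    rw [Finset.sum_comm]
    exact Finset.sum_congr rfl fun b _ => Finset.sum_comm
  have q4 : ∑ a, ∑ b, ∑ c, ∑ d, (if P4 G T r a b c d then (1 : ℝ) else 0) =
      ∑ a, ∑ d, ∑ b, ∑ c, (if P4 G T r a b c d then (1 : ℝ) else 0) := by
    refine Finset.sum_congr rfl fun a _ => ?_
    rw [Finset.sum_comm]
    rw [Finset.sum_congr rfl fun c _ => Finset.sum_comm (s := univ) (t := univ)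
      (f := fun b d => (if P4 G T r a b c d then (1 : ℝ) else 0))]
    rw [Finset.sum_comm]
    exact Finset.sum_congr rfl fun d _ => Finset.sum_comm
  have r2 : ∑ a, ∑ b, ∑ c, (if P3 G T r a b c then (1 : ℝ) else 0) =
      ∑ a, ∑ c, ∑ b, (if P3 G T r a b c then (1 : ℝ) else 0) :=
    Finset.sum_congr rfl fun a _ => Finset.sum_comm
  have r3 : ∑ a, ∑ b, ∑ c, (if P3 G T r a b c then (1 : ℝ) else 0) =
      ∑ b, ∑ c, ∑ a, (if P3 G T r a b c then (1 : ℝ) else 0) := by
    rw [Finset.sum_comm]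
    exact Finset.sum_congr rfl fun b _ => Finset.sum_comm
  have k1 := badCount_div hζ hn (badCount_markov
    (fun (p x : V × V) => P4 G T r p.1 p.2 x.1 x.2) (s := ζ * n ^ 2)
    ((badCount_sum4 (fun a b c d => P4 G T r a b c d)).le.trans h4))
  have k2 := badCount_div hζ hn (badCount_markov
    (fun (p x : V × V) => P4 G T r p.1 x.1 p.2 x.2) (s := ζ * n ^ 2)
    ((badCount_sum4 (fun a c b d => P4 G T r a b c d)).le.trans (q2.ge.trans h4)))
  have k3 := badCount_div hζ hn (badCount_markov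
    (fun (p x : V × V) => P4 G T r x.1 p.1 p.2 x.2) (s := ζ * n ^ 2)
    ((badCount_sum4 (fun b c a d => P4 G T r a b c d)).le.trans (q3.ge.trans h4)))
  have k4 := badCount_div hζ hn (badCount_markov
    (fun (p x : V × V) => P4 G T r p.1 x.1 x.2 p.2) (s := ζ * n ^ 2)
    ((badCount_sum4 (fun a d b c => P4 G T r a b c d)).le.trans (q4.ge.trans h4)))
  have k5 := badCount_div1 hζ hn (badCount_markov
    (fun (p : V × V) (x : V) => P3 G T r p.1 p.2 x) (s := ζ * n)
    ((badCount_sum3 (fun a b c => P3 G T r a b c)).le.trans h3))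
  have k6 := badCount_div1 hζ hn (badCount_markov
    (fun (p : V × V) (x : V) => P3 G T r p.1 x p.2) (s := ζ * n)
    ((badCount_sum3 (fun a c b => P3 G T r a b c)).le.trans (r2.ge.trans h3)))
  have k7 := badCount_div1 hζ hn (badCount_markov
    (fun (p : V × V) (x : V) => P3 G T r x p.1 p.2) (s := ζ * n)
    ((badCount_sum3 (fun b c a => P3 G T r a b c)).le.trans (r3.ge.trans h3)))
  rw [← hndef]
  rw [badCount_c_eq] at k1 k2 k3 k4 k5 k6 k7
  have u1 := badCount_and (α := V × V)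
    (fun p => ((univ.filter fun x : V × V => P4 G T r p.1 p.2 x.1 x.2).card : ℝ) ≤ ζ * n ^ 2)
    (fun p => ((univ.filter fun x : V × V => P4 G T r p.1 x.1 p.2 x.2).card : ℝ) ≤ ζ * n ^ 2 ∧
      ((univ.filter fun x : V × V => P4 G T r x.1 p.1 p.2 x.2).card : ℝ) ≤ ζ * n ^ 2 ∧
      ((univ.filter fun x : V × V => P4 G T r p.1 x.1 x.2 p.2).card : ℝ) ≤ ζ * n ^ 2 ∧
      ((univ.filter fun x : V => P3 G T r p.1 p.2 x).card : ℝ) ≤ ζ * n ∧
      ((univ.filter fun x : V => P3 G T r p.1 x p.2).card : ℝ) ≤ ζ * n ∧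
      ((univ.filter fun x : V => P3 G T r x p.1 p.2).card : ℝ) ≤ ζ * n)
  have u2 := badCount_and (α := V × V)
    (fun p => ((univ.filter fun x : V × V => P4 G T r p.1 x.1 p.2 x.2).card : ℝ) ≤ ζ * n ^ 2)
    (fun p => ((univ.filter fun x : V × V => P4 G T r x.1 p.1 p.2 x.2).card : ℝ) ≤ ζ * n ^ 2 ∧
      ((univ.filter fun x : V × V => P4 G T r p.1 x.1 x.2 p.2).card : ℝ) ≤ ζ * n ^ 2 ∧
      ((univ.filter fun x : V => P3 G T r p.1 p.2 x).card : ℝ) ≤ ζ * n ∧
      ((univ.filter fun x : V => P3 G T r p.1 x p.2).card : ℝ) ≤ ζ * n ∧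
      ((univ.filter fun x : V => P3 G T r x p.1 p.2).card : ℝ) ≤ ζ * n)
  have u3 := badCount_and (α := V × V)
    (fun p => ((univ.filter fun x : V × V => P4 G T r x.1 p.1 p.2 x.2).card : ℝ) ≤ ζ * n ^ 2)
    (fun p => ((univ.filter fun x : V × V => P4 G T r p.1 x.1 x.2 p.2).card : ℝ) ≤ ζ * n ^ 2 ∧
      ((univ.filter fun x : V => P3 G T r p.1 p.2 x).card : ℝ) ≤ ζ * n ∧
      ((univ.filter fun x : V => P3 G T r p.1 x p.2).card : ℝ) ≤ ζ * n ∧
      ((univ.filter fun x : V => P3 G T r x p.1 p.2).card : ℝ) ≤ ζ * n)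
  have u4 := badCount_and (α := V × V)
    (fun p => ((univ.filter fun x : V × V => P4 G T r p.1 x.1 x.2 p.2).card : ℝ) ≤ ζ * n ^ 2)
    (fun p => ((univ.filter fun x : V => P3 G T r p.1 p.2 x).card : ℝ) ≤ ζ * n ∧
      ((univ.filter fun x : V => P3 G T r p.1 x p.2).card : ℝ) ≤ ζ * n ∧
      ((univ.filter fun x : V => P3 G T r x p.1 p.2).card : ℝ) ≤ ζ * n)
  have u5 := badCount_and (α := V × V)
    (fun p => ((univ.filter fun x : V => P3 G T r p.1 p.2 x).card : ℝ) ≤ ζ * n)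
    (fun p => ((univ.filter fun x : V => P3 G T r p.1 x p.2).card : ℝ) ≤ ζ * n ∧
      ((univ.filter fun x : V => P3 G T r x p.1 p.2).card : ℝ) ≤ ζ * n)
  have u6 := badCount_and (α := V × V)
    (fun p => ((univ.filter fun x : V => P3 G T r p.1 x p.2).card : ℝ) ≤ ζ * n)
    (fun p => ((univ.filter fun x : V => P3 G T r x p.1 p.2).card : ℝ) ≤ ζ * n)
  have e0 : badCount_c (fun x : V × V => ¬ Good1 G T r ζ x.1 x.2) =
      badCount_c (fun p : V × V =>
      ¬ (((univ.filter fun x : V × V => P4 G T r p.1 p.2 x.1 x.2).card : ℝ) ≤ ζ * n ^ 2 ∧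
      ((univ.filter fun x : V × V => P4 G T r p.1 x.1 p.2 x.2).card : ℝ) ≤ ζ * n ^ 2 ∧
      ((univ.filter fun x : V × V => P4 G T r x.1 p.1 p.2 x.2).card : ℝ) ≤ ζ * n ^ 2 ∧
      ((univ.filter fun x : V × V => P4 G T r p.1 x.1 x.2 p.2).card : ℝ) ≤ ζ * n ^ 2 ∧
      ((univ.filter fun x : V => P3 G T r p.1 p.2 x).card : ℝ) ≤ ζ * n ∧
      ((univ.filter fun x : V => P3 G T r p.1 x p.2).card : ℝ) ≤ ζ * n ∧
      ((univ.filter fun x : V => P3 G T r x p.1 p.2).card : ℝ) ≤ ζ * n)) := by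
    rw [hndef]
    rfl
  rw [badCount_c_eq, e0]
  linarith

theorem bad_count {V : Type*} [Fintype V] (G : SimpleGraph V) (T : ℝ) (r : V → V → ℝ) {ζ τ : ℝ}
    (hζ : 0 < ζ) (hτ : 0 ≤ τ)
    (h4 : ((univ.filter fun x : V × V × V × V => P4 G T r x.1 x.2.1 x.2.2.1 x.2.2.2).card : ℝ)
        ≤ τ * (Fintype.card V : ℝ) ^ 4)
    (h3 : ((univ.filter fun x : V × V × V => P3 G T r x.1 x.2.1 x.2.2).card : ℝ)
        ≤ τ * (Fintype.card V : ℝ) ^ 3) :
    ((univ.filter fun x : V × V => ¬ Good G T r ζ x.1 x.2).card : ℝ)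
      ≤ 14 * τ / ζ * (Fintype.card V : ℝ) ^ 2 := by
  have hn0 : (0 : ℝ) ≤ (Fintype.card V : ℝ) := Nat.cast_nonneg _
  rcases hn0.eq_or_lt with hn | hn
  · have hc : Fintype.card V = 0 := by exact_mod_cast hn.symm
    have hE : IsEmpty V := Fintype.card_eq_zero_iff.1 hc
    have : (univ.filter fun x : V × V => ¬ Good G T r ζ x.1 x.2) = ∅ := by
      ext x
      exact (hE.false x.1).elim
    rw [this, card_empty, Nat.cast_zero]
    positivity
  · have h1 := badCount_one G T r hζ hn h4 h3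
    have h2 : ((univ.filter fun x : V × V => ¬ Good1 G T r ζ x.2 x.1).card : ℝ)
        ≤ 7 * (τ / ζ * (Fintype.card V : ℝ) ^ 2) := by
      refine le_trans (le_of_eq ?_) h1
      have : (univ.filter fun x : V × V => ¬ Good1 G T r ζ x.2 x.1).card =
          (univ.filter fun x : V × V => ¬ Good1 G T r ζ x.1 x.2).card := by
        refine Finset.card_bij (fun x _ => (x.2, x.1)) ?_ ?_ ?_
        · intro x hx
          rw [mem_filter] at hx ⊢
          exact ⟨mem_univ _, hx.2⟩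
        · rintro ⟨a, b⟩ _ ⟨c, d⟩ _ h
          rw [Prod.mk.injEq] at h ⊢
          exact ⟨h.2, h.1⟩
        · rintro ⟨a, b⟩ hx
          rw [mem_filter] at hx
          refine ⟨(b, a), ?_, rfl⟩
          rw [mem_filter]
          exact ⟨mem_univ _, hx.2⟩
      rw [this]
    have h5 := badCount_and (α := V × V) (fun x => Good1 G T r ζ x.1 x.2)
      (fun x => Good1 G T r ζ x.2 x.1)
    have e : badCount_c (fun x : V × V => ¬ Good G T r ζ x.1 x.2) =
        badCount_c (fun x : V × V => ¬ (Good1 G T r ζ x.1 x.2 ∧ Good1 G T r ζ x.2 x.1)) := rfl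
    rw [badCount_c_eq] at h1 h2
    rw [badCount_c_eq, e]
    have e2 : 14 * τ / ζ * (Fintype.card V : ℝ) ^ 2 =
        7 * (τ / ζ * (Fintype.card V : ℝ) ^ 2) + 7 * (τ / ζ * (Fintype.card V : ℝ) ^ 2) := by
      ring
    rw [e2]
    linarith

end Pool.OCY
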