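import Mathlib

/-!
MODULE Box (difficulty 3).  Erdős' box theorem: a positive proportion of all `k`-tuples contains a box
`X 0 × ... × X (k-1)` with `|X i| = t`.

RECIPE: induction on `k` (for `k = 0`: `τ ≤ |P|` and there is one tuple, so `P` holds).  Step `k → k + 1`:
let `m` be the `n₀` for `k, t, τ' = (τ/2) * (τ/4) ^ t` and let `n ≥ m`, `n ≥ 4 t / τ`.  For
`w : Fin k → V` let `d w = |{v | P (Fin.cons v w)}|`, `∑_w d w ≥ τ n ^ (k+1)`
(`Fin.consEquiv` / `Fin.insertNthEquiv` / `Fin.cons`), `d w ≤ n`, so at least `(τ/2) n ^ k` of the `w`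
have `d w ≥ (τ/2) n`; each of these contains at least `((τ/2) n - t) ^ t / t! ≥ ((τ/4) n) ^ t / t!` sets of
size `t` (`Nat.descFactorial`, `Nat.choose`, `Nat.pow_sub_le_descFactorial`), and there are at most
`n ^ t / t!` sets of size `t` altogether.  So (double counting over `powersetCard t univ`) some
`t`-set `X₀` is contained in `{v | P (Fin.cons v w)}` for at least `(τ/2) (τ/4) ^ t n ^ k` of the `w`.
(It is equally good to count injective or arbitrary functions `Fin t → V` instead of `t`-sets.)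
Apply the induction hypothesis to `{w | ∀ v ∈ X₀, P (Fin.cons v w)}` and set `X = Fin.cons X₀ X'`.
-/

open Finset
open scoped Classical

namespace Pool.OCY

theorem box_count {V : Type} [Fintype V] (k : ℕ) (P : (Fin (k + 1) → V) → Prop) :
    (univ.filter P).card =
      ∑ w : Fin k → V, (univ.filter (fun v : V => P (Fin.cons v w))).card := by
  have h1 : (univ.filter P).card =
      ∑ q : V × (Fin k → V), if P (Fin.cons q.1 q.2) then 1 else 0 := by
    rw [Finset.card_filter]
    exact (Fintype.sum_equiv (Fin.consEquiv (fun _ : Fin (k + 1) => V)) _ _ (fun q => rfl)).symm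
  rw [h1, Fintype.sum_prod_type_right]
  refine Finset.sum_congr rfl (fun w _ => ?_)
  rw [Finset.card_filter]

theorem box_many {V : Type} [Fintype V] (k : ℕ) (P : (Fin (k + 1) → V) → Prop) (τ : ℝ)
    (hτ : 0 < τ) (hn : 0 < Fintype.card V)
    (h : τ * (Fintype.card V : ℝ) ^ (k + 1) ≤ ((univ.filter P).card : ℝ)) :
    τ / 2 * (Fintype.card V : ℝ) ^ k ≤
      ((univ.filter (fun w : Fin k → V => τ / 2 * (Fintype.card V : ℝ) ≤
        ((univ.filter (fun v : V => P (Fin.cons v w))).card : ℝ))).card : ℝ) := by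
  set n : ℝ := (Fintype.card V : ℝ) with hnd
  have hn' : 0 < n := by rw [hnd]; exact_mod_cast hn
  have hsum : ((univ.filter P).card : ℝ) =
      ∑ w : Fin k → V, ((univ.filter (fun v : V => P (Fin.cons v w))).card : ℝ) := by
    rw [box_count k P]
    push_cast
    rfl
  have hle : ∀ w : Fin k → V, ((univ.filter (fun v : V => P (Fin.cons v w))).card : ℝ) ≤
      (if τ / 2 * n ≤ ((univ.filter (fun v : V => P (Fin.cons v w))).card : ℝ) then n else 0) +
        τ / 2 * n := by
    intro w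
    have hc : ((univ.filter (fun v : V => P (Fin.cons v w))).card : ℝ) ≤ n := by
      rw [hnd]
      exact_mod_cast Finset.card_le_univ _
    have hp : 0 ≤ τ / 2 * n := by positivity
    split_ifs with h1
    · linarith
    · push Not at h1
      linarith
  have hS : ((univ.filter P).card : ℝ) ≤
      ((univ.filter (fun w : Fin k → V => τ / 2 * n ≤
        ((univ.filter (fun v : V => P (Fin.cons v w))).card : ℝ))).card : ℝ) * n +
        n ^ k * (τ / 2 * n) := by
    rw [hsum]
    refine (Finset.sum_le_sum (fun w _ => hle w)).trans ?_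
    rw [Finset.sum_add_distrib, Finset.sum_const, ← Finset.sum_filter, Finset.sum_const,
      nsmul_eq_mul, nsmul_eq_mul, Finset.card_univ, Fintype.card_fun, Fintype.card_fin]
    push_cast
    rw [← hnd]
  have h3 : τ * n ^ (k + 1) - n ^ k * (τ / 2 * n) = (τ / 2 * n ^ k) * n := by ring
  have h4 : (τ / 2 * n ^ k) * n ≤
      ((univ.filter (fun w : Fin k → V => τ / 2 * n ≤
        ((univ.filter (fun v : V => P (Fin.cons v w))).card : ℝ))).card : ℝ) * n := by
    linarith
  exact le_of_mul_le_mul_right h4 hn'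

theorem box_choose (d n t : ℕ) (τ : ℝ) (hτ : 0 < τ) (hd : τ / 2 * (n : ℝ) ≤ (d : ℝ))
    (hn : 4 * (t : ℝ) / τ ≤ (n : ℝ)) :
    (τ / 4) ^ t * (n.choose t : ℝ) ≤ (d.choose t : ℝ) := by
  have h1 : (n.choose t : ℝ) * (t.factorial : ℝ) ≤ (n : ℝ) ^ t := by
    have := Nat.descFactorial_le_pow n t
    rw [Nat.descFactorial_eq_factorial_mul_choose] at this
    rw [mul_comm]
    exact_mod_cast this
  have htn : (t : ℝ) ≤ τ / 4 * (n : ℝ) := by
    rw [div_le_iff₀ hτ] at hn
    linarith
  have h2 : (τ / 4 * (n : ℝ)) ^ t ≤ (d.choose t : ℝ) * (t.factorial : ℝ) := by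
    have h3 := Nat.pow_sub_le_descFactorial d t
    rw [Nat.descFactorial_eq_factorial_mul_choose] at h3
    have h4 : τ / 4 * (n : ℝ) ≤ ((d + 1 - t : ℕ) : ℝ) := by
      have h5 : ((d : ℝ) + 1 - t) ≤ ((d + 1 - t : ℕ) : ℝ) := by
        have : (d + 1 : ℕ) ≤ (d + 1 - t) + t := by omega
        have h6 : ((d + 1 : ℕ) : ℝ) ≤ ((d + 1 - t : ℕ) : ℝ) + (t : ℝ) := by exact_mod_cast this
        push_cast at h6
        linarith
      linarith
    have h0 : 0 ≤ τ / 4 * (n : ℝ) := by positivity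
    calc (τ / 4 * (n : ℝ)) ^ t ≤ ((d + 1 - t : ℕ) : ℝ) ^ t := pow_le_pow_left₀ h0 h4 t
      _ ≤ ((t.factorial * d.choose t : ℕ) : ℝ) := by exact_mod_cast h3
      _ = (d.choose t : ℝ) * (t.factorial : ℝ) := by push_cast; ring
  have hf : (0 : ℝ) < (t.factorial : ℝ) := by exact_mod_cast t.factorial_pos
  have h7 : ((τ / 4) ^ t * (n.choose t : ℝ)) * (t.factorial : ℝ) ≤
      (d.choose t : ℝ) * (t.factorial : ℝ) := by
    calc ((τ / 4) ^ t * (n.choose t : ℝ)) * (t.factorial : ℝ)
        = (τ / 4) ^ t * ((n.choose t : ℝ) * (t.factorial : ℝ)) := by ring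
      _ ≤ (τ / 4) ^ t * (n : ℝ) ^ t := by
          exact mul_le_mul_of_nonneg_left h1 (by positivity)
      _ = (τ / 4 * (n : ℝ)) ^ t := by rw [mul_pow]
      _ ≤ _ := h2
  exact le_of_mul_le_mul_right h7 hf

theorem box_set {V : Type} [Fintype V] (k t : ℕ) (P : (Fin (k + 1) → V) → Prop) (τ : ℝ)
    (hτ : 0 < τ) (hn : 0 < Fintype.card V) (ht : t ≤ Fintype.card V)
    (hnt : 4 * (t : ℝ) / τ ≤ (Fintype.card V : ℝ))
    (h : τ * (Fintype.card V : ℝ) ^ (k + 1) ≤ ((univ.filter P).card : ℝ)) :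
    ∃ S : Finset V, S.card = t ∧ (τ / 2) * (τ / 4) ^ t * (Fintype.card V : ℝ) ^ k ≤
      ((univ.filter (fun w : Fin k → V => ∀ v ∈ S, P (Fin.cons v w))).card : ℝ) := by
  set n : ℝ := (Fintype.card V : ℝ) with hnd
  have hm := box_many k P τ hτ hn h
  rw [← hnd] at hm
  set W := univ.filter (fun w : Fin k → V => τ / 2 * n ≤
    ((univ.filter (fun v : V => P (Fin.cons v w))).card : ℝ)) with hW
  -- double counting
  have hdc : ∑ S ∈ powersetCard t (univ : Finset V),
      ((univ.filter (fun w : Fin k → V => ∀ v ∈ S, P (Fin.cons v w))).card : ℝ) =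
      ∑ w : Fin k → V, (((univ.filter (fun v : V => P (Fin.cons v w))).card.choose t : ℕ) : ℝ) := by
    have e1 : ∀ S : Finset V,
        ((univ.filter (fun w : Fin k → V => ∀ v ∈ S, P (Fin.cons v w))).card : ℝ) =
        ∑ w : Fin k → V, if (∀ v ∈ S, P (Fin.cons v w)) then (1 : ℝ) else 0 := by
      intro S
      rw [Finset.card_filter]
      push_cast
      rfl
    rw [Finset.sum_congr rfl (fun S _ => e1 S), Finset.sum_comm]
    refine Finset.sum_congr rfl (fun w _ => ?_)
    rw [← Finset.sum_filter, Finset.sum_const, nsmul_eq_mul, mul_one, ← Finset.card_powersetCard]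
    congr 2
    ext S
    simp only [Finset.mem_filter, Finset.mem_powersetCard, Finset.subset_univ, true_and]
    constructor
    · rintro ⟨h1, h2⟩
      exact ⟨fun v hv => Finset.mem_filter.2 ⟨Finset.mem_univ _, h2 v hv⟩, h1⟩
    · rintro ⟨h1, h2⟩
      exact ⟨h2, fun v hv => (Finset.mem_filter.1 (h1 hv)).2⟩
  have hlow : (τ / 2) * (τ / 4) ^ t * n ^ k * ((Fintype.card V).choose t : ℝ) ≤
      ∑ w : Fin k → V, (((univ.filter (fun v : V => P (Fin.cons v w))).card.choose t : ℕ) : ℝ) := by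
    have h1 : ∑ w ∈ W, (τ / 4) ^ t * ((Fintype.card V).choose t : ℝ) ≤
        ∑ w ∈ W, (((univ.filter (fun v : V => P (Fin.cons v w))).card.choose t : ℕ) : ℝ) := by
      refine Finset.sum_le_sum (fun w hw => ?_)
      have hw' := (Finset.mem_filter.1 hw).2
      exact box_choose _ _ t τ hτ hw' hnt
    have h2 : ∑ w ∈ W, (((univ.filter (fun v : V => P (Fin.cons v w))).card.choose t : ℕ) : ℝ) ≤
        ∑ w : Fin k → V, (((univ.filter (fun v : V => P (Fin.cons v w))).card.choose t : ℕ) : ℝ) :=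
      Finset.sum_le_sum_of_subset_of_nonneg (Finset.subset_univ _)
        (fun w _ _ => Nat.cast_nonneg _)
    refine le_trans ?_ (h1.trans h2)
    rw [Finset.sum_const, nsmul_eq_mul]
    have h3 : 0 ≤ (τ / 4) ^ t * ((Fintype.card V).choose t : ℝ) := by positivity
    calc (τ / 2) * (τ / 4) ^ t * n ^ k * ((Fintype.card V).choose t : ℝ)
        = (τ / 2 * n ^ k) * ((τ / 4) ^ t * ((Fintype.card V).choose t : ℝ)) := by ring
      _ ≤ (W.card : ℝ) * ((τ / 4) ^ t * ((Fintype.card V).choose t : ℝ)) :=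
          mul_le_mul_of_nonneg_right hm h3
  have hne : (powersetCard t (univ : Finset V)).Nonempty := by
    rw [Finset.powersetCard_nonempty, Finset.card_univ]
    exact ht
  have hex : ∃ S ∈ powersetCard t (univ : Finset V), (τ / 2) * (τ / 4) ^ t * n ^ k ≤
      ((univ.filter (fun w : Fin k → V => ∀ v ∈ S, P (Fin.cons v w))).card : ℝ) := by
    refine Finset.exists_le_of_sum_le hne ?_
    rw [hdc, Finset.sum_const, nsmul_eq_mul, Finset.card_powersetCard, Finset.card_univ]
    refine le_trans (le_of_eq ?_) hlow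
    ring
  obtain ⟨S, hS, hS'⟩ := hex
  exact ⟨S, (Finset.mem_powersetCard.1 hS).2, hS'⟩

theorem box (k t : ℕ) (τ : ℝ) (hτ : 0 < τ) : ∃ n₀ : ℕ, ∀ (V : Type) [Fintype V],
    n₀ ≤ Fintype.card V → ∀ P : (Fin k → V) → Prop,
      τ * (Fintype.card V : ℝ) ^ k ≤ ((univ.filter P).card : ℝ) →
      ∃ X : Fin k → Finset V, (∀ i, (X i).card = t) ∧ ∀ x : Fin k → V, (∀ i, x i ∈ X i) → P x := by
  induction k generalizing τ with
  | zero =>
    refine ⟨0, fun V _ _ P h => ⟨fun i => i.elim0, fun i => i.elim0, fun x _ => ?_⟩⟩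
    have h1 : (0 : ℝ) < ((univ.filter P).card : ℝ) := by
      refine lt_of_lt_of_le ?_ h
      rw [pow_zero, mul_one]
      exact hτ
    have h2 : 0 < (univ.filter P).card := by exact_mod_cast h1
    obtain ⟨y, hy⟩ := Finset.card_pos.1 h2
    have h3 : x = y := Subsingleton.elim _ _
    rw [h3]
    exact (Finset.mem_filter.1 hy).2
  | succ k ih =>
    obtain ⟨m, hm⟩ := ih ((τ / 2) * (τ / 4) ^ t) (by positivity)
    refine ⟨max m (max t ⌈4 * (t : ℝ) / τ⌉₊) + 1, ?_⟩
    intro V _ hV P hP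
    have hV1 : m ≤ Fintype.card V := by omega
    have hV2 : t ≤ Fintype.card V := by omega
    have hV3 : ⌈4 * (t : ℝ) / τ⌉₊ ≤ Fintype.card V := by omega
    have hV4 : 0 < Fintype.card V := by omega
    have hV5 : 4 * (t : ℝ) / τ ≤ (Fintype.card V : ℝ) :=
      (Nat.le_ceil _).trans (by exact_mod_cast hV3)
    obtain ⟨S, hS, hS'⟩ := box_set k t P τ hτ hV4 hV2 hV5 hP
    have key : ∀ Q : (Fin k → V) → Prop, (∀ w, Q w ↔ ∀ v ∈ S, P (Fin.cons v w)) →
        (τ / 2) * (τ / 4) ^ t * (Fintype.card V : ℝ) ^ k ≤ ((univ.filter Q).card : ℝ) := by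
      intro Q hQ
      rw [Finset.filter_congr (fun w _ => hQ w)]
      exact hS'
    obtain ⟨X, hX, hX'⟩ := hm V hV1 (fun w => ∀ v ∈ S, P (Fin.cons v w))
      (key _ (fun w => Iff.rfl))
    refine ⟨Fin.cons S X, ?_, ?_⟩
    · intro i
      refine Fin.cases ?_ (fun j => ?_) i
      · rw [Fin.cons_zero]
        exact hS
      · rw [Fin.cons_succ]
        exact hX j
    · intro x hx
      have h0 : x 0 ∈ S := by
        have := hx 0
        rwa [Fin.cons_zero] at this
      have h1 : ∀ i, Fin.tail x i ∈ X i := by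
        intro i
        have := hx i.succ
        rwa [Fin.cons_succ] at this
      have h2 := hX' (Fin.tail x) h1 (x 0) h0
      rwa [Fin.cons_self_tail] at h2

end Pool.OCY
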