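import Pool.Agent.OCY.Defs

/-!
MODULE Cyc3 (difficulty 3).  A box of violating triples contains a `(2k+1)`-cycle of positive weight.

RECIPE: pick `c ∈ A 2`, injective `u : Fin k → V` into `A 0`, `v : Fin k → V` into `A 1`.  All vertices are
distinct (`A 0`, `A 1`, `A 2` are pairwise completely adjacent).  For shifts `i, j < k` the cycle
`c, u_i 0, v_j 0, u_i 1, v_j 1, ..., u_i (k-1), v_j (k-1)` (`u_i l = u ((l + i) mod k)`, same for `v`)
has length `2k+1` and weight `r c (u_i 0) + ∑_{l<k} r (u_i l) (v_j l) + ∑_{l<k-1} r (v_j l) (u_i (l+1)) + r (v_j (k-1)) c`.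
Sum over all `i, j < k`: the total is `k ∑_a r c a + (2k-1) ∑_a ∑_b r a b + k ∑_b r b c`
`= ∑_a ∑_b ((2k-1) r a b + r a c + r b c) > 0`, but every cycle has weight `≤ 0`.
(`P3 G (2k)` has the coefficient `T - 1 = 2k - 1`.)
-/

open Finset
open scoped Classical

namespace Pool.OCY

theorem cyc3_psum {V : Type*} (r : V → V → ℝ) (n : ℕ) : ∀ p : ℕ → V,
    psum r ((List.range (n + 1)).map p) = ∑ i ∈ range n, r (p i) (p (i + 1)) := by
  induction n with
  | zero => intro p; simp [psum, List.range_succ]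
  | succ n ih =>
    intro p
    rw [List.range_succ_eq_map, List.map_cons, List.map_map]
    have h1 := ih (p ∘ Nat.succ)
    rw [List.range_succ_eq_map, List.map_cons, List.map_map]
    rw [List.range_succ_eq_map, List.map_cons, List.map_map] at h1
    rw [psum]
    rw [h1, Finset.sum_range_succ']
    simp only [Function.comp_apply, Nat.succ_eq_add_one]
    ring

theorem cyc3_fun {V : Type*} {G : SimpleGraph V} {r : V → V → ℝ} {m : ℕ}
    (hr : CycNonpos G (m + 1) r) (p : ℕ → V)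
    (hinj : ∀ i < m + 1, ∀ j < m + 1, p i = p j → i = j)
    (hcl : p (m + 1) = p 0) (hadj : ∀ i < m + 1, G.Adj (p i) (p (i + 1))) :
    ∑ i ∈ range (m + 1), r (p i) (p (i + 1)) ≤ 0 := by
  have e1 : p 0 :: (List.range m).map (p ∘ Nat.succ) = (List.range (m + 1)).map p := by
    rw [List.range_succ_eq_map, List.map_cons, List.map_map]
  have e2 : p 0 :: ((List.range m).map (p ∘ Nat.succ) ++ [p 0]) = (List.range (m + 2)).map p := by
    rw [List.range_succ (n := m + 1), List.map_append, ← e1]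
    simp [hcl]
  have h := hr (p 0) ((List.range m).map (p ∘ Nat.succ)) (by simp) ?_ ?_
  · rw [e2, cyc3_psum] at h
    exact h
  · rw [e1]
    refine List.Nodup.map_on ?_ List.nodup_range
    intro i hi j hj hij
    exact hinj i (List.mem_range.mp hi) j (List.mem_range.mp hj) hij
  · rw [e2, List.isChain_map]
    rw [show m + 2 = (m + 1).succ from rfl, List.isChain_range_succ]
    intro i hi
    exact hadj i hi

theorem cyc3_pair (f : ℕ → ℝ) (m : ℕ) :
    ∑ n ∈ range (2 * m), f n = ∑ l ∈ range m, (f (2 * l) + f (2 * l + 1)) := by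
  induction m with
  | zero => simp
  | succ m ih =>
    rw [Finset.sum_range_succ, ← ih, show 2 * (m + 1) = 2 * m + 1 + 1 by ring,
      Finset.sum_range_succ, Finset.sum_range_succ]
    ring

/-- the cyclic sequence -/
def cyc3_seq {V : Type*} (k : ℕ) (c : V) (u v : ZMod k → V) (i j : ZMod k) (n : ℕ) : V :=
  if n = 0 ∨ n = 2 * k + 1 then c
  else if n % 2 = 1 then u (((n / 2 : ℕ) : ZMod k) + i) else v (((n / 2 - 1 : ℕ) : ZMod k) + j)

theorem cyc3_seq_zero {V : Type*} (k : ℕ) (c : V) (u v : ZMod k → V) (i j : ZMod k) :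
    cyc3_seq k c u v i j 0 = c := by simp [cyc3_seq]

theorem cyc3_seq_last {V : Type*} (k : ℕ) (c : V) (u v : ZMod k → V) (i j : ZMod k) :
    cyc3_seq k c u v i j (2 * k + 1) = c := by simp [cyc3_seq]

theorem cyc3_seq_odd {V : Type*} (k : ℕ) (c : V) (u v : ZMod k → V) (i j : ZMod k) (l : ℕ)
    (hl : l < k) : cyc3_seq k c u v i j (2 * l + 1) = u ((l : ZMod k) + i) := by
  rw [cyc3_seq, if_neg (by omega), if_pos (by omega), show (2 * l + 1) / 2 = l by omega]

theorem cyc3_seq_even {V : Type*} (k : ℕ) (c : V) (u v : ZMod k → V) (i j : ZMod k) (l : ℕ)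
    (hl : l < k) : cyc3_seq k c u v i j (2 * l + 2) = v ((l : ZMod k) + j) := by
  rw [cyc3_seq, if_neg (by omega), if_neg (by omega), show (2 * l + 2) / 2 - 1 = l by omega]

theorem cyc3_cast_inj {k : ℕ} {l l' : ℕ} (hl : l < k) (hl' : l' < k) (i : ZMod k)
    (h : (l : ZMod k) + i = (l' : ZMod k) + i) : l = l' := by
  have h1 : (l : ZMod k) = (l' : ZMod k) := by simpa using h
  rw [ZMod.natCast_eq_natCast_iff'] at h1
  rwa [Nat.mod_eq_of_lt hl, Nat.mod_eq_of_lt hl'] at h1

theorem cyc3_cycle {k : ℕ} (hk : 2 ≤ k) {V : Type*} {G : SimpleGraph V} {r : V → V → ℝ}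
    (hr : CycNonpos G (2 * k + 1) r) (c : V) (u v : ZMod k → V)
    (hu : Function.Injective u) (hv : Function.Injective v)
    (huv : ∀ x y, G.Adj (u x) (v y)) (huc : ∀ x, G.Adj (u x) c) (hvc : ∀ x, G.Adj (v x) c)
    (i j : ZMod k) :
    r c (u i) + ∑ l ∈ range k, r (u ((l : ZMod k) + i)) (v ((l : ZMod k) + j)) +
      ∑ l ∈ range (k - 1), r (v ((l : ZMod k) + j)) (u (((l + 1 : ℕ) : ZMod k) + i)) +
      r (v (((k - 1 : ℕ) : ZMod k) + j)) c ≤ 0 := by
  obtain ⟨q, rfl⟩ : ∃ q, k = q + 1 := ⟨k - 1, by omega⟩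
  set p := cyc3_seq (q + 1) c u v i j with hp
  have p0 : p 0 = c := cyc3_seq_zero _ c u v i j
  have pl : p (2 * (q + 1) + 1) = c := cyc3_seq_last _ c u v i j
  have po : ∀ l, l < q + 1 → p (2 * l + 1) = u ((l : ZMod (q + 1)) + i) :=
    fun l hl => cyc3_seq_odd _ c u v i j l hl
  have pe : ∀ l, l < q + 1 → p (2 * l + 2) = v ((l : ZMod (q + 1)) + j) :=
    fun l hl => cyc3_seq_even _ c u v i j l hl
  have hcase : ∀ n, n < 2 * (q + 1) + 1 → n = 0 ∨ (∃ l < q + 1, n = 2 * l + 1) ∨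
      (∃ l < q + 1, n = 2 * l + 2) := by
    intro n hn
    rcases Nat.eq_zero_or_pos n with h | h
    · exact Or.inl h
    · rcases Nat.mod_two_eq_zero_or_one n with h2 | h2
      · exact Or.inr (Or.inr ⟨n / 2 - 1, by omega, by omega⟩)
      · exact Or.inr (Or.inl ⟨n / 2, by omega, by omega⟩)
  have key := cyc3_fun (m := 2 * (q + 1)) hr p ?_ (by rw [pl, p0]) ?_
  · rw [Finset.sum_range_succ', cyc3_pair (fun n => r (p (n + 1)) (p (n + 1 + 1)))] at key
    have e : ∑ l ∈ range (q + 1), (r (p (2 * l + 1)) (p (2 * l + 1 + 1)) +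
        r (p (2 * l + 1 + 1)) (p (2 * l + 1 + 1 + 1))) =
        ∑ l ∈ range (q + 1), r (u ((l : ZMod (q + 1)) + i)) (v ((l : ZMod (q + 1)) + j)) +
        (∑ l ∈ range q, r (v ((l : ZMod (q + 1)) + j)) (u (((l + 1 : ℕ) : ZMod (q + 1)) + i)) +
        r (v ((q : ZMod (q + 1)) + j)) c) := by
      rw [Finset.sum_add_distrib]
      congr 1
      · refine Finset.sum_congr rfl fun l hl => ?_
        have hl' := Finset.mem_range.mp hl
        rw [po l hl', show 2 * l + 1 + 1 = 2 * l + 2 from rfl, pe l hl']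
      · rw [Finset.sum_range_succ]
        congr 1
        · refine Finset.sum_congr rfl fun l hl => ?_
          have hl' := Finset.mem_range.mp hl
          rw [show 2 * l + 1 + 1 = 2 * l + 2 from rfl, pe l (by omega),
            show 2 * l + 2 + 1 = 2 * (l + 1) + 1 by ring, po (l + 1) (by omega)]
        · rw [show 2 * q + 1 + 1 = 2 * q + 2 from rfl, pe q (by omega),
            show 2 * q + 2 + 1 = 2 * (q + 1) + 1 by ring, pl]
    rw [e, p0, show 0 + 1 = 2 * 0 + 1 from rfl, po 0 (by omega)] at key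
    simp only [Nat.cast_zero, zero_add] at key
    simp only [Nat.add_sub_cancel]
    linarith
  · intro n hn n' hn' h
    rcases hcase n hn with rfl | ⟨l, hl, rfl⟩ | ⟨l, hl, rfl⟩ <;>
    rcases hcase n' hn' with rfl | ⟨l', hl', rfl⟩ | ⟨l', hl', rfl⟩
    · rfl
    · rw [p0, po l' hl'] at h
      exact absurd h.symm (huc _).ne
    · rw [p0, pe l' hl'] at h
      exact absurd h.symm (hvc _).ne
    · rw [p0, po l hl] at h
      exact absurd h (huc _).ne
    · rw [po l hl, po l' hl'] at h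
      rw [cyc3_cast_inj hl hl' i (hu h)]
    · rw [po l hl, pe l' hl'] at h
      exact absurd h (huv _ _).ne
    · rw [p0, pe l hl] at h
      exact absurd h (hvc _).ne
    · rw [pe l hl, po l' hl'] at h
      exact absurd h.symm (huv _ _).ne
    · rw [pe l hl, pe l' hl'] at h
      rw [cyc3_cast_inj hl hl' j (hv h)]
  · intro n hn
    rcases hcase n hn with rfl | ⟨l, hl, rfl⟩ | ⟨l, hl, rfl⟩
    · rw [p0, show 0 + 1 = 2 * 0 + 1 from rfl, po 0 (by omega)]
      exact (huc _).symm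
    · rw [po l hl, show 2 * l + 1 + 1 = 2 * l + 2 from rfl, pe l hl]
      exact huv _ _
    · rw [pe l hl]
      rcases Nat.lt_or_ge (l + 1) (q + 1) with h | h
      · rw [show 2 * l + 2 + 1 = 2 * (l + 1) + 1 by ring, po (l + 1) h]
        exact (huv _ _).symm
      · rw [show 2 * l + 2 + 1 = 2 * (q + 1) + 1 by omega, pl]
        exact hvc _

theorem cyc3 {k : ℕ} (hk : 2 ≤ k) {V : Type*} {G : SimpleGraph V} {r : V → V → ℝ}
    (hs : ∀ a b, r a b = r b a) (hr : CycNonpos G (2 * k + 1) r) (A : Fin 3 → Finset V)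
    (hA : ∀ i, (A i).card = k)
    (hP : ∀ a ∈ A 0, ∀ b ∈ A 1, ∀ c ∈ A 2, P3 G (2 * k) r a b c) : False := by
  haveI : NeZero k := ⟨by omega⟩
  have hcard : ∀ i, Fintype.card (ZMod k) = Fintype.card (A i) := by
    intro i
    rw [ZMod.card, Fintype.card_coe, hA]
  let U : ZMod k ≃ A 0 := Fintype.equivOfCardEq (hcard 0)
  let W : ZMod k ≃ A 1 := Fintype.equivOfCardEq (hcard 1)
  let u : ZMod k → V := fun x => (U x : V)
  let v : ZMod k → V := fun x => (W x : V)
  obtain ⟨c, hc⟩ : (A 2).Nonempty := by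
    rw [← Finset.card_pos, hA]; omega
  have hu : Function.Injective u := fun x y h => U.injective (Subtype.ext h)
  have hv : Function.Injective v := fun x y h => W.injective (Subtype.ext h)
  have hPx : ∀ x y, P3 G (2 * k) r (u x) (v y) c := fun x y =>
    hP _ (U x).2 _ (W y).2 _ hc
  have huv : ∀ x y, G.Adj (u x) (v y) := fun x y => (hPx x y).1
  have huc : ∀ x, G.Adj (u x) c := fun x => (hPx x 0).2.1
  have hvc : ∀ x, G.Adj (v x) c := fun x => (hPx 0 x).2.2.1
  have hcyc := fun i j => cyc3_cycle hk hr c u v hu hv huv huc hvc i j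
  have hsum : ∑ i : ZMod k, ∑ j : ZMod k, (r c (u i) +
      ∑ l ∈ range k, r (u ((l : ZMod k) + i)) (v ((l : ZMod k) + j)) +
      ∑ l ∈ range (k - 1), r (v ((l : ZMod k) + j)) (u (((l + 1 : ℕ) : ZMod k) + i)) +
      r (v (((k - 1 : ℕ) : ZMod k) + j)) c) ≤ 0 :=
    Finset.sum_nonpos fun i _ => Finset.sum_nonpos fun j _ => hcyc i j
  have shift : ∀ (g : ZMod k → ℝ) (s : ZMod k), ∑ i, g (s + i) = ∑ i, g i := fun g s =>
    Fintype.sum_equiv (Equiv.addLeft s) _ _ (fun _ => rfl)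
  have s1 : ∑ i : ZMod k, ∑ _j : ZMod k, r c (u i) = k * ∑ i, r c (u i) := by
    simp only [Finset.sum_const, Finset.card_univ, ZMod.card, nsmul_eq_mul, Finset.mul_sum]
  have s2 : ∑ i : ZMod k, ∑ j : ZMod k, ∑ l ∈ range k,
      r (u ((l : ZMod k) + i)) (v ((l : ZMod k) + j)) = k * ∑ i, ∑ j, r (u i) (v j) := by
    have : ∀ i : ZMod k, ∑ j : ZMod k, ∑ l ∈ range k,
        r (u ((l : ZMod k) + i)) (v ((l : ZMod k) + j)) =
        ∑ l ∈ range k, ∑ j : ZMod k, r (u ((l : ZMod k) + i)) (v j) := by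
      intro i
      rw [Finset.sum_comm]
      refine Finset.sum_congr rfl fun l _ => ?_
      exact shift (fun y => r (u ((l : ZMod k) + i)) (v y)) l
    rw [Finset.sum_congr rfl fun i _ => this i, Finset.sum_comm]
    have h2 : ∀ l ∈ range k, ∑ i : ZMod k, ∑ j : ZMod k, r (u ((l : ZMod k) + i)) (v j) =
        ∑ i, ∑ j, r (u i) (v j) := fun l _ => shift (fun x => ∑ j, r (u x) (v j)) l
    rw [Finset.sum_congr rfl h2, Finset.sum_const, Finset.card_range, nsmul_eq_mul]
  have s3 : ∑ i : ZMod k, ∑ j : ZMod k, ∑ l ∈ range (k - 1),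
      r (v ((l : ZMod k) + j)) (u (((l + 1 : ℕ) : ZMod k) + i)) =
      ((k - 1 : ℕ) : ℝ) * ∑ i, ∑ j, r (u i) (v j) := by
    have : ∀ i : ZMod k, ∑ j : ZMod k, ∑ l ∈ range (k - 1),
        r (v ((l : ZMod k) + j)) (u (((l + 1 : ℕ) : ZMod k) + i)) =
        ∑ l ∈ range (k - 1), ∑ j : ZMod k, r (u (((l + 1 : ℕ) : ZMod k) + i)) (v j) := by
      intro i
      rw [Finset.sum_comm]
      refine Finset.sum_congr rfl fun l _ => ?_
      rw [shift (fun y => r (v y) (u (((l + 1 : ℕ) : ZMod k) + i))) l]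
      exact Finset.sum_congr rfl fun y _ => hs _ _
    rw [Finset.sum_congr rfl fun i _ => this i, Finset.sum_comm]
    have h2 : ∀ l ∈ range (k - 1), ∑ i : ZMod k, ∑ j : ZMod k,
        r (u (((l + 1 : ℕ) : ZMod k) + i)) (v j) =
        ∑ i, ∑ j, r (u i) (v j) := fun l _ => shift (fun x => ∑ j, r (u x) (v j)) _
    rw [Finset.sum_congr rfl h2, Finset.sum_const, Finset.card_range, nsmul_eq_mul]
  have s4 : ∑ _i : ZMod k, ∑ j : ZMod k, r (v (((k - 1 : ℕ) : ZMod k) + j)) c =
      k * ∑ j, r (v j) c := by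
    rw [Finset.sum_const, Finset.card_univ, ZMod.card, nsmul_eq_mul,
      shift (fun y => r (v y) c)]
  simp only [Finset.sum_add_distrib] at hsum
  rw [s1, s2, s3, s4] at hsum
  have hpos : 0 < ∑ i, ∑ j, ((2 * k - 1) * r (u i) (v j) + r (u i) c + r (v j) c) :=
    Finset.sum_pos (fun i _ => Finset.sum_pos (fun j _ => (hPx i j).2.2.2)
      Finset.univ_nonempty) Finset.univ_nonempty
  simp only [Finset.sum_add_distrib] at hpos
  have t1 : ∑ i : ZMod k, ∑ j : ZMod k, (2 * (k : ℝ) - 1) * r (u i) (v j) =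
      (2 * k - 1) * ∑ i, ∑ j, r (u i) (v j) := by
    simp only [Finset.mul_sum]
  have t2 : ∑ i : ZMod k, ∑ _j : ZMod k, r (u i) c = k * ∑ i, r c (u i) := by
    simp only [Finset.sum_const, Finset.card_univ, ZMod.card, nsmul_eq_mul, Finset.mul_sum]
    exact Finset.sum_congr rfl fun i _ => by rw [hs]
  have t3 : ∑ _i : ZMod k, ∑ j : ZMod k, r (v j) c = k * ∑ j, r (v j) c := by
    rw [Finset.sum_const, Finset.card_univ, ZMod.card, nsmul_eq_mul]
  rw [t1, t2, t3] at hpos
  have hk1 : ((k - 1 : ℕ) : ℝ) = k - 1 := by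
    rw [Nat.cast_sub (by omega)]; simp
  rw [hk1] at hsum
  nlinarith [hsum, hpos]

end Pool.OCY
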