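import Pool.Agent.OCY.Defs

/-!
MODULE Cyc4 (difficulty 3).  A box of violating quadruples contains a `(2k+1)`-cycle of positive weight.

RECIPE: pick `b ∈ A 1`, `c ∈ A 2`, an injective `u : Fin k → V` into `A 0`, and an injective
`v : Fin (k-1) → V` into `A 3 \ {b, c}` (it has at least `2k ≥ k - 1` elements).  All vertices are distinct:
`a ∈ A 0` is adjacent to `b`, to `c` and to every `d ∈ A 3`, and `b, c` are adjacent.
Write `k = n + 1`.  For a shift `j < k` let `uⱼ i = u ((i + j) mod k)`.  The cycle of the shift `j` is the closed list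
`b :: c :: zig uⱼ v n ++ [b]`, where `zig u v 0 = [u 0]`,
`zig u v (n+1) = u 0 :: v 0 :: zig (u ∘ succ) (v ∘ succ) n` (functions `ℕ → V`), i.e. the cycle
`b, c, u₀, v₀, u₁, v₁, ..., v_{n-1}, u_n`, of length `2 + (n+1) + n = 2k+1`.  Its weight is
`r b c + r c (uⱼ 0) + ∑_{i<n} (r (uⱼ i) (v i) + r (v i) (uⱼ (i+1))) + r (uⱼ n) b`.
Sum over `j < k`: every `uⱼ i` runs over all the `k` vertices `a = u i'`, so the total is
`k r b c + ∑_a r c a + 2 ∑_a ∑_{i<n} r a (v i) + ∑_a r a b
   = ∑_a (1/(k-1)) ∑_{i<n} (r a b + r a c + r b c + (2k-2) r a (v i)) > 0`  (`n = k - 1 ≥ 1`),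
but every single cycle has weight `≤ 0`.  Contradiction.
-/

open Finset
open scoped Classical

namespace Pool.OCY

theorem cyc4_psum {V : Type*} (r : V → V → ℝ) (n : ℕ) : ∀ p : ℕ → V,
    psum r ((List.range (n + 1)).map p) = ∑ i ∈ range n, r (p i) (p (i + 1)) := by
  induction n with
  | zero => intro p; simp [psum, List.range_succ]
  | succ n ih =>
    intro p
    rw [List.range_succ_eq_map, List.map_cons, List.map_map]
    have h1 := ih (p ∘ Nat.succ)
    rw [List.range_succ_eq_map, List.map_cons, List.map_map]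
    rw [List.range_succ_eq_map, List.map_cons, List.map_map] at h1
    rw [psum]
    rw [h1, Finset.sum_range_succ']
    simp only [Function.comp_apply, Nat.succ_eq_add_one]
    ring

theorem cyc4_fun {V : Type*} {G : SimpleGraph V} {r : V → V → ℝ} {m : ℕ}
    (hr : CycNonpos G (m + 1) r) (p : ℕ → V)
    (hinj : ∀ i < m + 1, ∀ j < m + 1, p i = p j → i = j)
    (hcl : p (m + 1) = p 0) (hadj : ∀ i < m + 1, G.Adj (p i) (p (i + 1))) :
    ∑ i ∈ range (m + 1), r (p i) (p (i + 1)) ≤ 0 := by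
  have e1 : p 0 :: (List.range m).map (p ∘ Nat.succ) = (List.range (m + 1)).map p := by
    rw [List.range_succ_eq_map, List.map_cons, List.map_map]
  have e2 : p 0 :: ((List.range m).map (p ∘ Nat.succ) ++ [p 0]) = (List.range (m + 2)).map p := by
    rw [List.range_succ (n := m + 1), List.map_append, ← e1]
    simp [hcl]
  have h := hr (p 0) ((List.range m).map (p ∘ Nat.succ)) (by simp) ?_ ?_
  · rw [e2, cyc4_psum] at h
    exact h
  · rw [e1]
    refine List.Nodup.map_on ?_ List.nodup_range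
    intro i hi j hj hij
    exact hinj i (List.mem_range.mp hi) j (List.mem_range.mp hj) hij
  · rw [e2, List.isChain_map]
    rw [show m + 2 = (m + 1).succ from rfl, List.isChain_range_succ]
    intro i hi
    exact hadj i hi

theorem cyc4_pair (f : ℕ → ℝ) (m : ℕ) :
    ∑ n ∈ range (2 * m), f n = ∑ l ∈ range m, (f (2 * l) + f (2 * l + 1)) := by
  induction m with
  | zero => simp
  | succ m ih =>
    rw [Finset.sum_range_succ, ← ih, show 2 * (m + 1) = 2 * m + 1 + 1 by ring,
      Finset.sum_range_succ, Finset.sum_range_succ]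
    ring

/-- the cyclic sequence -/
def cyc4_seq {V : Type*} (k : ℕ) (b c : V) (u : ZMod k → V) (v : ℕ → V) (j : ZMod k) (n : ℕ) : V :=
  if n = 0 ∨ n = 2 * k + 1 then b
  else if n = 1 then c
  else if n % 2 = 0 then u (((n / 2 - 1 : ℕ) : ZMod k) + j) else v (n / 2 - 1)

theorem cyc4_seq_zero {V : Type*} (k : ℕ) (b c : V) (u : ZMod k → V) (v : ℕ → V) (j : ZMod k) :
    cyc4_seq k b c u v j 0 = b := by simp [cyc4_seq]

theorem cyc4_seq_one {V : Type*} (k : ℕ) (hk : 2 ≤ k) (b c : V) (u : ZMod k → V) (v : ℕ → V)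
    (j : ZMod k) : cyc4_seq k b c u v j 1 = c := by
  rw [cyc4_seq, if_neg (by omega), if_pos rfl]

theorem cyc4_seq_last {V : Type*} (k : ℕ) (b c : V) (u : ZMod k → V) (v : ℕ → V) (j : ZMod k) :
    cyc4_seq k b c u v j (2 * k + 1) = b := by simp [cyc4_seq]

theorem cyc4_seq_even {V : Type*} (k : ℕ) (b c : V) (u : ZMod k → V) (v : ℕ → V) (j : ZMod k)
    (l : ℕ) : cyc4_seq k b c u v j (2 * l + 2) = u ((l : ZMod k) + j) := by
  rw [cyc4_seq, if_neg (by omega), if_neg (by omega), if_pos (by omega),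
    show (2 * l + 2) / 2 - 1 = l by omega]

theorem cyc4_seq_odd {V : Type*} (k : ℕ) (b c : V) (u : ZMod k → V) (v : ℕ → V) (j : ZMod k)
    (l : ℕ) (hl : l + 1 < k) : cyc4_seq k b c u v j (2 * l + 3) = v l := by
  rw [cyc4_seq, if_neg (by omega), if_neg (by omega), if_neg (by omega),
    show (2 * l + 3) / 2 - 1 = l by omega]

theorem cyc4_cast_inj {k : ℕ} {l l' : ℕ} (hl : l < k) (hl' : l' < k) (i : ZMod k)
    (h : (l : ZMod k) + i = (l' : ZMod k) + i) : l = l' := by
  have h1 : (l : ZMod k) = (l' : ZMod k) := by simpa using h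
  rw [ZMod.natCast_eq_natCast_iff'] at h1
  rwa [Nat.mod_eq_of_lt hl, Nat.mod_eq_of_lt hl'] at h1

theorem cyc4_cycle {k : ℕ} (hk : 2 ≤ k) {V : Type*} {G : SimpleGraph V} {r : V → V → ℝ}
    (hr : CycNonpos G (2 * k + 1) r) (b c : V) (u : ZMod k → V) (v : ℕ → V)
    (hu : Function.Injective u) (hv : ∀ i < k, ∀ j < k, v i = v j → i = j)
    (huv : ∀ x, ∀ y < k, G.Adj (u x) (v y)) (huc : ∀ x, G.Adj (u x) c) (hub : ∀ x, G.Adj (u x) b)
    (hbc : G.Adj b c) (hvb : ∀ y < k, v y ≠ b) (hvc : ∀ y < k, v y ≠ c)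
    (j : ZMod k) :
    r b c + r c (u j) + ∑ l ∈ range (k - 1), r (v l) (u (((l + 1 : ℕ) : ZMod k) + j)) +
      ∑ l ∈ range (k - 1), r (u ((l : ZMod k) + j)) (v l) +
      r (u (((k - 1 : ℕ) : ZMod k) + j)) b ≤ 0 := by
  obtain ⟨q, rfl⟩ : ∃ q, k = q + 1 := ⟨k - 1, by omega⟩
  set p := cyc4_seq (q + 1) b c u v j with hp
  have p0 : p 0 = b := cyc4_seq_zero _ b c u v j
  have p1 : p 1 = c := cyc4_seq_one _ hk b c u v j
  have pl : p (2 * (q + 1) + 1) = b := cyc4_seq_last _ b c u v j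
  have pe : ∀ l, p (2 * l + 2) = u ((l : ZMod (q + 1)) + j) :=
    fun l => cyc4_seq_even _ b c u v j l
  have po : ∀ l, l < q → p (2 * l + 3) = v l :=
    fun l hl => cyc4_seq_odd _ b c u v j l (by omega)
  have hcase : ∀ n, n < 2 * (q + 1) + 1 → n = 0 ∨ n = 1 ∨ (∃ l < q + 1, n = 2 * l + 2) ∨
      (∃ l < q, n = 2 * l + 3) := by
    intro n hn
    rcases Nat.lt_or_ge n 2 with h | h
    · interval_cases n
      · exact Or.inl rfl
      · exact Or.inr (Or.inl rfl)
    · rcases Nat.mod_two_eq_zero_or_one n with h2 | h2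
      · exact Or.inr (Or.inr (Or.inl ⟨n / 2 - 1, by omega, by omega⟩))
      · exact Or.inr (Or.inr (Or.inr ⟨n / 2 - 1, by omega, by omega⟩))
  have key := cyc4_fun (m := 2 * (q + 1)) hr p ?_ (by rw [pl, p0]) ?_
  · rw [Finset.sum_range_succ', cyc4_pair (fun n => r (p (n + 1)) (p (n + 1 + 1)))] at key
    have e : ∑ l ∈ range (q + 1), (r (p (2 * l + 1)) (p (2 * l + 1 + 1)) +
        r (p (2 * l + 1 + 1)) (p (2 * l + 1 + 1 + 1))) =
        (∑ l ∈ range q, r (v l) (u (((l + 1 : ℕ) : ZMod (q + 1)) + j)) + r c (u j)) +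
        (∑ l ∈ range q, r (u ((l : ZMod (q + 1)) + j)) (v l) +
        r (u ((q : ZMod (q + 1)) + j)) b) := by
      rw [Finset.sum_add_distrib]
      congr 1
      · rw [Finset.sum_range_succ']
        congr 1
        · refine Finset.sum_congr rfl fun l hl => ?_
          have hl' := Finset.mem_range.mp hl
          rw [show 2 * (l + 1) + 1 = 2 * l + 3 by ring, po l hl',
            show 2 * l + 3 + 1 = 2 * (l + 1) + 2 by ring, pe (l + 1)]
        · rw [show 2 * 0 + 1 = 1 from rfl, p1, show 1 + 1 = 2 * 0 + 2 from rfl, pe 0]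
          simp
      · rw [Finset.sum_range_succ]
        congr 1
        · refine Finset.sum_congr rfl fun l hl => ?_
          have hl' := Finset.mem_range.mp hl
          rw [show 2 * l + 1 + 1 = 2 * l + 2 from rfl, pe l,
            show 2 * l + 2 + 1 = 2 * l + 3 from rfl, po l hl']
        · rw [show 2 * q + 1 + 1 = 2 * q + 2 from rfl, pe q,
            show 2 * q + 2 + 1 = 2 * (q + 1) + 1 by ring, pl]
    rw [e, p0, show 0 + 1 = 1 from rfl, p1] at key
    simp only [Nat.add_sub_cancel]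
    linarith
  · intro n hn n' hn' h
    rcases hcase n hn with rfl | rfl | ⟨l, hl, rfl⟩ | ⟨l, hl, rfl⟩ <;>
    rcases hcase n' hn' with rfl | rfl | ⟨l', hl', rfl⟩ | ⟨l', hl', rfl⟩
    · rfl
    · rw [p0, p1] at h
      exact absurd h hbc.ne
    · rw [p0, pe l'] at h
      exact absurd h.symm (hub _).ne
    · rw [p0, po l' hl'] at h
      exact absurd h.symm (hvb _ (by omega))
    · rw [p0, p1] at h
      exact absurd h.symm hbc.ne
    · rfl
    · rw [p1, pe l'] at h
      exact absurd h.symm (huc _).ne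
    · rw [p1, po l' hl'] at h
      exact absurd h.symm (hvc _ (by omega))
    · rw [p0, pe l] at h
      exact absurd h (hub _).ne
    · rw [p1, pe l] at h
      exact absurd h (huc _).ne
    · rw [pe l, pe l'] at h
      rw [cyc4_cast_inj hl hl' j (hu h)]
    · rw [pe l, po l' hl'] at h
      exact absurd h (huv _ _ (by omega)).ne
    · rw [p0, po l hl] at h
      exact absurd h (hvb _ (by omega))
    · rw [p1, po l hl] at h
      exact absurd h (hvc _ (by omega))
    · rw [po l hl, pe l'] at h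
      exact absurd h.symm (huv _ _ (by omega)).ne
    · rw [po l hl, po l' hl'] at h
      rw [hv l (by omega) l' (by omega) h]
  · intro n hn
    rcases hcase n hn with rfl | rfl | ⟨l, hl, rfl⟩ | ⟨l, hl, rfl⟩
    · rw [p0, show 0 + 1 = 1 from rfl, p1]
      exact hbc
    · rw [p1, show 1 + 1 = 2 * 0 + 2 from rfl, pe 0]
      exact (huc _).symm
    · rw [pe l]
      rcases Nat.lt_or_ge l q with h | h
      · rw [show 2 * l + 2 + 1 = 2 * l + 3 by ring, po l h]
        exact huv _ _ (by omega)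
      · rw [show 2 * l + 2 + 1 = 2 * (q + 1) + 1 by omega, pl]
        exact hub _
    · rw [po l hl, show 2 * l + 3 + 1 = 2 * (l + 1) + 2 by ring, pe (l + 1)]
      exact (huv _ _ (by omega)).symm

theorem cyc4 {k : ℕ} (hk : 2 ≤ k) {V : Type*} {G : SimpleGraph V} {r : V → V → ℝ}
    (hs : ∀ a b, r a b = r b a) (hr : CycNonpos G (2 * k + 1) r) (A : Fin 4 → Finset V)
    (hA : ∀ i, (A i).card = 2 * k + 2)
    (hP : ∀ a ∈ A 0, ∀ b ∈ A 1, ∀ c ∈ A 2, ∀ d ∈ A 3, P4 G (2 * k) r a b c d) : False := by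
  have : NeZero k := ⟨by omega⟩
  obtain ⟨b, hb⟩ : (A 1).Nonempty := by
    rw [← Finset.card_pos, hA]; omega
  obtain ⟨c, hc⟩ : (A 2).Nonempty := by
    rw [← Finset.card_pos, hA]; omega
  obtain ⟨U⟩ : Nonempty (ZMod k ↪ A 0) := by
    apply Function.Embedding.nonempty_of_card_le
    rw [ZMod.card, Fintype.card_coe, hA]; omega
  have hD : 2 * k ≤ ((A 3 \ {b, c} : Finset V)).card := by
    have h1 := Finset.le_card_sdiff ({b, c} : Finset V) (A 3)
    have h2 : ({b, c} : Finset V).card ≤ 2 := Finset.card_le_two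
    rw [hA] at h1
    omega
  obtain ⟨W⟩ : Nonempty (Fin k ↪ (A 3 \ {b, c} : Finset V)) := by
    apply Function.Embedding.nonempty_of_card_le
    rw [Fintype.card_fin, Fintype.card_coe]; omega
  let u : ZMod k → V := fun x => (U x : V)
  let v : ℕ → V := fun n => if h : n < k then (W ⟨n, h⟩ : V) else b
  have hvW : ∀ n (h : n < k), v n = (W ⟨n, h⟩ : V) := fun n h => by simp [v, h]
  have hu : Function.Injective u := fun x y h => U.injective (Subtype.ext h)
  have hv : ∀ i < k, ∀ j < k, v i = v j → i = j := by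
    intro i hi j hj h
    rw [hvW i hi, hvW j hj] at h
    have := W.injective (Subtype.ext h)
    simpa using this
  have hvmem : ∀ n < k, v n ∈ A 3 ∧ v n ≠ b ∧ v n ≠ c := by
    intro n hn
    have h := (W ⟨n, hn⟩).2
    rw [hvW n hn]
    simp only [Finset.mem_sdiff, Finset.mem_insert, Finset.mem_singleton, not_or] at h
    exact ⟨h.1, h.2.1, h.2.2⟩
  have hPx : ∀ x, ∀ y < k, P4 G (2 * k) r (u x) b c (v y) := fun x y hy =>
    hP _ (U x).2 _ hb _ hc _ (hvmem y hy).1
  have hk0 : 0 < k := by omega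
  have huv : ∀ x, ∀ y < k, G.Adj (u x) (v y) := fun x y hy => (hPx x y hy).2.2.2.1
  have hub : ∀ x, G.Adj (u x) b := fun x => (hPx x 0 hk0).1
  have huc : ∀ x, G.Adj (u x) c := fun x => (hPx x 0 hk0).2.1
  have hbc : G.Adj b c := (hPx 0 0 hk0).2.2.1
  have hcyc := fun j => cyc4_cycle hk hr b c u v hu hv huv huc hub hbc
    (fun y hy => (hvmem y hy).2.1) (fun y hy => (hvmem y hy).2.2) j
  have hsum : ∑ j : ZMod k, (r b c + r c (u j) +
      ∑ l ∈ range (k - 1), r (v l) (u (((l + 1 : ℕ) : ZMod k) + j)) +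
      ∑ l ∈ range (k - 1), r (u ((l : ZMod k) + j)) (v l) +
      r (u (((k - 1 : ℕ) : ZMod k) + j)) b) ≤ 0 :=
    Finset.sum_nonpos fun j _ => hcyc j
  have shift : ∀ (g : ZMod k → ℝ) (s : ZMod k), ∑ i, g (s + i) = ∑ i, g i := fun g s =>
    Fintype.sum_equiv (Equiv.addLeft s) _ _ (fun _ => rfl)
  have s1 : ∑ _j : ZMod k, r b c = k * r b c := by
    rw [Finset.sum_const, Finset.card_univ, ZMod.card, nsmul_eq_mul]
  have s2 : ∑ j : ZMod k, ∑ l ∈ range (k - 1), r (v l) (u (((l + 1 : ℕ) : ZMod k) + j)) =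
      ∑ l ∈ range (k - 1), ∑ j, r (u j) (v l) := by
    rw [Finset.sum_comm]
    refine Finset.sum_congr rfl fun l _ => ?_
    rw [shift (fun x => r (v l) (u x))]
    exact Finset.sum_congr rfl fun y _ => hs _ _
  have s3 : ∑ j : ZMod k, ∑ l ∈ range (k - 1), r (u ((l : ZMod k) + j)) (v l) =
      ∑ l ∈ range (k - 1), ∑ j, r (u j) (v l) := by
    rw [Finset.sum_comm]
    refine Finset.sum_congr rfl fun l _ => ?_
    rw [shift (fun x => r (u x) (v l))]
  have s4 : ∑ j : ZMod k, r (u (((k - 1 : ℕ) : ZMod k) + j)) b = ∑ j, r (u j) b :=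
    shift (fun x => r (u x) b) _
  have s5 : ∑ j : ZMod k, r c (u j) = ∑ j, r (u j) c :=
    Finset.sum_congr rfl fun y _ => hs _ _
  simp only [Finset.sum_add_distrib] at hsum
  rw [s1, s2, s3, s4, s5] at hsum
  have hpos : 0 < ∑ l ∈ range (k - 1), ∑ j : ZMod k,
      (r (u j) b + r (u j) c + r b c + (2 * k - 2) * r (u j) (v l)) := by
    refine Finset.sum_pos (fun l hl => Finset.sum_pos (fun j _ => ?_) Finset.univ_nonempty)
      ⟨0, by simp; omega⟩
    have hl' : l < k := by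
      have := Finset.mem_range.mp hl
      omega
    exact (hPx j l hl').2.2.2.2
  simp only [Finset.sum_add_distrib] at hpos
  have hk1 : ((k - 1 : ℕ) : ℝ) = k - 1 := by
    rw [Nat.cast_sub (by omega)]; simp
  have t1 : ∀ y : V, ∑ _l ∈ range (k - 1), ∑ j : ZMod k, r (u j) y =
      (k - 1) * ∑ j, r (u j) y := by
    intro y
    rw [Finset.sum_const, Finset.card_range, nsmul_eq_mul, hk1]
  have t2 : ∑ _l ∈ range (k - 1), ∑ _j : ZMod k, r b c = (k - 1) * (k * r b c) := by
    rw [s1, Finset.sum_const, Finset.card_range, nsmul_eq_mul, hk1]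
  have t3 : ∑ l ∈ range (k - 1), ∑ j : ZMod k, (2 * (k : ℝ) - 2) * r (u j) (v l) =
      (2 * k - 2) * ∑ l ∈ range (k - 1), ∑ j, r (u j) (v l) := by
    simp only [Finset.mul_sum]
  rw [t1, t1, t2, t3] at hpos
  have hk2 : (2 : ℝ) ≤ k := by exact_mod_cast hk
  have hk3 : (0 : ℝ) < k - 1 := by linarith
  have hfin : 0 < ((k : ℝ) - 1) * (k * r b c + ∑ j, r (u j) c +
      ∑ l ∈ range (k - 1), ∑ j, r (u j) (v l) + ∑ l ∈ range (k - 1), ∑ j, r (u j) (v l) +
      ∑ j, r (u j) b) := by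
    nlinarith [hpos]
  have := (mul_pos_iff_of_pos_left hk3).mp hfin
  linarith

end Pool.OCY
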