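import Mathlib

/-!
# Fractional decompositions into odd cycles: definitions

`T = 2 k`, cycles of length `2 k + 1`.
-/

open Finset
open scoped Classical

namespace Pool.OCY

variable {V : Type*}

/-- extension by zero to the non-edges -/
noncomputable def ext (G : SimpleGraph V) (r : V → V → ℝ) (a b : V) : ℝ :=
  if G.Adj a b then r a b else 0

/-- indicator of the non-edges, the diagonal included -/
noncomputable def non (G : SimpleGraph V) (a b : V) : ℝ := if G.Adj a b then 0 else 1

/-- the walk condition: triangle `a b c`, then the edge `a d` traversed `T - 2` times -/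
def Hom (G : SimpleGraph V) (T : ℝ) (r : V → V → ℝ) : Prop :=
  ∀ a b c d, G.Adj a b → G.Adj a c → G.Adj b c → G.Adj a d →
    r a b + r a c + r b c + (T - 2) * r a d ≤ 0

/-- the multiplier: `x` is the potential of the vertex, `y` the potential of its partner -/
noncomputable def phi (T x y : ℝ) : ℝ :=
  max (max ((x + y) / 2) (-(x + y) / (2 * T)))
    (max ((y - x) / (2 * T) + x / T ^ 2) ((T - 1) * (x + y) / (2 * T) - y / T ^ 2))

/-- potentials -/
def IsPot (G : SimpleGraph V) (r : V → V → ℝ) (h : V → ℝ) : Prop :=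
  ∀ a b, G.Adj a b → r a b ≤ h a + h b

/-- positive part of the walk condition, four vertices -/
noncomputable def exc4 (G : SimpleGraph V) (T : ℝ) (r : V → V → ℝ) (a b c d : V) : ℝ :=
  if G.Adj a b ∧ G.Adj a c ∧ G.Adj b c ∧ G.Adj a d then
    max 0 (r a b + r a c + r b c + (T - 2) * r a d) else 0

/-- positive part of the walk condition, three vertices (`d = b`) -/
noncomputable def exc3 (G : SimpleGraph V) (T : ℝ) (r : V → V → ℝ) (a b c : V) : ℝ :=
  if G.Adj a b ∧ G.Adj a c ∧ G.Adj b c then
    max 0 ((T - 1) * r a b + r a c + r b c) else 0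

/-- the quadruples violating the walk condition -/
def P4 (G : SimpleGraph V) (T : ℝ) (r : V → V → ℝ) (a b c d : V) : Prop :=
  G.Adj a b ∧ G.Adj a c ∧ G.Adj b c ∧ G.Adj a d ∧ 0 < r a b + r a c + r b c + (T - 2) * r a d

/-- the triples violating the walk condition -/
def P3 (G : SimpleGraph V) (T : ℝ) (r : V → V → ℝ) (a b c : V) : Prop :=
  G.Adj a b ∧ G.Adj a c ∧ G.Adj b c ∧ 0 < (T - 1) * r a b + r a c + r b c

/-- the sum of the weights along a list of vertices -/
def psum (r : V → V → ℝ) : List V → ℝ
  | [] => 0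
  | [_] => 0
  | a :: b :: L => r a b + psum r (b :: L)

/-- `r` is nonpositive on all cycles of length `l` (the closed list `a :: L ++ [a]`) -/
def CycNonpos (G : SimpleGraph V) (l : ℕ) (r : V → V → ℝ) : Prop :=
  ∀ (a : V) (L : List V), L.length + 1 = l → (a :: L).Nodup →
    List.IsChain G.Adj (a :: (L ++ [a])) → psum r (a :: (L ++ [a])) ≤ 0

/-- total absolute weight at a vertex -/
noncomputable def rho [Fintype V] (H : SimpleGraph V) (r : V → V → ℝ) (a : V) : ℝ :=
  ∑ b, |ext H r a b|

/-- total absolute weight -/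
noncomputable def tot [Fintype V] (H : SimpleGraph V) (r : V → V → ℝ) : ℝ :=
  ∑ a, ∑ b, |ext H r a b|

end Pool.OCY
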