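import Pool.Agent.OCY.Defs
import Pool.Agent.H34.Dec.Copies

/-!
MODULE FarkasF (difficulty 3).  Farkas: from the dual statement to a fractional `F`-decomposition.

RECIPE: copy the proof of `Pool.Agent.FNW.Farkas` (minimise `∑_{a,b adjacent} (1 - cov w a b)²` over the
compact set of the weightings `w : (W → V) → ℝ`, `0 ≤ w f ≤ B`, `w f = 0` unless `f` is injective and maps edges of
`F` to edges of `G`), where `cov w a b = ∑ f, w f * |{(i, j) | F.Adj i j, f i = a, f j = b}|`
(for injective `f` the number is `0` or `1`, it is symmetric in `a, b`).  At the minimum let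
`s a b = 1 - cov w a b`: first order conditions: every copy `f` has `∑_{F.Adj i j} s (f i) (f j) ≤ 0`, and
`∑_{a,b adj} s a b * cov w a b ≥ 0`; so by the hypothesis `∑_{a,b adj} s a b ≤ 0`, hence `∑ s² ≤ 0`, `s = 0` on edges.
(The bound `B` is never active: each `w f ≤ cov` of an edge of its image; `F` has an edge.)
Then `w' H = ∑_{f} (if sub F G f = H then w f else 0)` (`Pool.H34.Dec.sub`, `sub_iso`) is the fractional decomposition, as in
`Pool.H34.Dec.fracDecomp_of_weights`: `∑_{H ∋ s(a,b)} w' H = ∑_f w f * 1[s(a,b) ∈ sub F G f] = cov w a b = 1`, and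
`w' H ≤ 1` because `H` contains an edge.
AVOID `convert` / `congr!` closing instance goals (grader).
-/

open Finset Filter Topology
open scoped Classical

namespace Pool.OCY

open Pool.H34.Dec (IsFracDecomp)

lemma farkasF_lin {A C : ℝ} (h : ∀ t : ℝ, 0 < t → t ≤ 1 → 0 ≤ -(2 * t * A) + t ^ 2 * C) : A ≤ 0 := by
  by_contra hA
  push Not at hA
  have hD : 0 < |C| + A + 1 := by positivity
  have ht0 : 0 < A / (|C| + A + 1) := div_pos hA hD
  have ht1 : A / (|C| + A + 1) ≤ 1 := by
    rw [div_le_one hD]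
    have := abs_nonneg C
    linarith
  have h1 := h _ ht0 ht1
  set t := A / (|C| + A + 1) with ht
  have h2 : 0 ≤ t * (t * C - 2 * A) := by nlinarith
  have h3 : 0 ≤ t * C - 2 * A := by
    by_contra h4
    push Not at h4
    nlinarith
  have h4 : t * C ≤ t * |C| := mul_le_mul_of_nonneg_left (le_abs_self C) ht0.le
  have h5 : t * |C| ≤ A := by
    have : t * (|C| + A + 1) = A := by
      rw [ht, div_mul_cancel₀]
      exact hD.ne'
    nlinarith
  linarith

/-- the residual -/
noncomputable def farkasF_s {I J : Type} [Fintype I] (v : I → J → ℝ) (w : I → ℝ) (j : J) : ℝ :=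
  1 - ∑ i, w i * v i j

lemma farkasF_gen {I J : Type} [Fintype I] [Fintype J] (v : I → J → ℝ) (v0 : ∀ i j, 0 ≤ v i j)
    (v1 : ∀ i, ∃ j, 1 ≤ v i j)
    (h : ∀ w : I → ℝ, (∀ i, 0 ≤ w i) → (∀ i, ∑ j, farkasF_s v w j * v i j ≤ 0) →
      ∑ j, farkasF_s v w j ≤ 0) :
    ∃ w : I → ℝ, (∀ i, 0 ≤ w i) ∧ ∀ j, ∑ i, w i * v i j = 1 := by
  set n : ℝ := (Fintype.card J : ℝ) with hn
  have hn0 : 0 ≤ n := by rw [hn]; positivity
  have hK : IsCompact (Set.pi Set.univ fun _ : I => Set.Icc (0 : ℝ) (n + 3)) :=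
    isCompact_univ_pi fun _ => isCompact_Icc
  have hz0 : (fun _ => 0 : I → ℝ) ∈ Set.pi Set.univ fun _ : I => Set.Icc (0 : ℝ) (n + 3) := by
    intro i _
    exact ⟨le_rfl, by linarith⟩
  have hcont : Continuous fun w : I → ℝ => ∑ j, (farkasF_s v w j) ^ 2 := by
    refine continuous_finsetSum _ fun j _ => ?_
    unfold farkasF_s
    refine (continuous_const.sub (continuous_finsetSum _ fun i _ => ?_)).pow 2
    exact (continuous_apply i).mul continuous_const
  obtain ⟨w, hw, hmin⟩ := hK.exists_isMinOn ⟨_, hz0⟩ hcont.continuousOn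
  have w0 : ∀ i, 0 ≤ w i := fun i => (hw i (Set.mem_univ i)).1
  have wB : ∀ i, w i ≤ n + 3 := fun i => (hw i (Set.mem_univ i)).2
  have hle : ∀ z : I → ℝ, (∀ i, 0 ≤ z i ∧ z i ≤ n + 3) →
      ∑ j, (farkasF_s v w j) ^ 2 ≤ ∑ j, (farkasF_s v z j) ^ 2 :=
    fun z hz => hmin (fun i _ => hz i)
  have htot : ∑ j, (farkasF_s v w j) ^ 2 ≤ n := by
    refine (hle _ (fun i => ⟨le_rfl, by linarith⟩ : ∀ i, 0 ≤ (fun _ => 0 : I → ℝ) i ∧ _)).trans ?_
    simp [farkasF_s, hn]
  have hwb : ∀ i, w i ≤ n + 2 := by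
    intro i
    obtain ⟨j, hj⟩ := v1 i
    have h1 : w i ≤ ∑ i, w i * v i j := by
      have h2 := Finset.single_le_sum (s := (univ : Finset I)) (f := fun i => w i * v i j)
        (fun i _ => mul_nonneg (w0 i) (v0 i j)) (Finset.mem_univ i)
      have h3 : w i ≤ w i * v i j := by
        have := w0 i
        nlinarith
      exact h3.trans h2
    have h3 : (farkasF_s v w j) ^ 2 ≤ n :=
      (Finset.single_le_sum (s := (univ : Finset J)) (f := fun j => (farkasF_s v w j) ^ 2)
        (fun j _ => sq_nonneg _) (Finset.mem_univ j)).trans htot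
    have h4 : ∑ i, w i * v i j = 1 - farkasF_s v w j := by unfold farkasF_s; ring
    rw [h4] at h1
    nlinarith [sq_nonneg (farkasF_s v w j + 1)]
  -- change in a direction
  have hdir : ∀ d : I → ℝ, (∀ t : ℝ, 0 < t → t ≤ 1 → ∀ i, 0 ≤ w i + t * d i ∧ w i + t * d i ≤ n + 3) →
      ∑ j, farkasF_s v w j * ∑ i, d i * v i j ≤ 0 := by
    intro d hd
    refine farkasF_lin (C := ∑ j, (∑ i, d i * v i j) ^ 2) fun t ht0 ht1 => ?_
    have h1 := hle _ (hd t ht0 ht1)
    have h2 : ∑ j, (farkasF_s v (fun i => w i + t * d i) j) ^ 2 = ∑ j, (farkasF_s v w j) ^ 2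
        + (-(2 * t * ∑ j, farkasF_s v w j * ∑ i, d i * v i j) +
          t ^ 2 * ∑ j, (∑ i, d i * v i j) ^ 2) := by
      rw [Finset.mul_sum, Finset.mul_sum, ← Finset.sum_neg_distrib, ← Finset.sum_add_distrib,
        ← Finset.sum_add_distrib]
      refine Finset.sum_congr rfl fun j _ => ?_
      have h3 : farkasF_s v (fun i => w i + t * d i) j = farkasF_s v w j - t * ∑ i, d i * v i j := by
        unfold farkasF_s
        have : ∑ i, (w i + t * d i) * v i j = ∑ i, w i * v i j + t * ∑ i, d i * v i j := by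
          rw [Finset.mul_sum, ← Finset.sum_add_distrib]
          refine Finset.sum_congr rfl fun i _ => ?_
          ring
        rw [this]
        ring
      rw [h3]
      ring
    rw [h2] at h1
    linarith
  have k1 : ∀ i, ∑ j, farkasF_s v w j * v i j ≤ 0 := by
    intro i
    have h1 := hdir (fun i' => if i' = i then 1 else 0) (by
      intro t ht0 ht1 i'
      have h2 := w0 i'
      have h3 := hwb i'
      by_cases h4 : i' = i
      · rw [if_pos h4]
        constructor <;> linarith
      · rw [if_neg h4]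
        constructor <;> linarith)
    refine le_trans (le_of_eq ?_) h1
    refine Finset.sum_congr rfl fun j _ => ?_
    have : ∑ i', (if i' = i then (1 : ℝ) else 0) * v i' j = v i j := by
      simp only [ite_mul, one_mul, zero_mul]
      rw [Finset.sum_ite_eq']
      simp
    rw [this]
  have k2 : 0 ≤ ∑ j, farkasF_s v w j * ∑ i, w i * v i j := by
    have h1 := hdir (fun i => -w i) (by
      intro t ht0 ht1 i
      have h2 := w0 i
      have h3 := wB i
      constructor <;> nlinarith)
    have h2 : ∑ j, farkasF_s v w j * ∑ i, -w i * v i j = -∑ j, farkasF_s v w j * ∑ i, w i * v i j := by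
      rw [← Finset.sum_neg_distrib]
      refine Finset.sum_congr rfl fun j _ => ?_
      have : ∑ i, -w i * v i j = -∑ i, w i * v i j := by
        rw [← Finset.sum_neg_distrib]
        refine Finset.sum_congr rfl fun i _ => ?_
        ring
      rw [this]
      ring
    rw [h2] at h1
    linarith
  have k3 := h w w0 k1
  have k4 : ∑ j, farkasF_s v w j = ∑ j, (farkasF_s v w j) ^ 2 +
      ∑ j, farkasF_s v w j * ∑ i, w i * v i j := by
    rw [← Finset.sum_add_distrib]
    refine Finset.sum_congr rfl fun j _ => ?_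
    have : ∑ i, w i * v i j = 1 - farkasF_s v w j := by unfold farkasF_s; ring
    rw [this]
    ring
  have k5 : ∑ j, (farkasF_s v w j) ^ 2 = 0 :=
    le_antisymm (by linarith) (Finset.sum_nonneg fun j _ => sq_nonneg _)
  refine ⟨w, w0, fun j => ?_⟩
  have h1 := (Finset.sum_eq_zero_iff_of_nonneg (fun j _ => sq_nonneg (farkasF_s v w j))).1 k5 j
    (Finset.mem_univ j)
  have h2 : farkasF_s v w j = 0 := pow_eq_zero_iff (two_ne_zero) |>.1 h1
  unfold farkasF_s at h2
  linarith

/-- the number of edges of `F` over the pair `(a, b)` -/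
noncomputable def farkasF_v {W V : Type} [Fintype W] (F : SimpleGraph W) (f : W → V) (a b : V) : ℝ :=
  ∑ i, ∑ j, (if F.Adj i j ∧ f i = a ∧ f j = b then 1 else 0)

lemma farkasF_v_symm {W V : Type} [Fintype W] (F : SimpleGraph W) (f : W → V) (a b : V) :
    farkasF_v F f a b = farkasF_v F f b a := by
  unfold farkasF_v
  rw [Finset.sum_comm]
  refine Finset.sum_congr rfl fun i _ => Finset.sum_congr rfl fun j _ => ?_
  have : (F.Adj j i ∧ f j = a ∧ f i = b) ↔ (F.Adj i j ∧ f i = b ∧ f j = a) := by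
    rw [F.adj_comm]
    tauto
  simp only [this]

lemma farkasF_v_val {W V : Type} [Fintype W] (F : SimpleGraph W) {f : W → V}
    (hf : Function.Injective f) (a b : V) :
    farkasF_v F f a b = if ∃ i j, F.Adj i j ∧ f i = a ∧ f j = b then 1 else 0 := by
  unfold farkasF_v
  by_cases h : ∃ i j, F.Adj i j ∧ f i = a ∧ f j = b
  · rw [if_pos h]
    obtain ⟨i, j, hij, hi, hj⟩ := h
    rw [Finset.sum_eq_single i, Finset.sum_eq_single j]
    · rw [if_pos ⟨hij, hi, hj⟩]
    · intro j' _ hj'
      rw [if_neg]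
      rintro ⟨_, _, h⟩
      exact hj' (hf (h.trans hj.symm))
    · intro h
      exact absurd (Finset.mem_univ _) h
    · intro i' _ hi'
      refine Finset.sum_eq_zero fun j' _ => ?_
      rw [if_neg]
      rintro ⟨_, h, _⟩
      exact hi' (hf (h.trans hi.symm))
    · intro h
      exact absurd (Finset.mem_univ _) h
  · rw [if_neg h]
    refine Finset.sum_eq_zero fun i _ => Finset.sum_eq_zero fun j _ => ?_
    rw [if_neg]
    exact fun h' => h ⟨i, j, h'⟩

theorem farkasF {W V : Type} [Fintype W] [Fintype V] (F : SimpleGraph W) (hF : F ≠ ⊥)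
    (G : SimpleGraph V)
    (h : ∀ r : V → V → ℝ, (∀ a b, r a b = r b a) →
      (∀ f : W → V, Function.Injective f → (∀ i j, F.Adj i j → G.Adj (f i) (f j)) →
        ∑ i, ∑ j, (if F.Adj i j then r (f i) (f j) else 0) ≤ 0) →
      ∑ a, ∑ b, ext G r a b ≤ 0) :
    ∃ w, IsFracDecomp F G w := by
  obtain ⟨p, q, hpq⟩ : ∃ p q, F.Adj p q := by
    by_contra hcon
    push Not at hcon
    apply hF
    ext a b
    simp [hcon a b]
  let I : Type := {f : W → V // Function.Injective f ∧ ∀ i j, F.Adj i j → G.Adj (f i) (f j)}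
  let J : Type := {x : V × V // G.Adj x.1 x.2}
  let v : I → J → ℝ := fun f x => farkasF_v F f.1 x.1.1 x.1.2
  have v0 : ∀ f x, 0 ≤ v f x := fun f x => Finset.sum_nonneg fun i _ => Finset.sum_nonneg fun j _ => by
    show (0 : ℝ) ≤ if _ then 1 else 0
    split_ifs
    · exact zero_le_one
    · exact le_rfl
  have v1 : ∀ f, ∃ x, 1 ≤ v f x := by
    intro f
    refine ⟨⟨(f.1 p, f.1 q), f.2.2 p q hpq⟩, ?_⟩
    show 1 ≤ farkasF_v F f.1 (f.1 p) (f.1 q)
    rw [farkasF_v_val F f.2.1, if_pos ⟨p, q, hpq, rfl, rfl⟩]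
  obtain ⟨w, w0, wcov⟩ := farkasF_gen v v0 v1 (by
    intro w _ hk
    set s : J → ℝ := farkasF_s v w with hs
    let r : V → V → ℝ := fun a b => if hab : G.Adj a b then s ⟨(a, b), hab⟩ else 0
    have hr : ∀ x : J, r x.1.1 x.1.2 = s x := fun x => dif_pos x.2
    have hsum : ∀ g : V → V → ℝ, ∑ a, ∑ b, ext G g a b = ∑ x : J, g x.1.1 x.1.2 := by
      intro g
      have e1 : ∑ a, ∑ b, ext G g a b = ∑ x : V × V, ext G g x.1 x.2 :=
        (Fintype.sum_prod_type' (fun a b => ext G g a b)).symm
      have e2 : ∑ x : V × V, ext G g x.1 x.2 =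
          ∑ x ∈ univ.filter (fun x : V × V => G.Adj x.1 x.2), g x.1 x.2 := by
        rw [Finset.sum_filter]
        rfl
      rw [e1, e2]
      exact Finset.sum_subtype (p := fun x : V × V => G.Adj x.1 x.2)
        (univ.filter (fun x : V × V => G.Adj x.1 x.2)) (by simp) (fun x => g x.1 x.2)
    have hmain := h r (by
      intro a b
      show (if hab : G.Adj a b then s ⟨(a, b), hab⟩ else 0) =
        (if hab : G.Adj b a then s ⟨(b, a), hab⟩ else 0)
      by_cases hab : G.Adj a b
      · rw [dif_pos hab, dif_pos hab.symm]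
        show farkasF_s v w _ = farkasF_s v w _
        unfold farkasF_s
        have : ∀ f : I, v f ⟨(a, b), hab⟩ = v f ⟨(b, a), hab.symm⟩ := fun f => farkasF_v_symm F f.1 a b
        simp only [this]
      · rw [dif_neg hab, dif_neg (fun h => hab h.symm)]) (by
      intro f hf hfG
      have h1 := hk ⟨f, hf, hfG⟩
      refine le_trans (le_of_eq ?_) h1
      have e1 : ∀ x : J, s x * v ⟨f, hf, hfG⟩ x = ∑ i, ∑ j,
          (if F.Adj i j ∧ f i = x.1.1 ∧ f j = x.1.2 then s x else 0) := by
        intro x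
        show s x * ∑ i, ∑ j, (if F.Adj i j ∧ f i = x.1.1 ∧ f j = x.1.2 then (1 : ℝ) else 0) = _
        rw [Finset.mul_sum]
        refine Finset.sum_congr rfl fun i _ => ?_
        rw [Finset.mul_sum]
        refine Finset.sum_congr rfl fun j _ => ?_
        split_ifs <;> simp
      have e2 : ∑ x : J, s x * v ⟨f, hf, hfG⟩ x = ∑ i, ∑ j, ∑ x : J,
          (if F.Adj i j ∧ f i = x.1.1 ∧ f j = x.1.2 then s x else 0) := by
        rw [Finset.sum_congr rfl fun x _ => e1 x, Finset.sum_comm]
        exact Finset.sum_congr rfl fun i _ => Finset.sum_comm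
      refine Eq.trans ?_ e2.symm
      refine Finset.sum_congr rfl fun i _ => Finset.sum_congr rfl fun j _ => ?_
      by_cases hij : F.Adj i j
      · rw [if_pos hij, Finset.sum_eq_single (⟨(f i, f j), hfG i j hij⟩ : J)]
        · rw [if_pos ⟨hij, rfl, rfl⟩]
          exact hr ⟨(f i, f j), hfG i j hij⟩
        · intro x _ hx
          rw [if_neg]
          rintro ⟨_, h2, h3⟩
          exact hx (Subtype.ext (Prod.ext h2.symm h3.symm))
        · intro h
          exact absurd (Finset.mem_univ _) h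
      · rw [if_neg hij]
        symm
        refine Finset.sum_eq_zero fun x _ => ?_
        rw [if_neg (fun h => hij h.1)])
    rw [hsum r] at hmain
    exact le_trans (le_of_eq (Finset.sum_congr rfl fun x _ => (hr x).symm)) hmain)
  -- the weights of the copies
  let w' : G.Subgraph → ℝ := fun H => ∑ f : I, if Pool.H34.Dec.sub F G f.1 = H then w f else 0
  have w'0 : ∀ H, 0 ≤ w' H := by
    intro H
    refine Finset.sum_nonneg fun f _ => ?_
    split_ifs
    · exact w0 f
    · exact le_rfl
  have w'iso : ∀ H, w' H ≠ 0 → Nonempty (F ≃g H.coe) := by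
    intro H hH
    obtain ⟨f, _, hf⟩ := Finset.exists_ne_zero_of_sum_ne_zero hH
    by_cases hs : Pool.H34.Dec.sub F G f.1 = H
    · rw [← hs]
      exact Pool.H34.Dec.sub_iso F G f.1 f.2.1 f.2.2
    · rw [if_neg hs] at hf
      exact absurd rfl hf
  have w'cov : ∀ e ∈ G.edgeSet, ∑ H ∈ univ.filter (fun H : G.Subgraph => e ∈ H.edgeSet), w' H = 1 := by
    intro e
    induction e using Sym2.ind with
    | _ a b =>
      intro hab
      rw [SimpleGraph.mem_edgeSet] at hab
      rw [Finset.sum_filter]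
      have e1 : ∀ H : G.Subgraph, (if s(a, b) ∈ H.edgeSet then w' H else 0) =
          ∑ f : I, (if Pool.H34.Dec.sub F G f.1 = H then
            (if s(a, b) ∈ (Pool.H34.Dec.sub F G f.1).edgeSet then w f else 0) else 0) := by
        intro H
        by_cases h : s(a, b) ∈ H.edgeSet
        · rw [if_pos h]
          refine Finset.sum_congr rfl fun f _ => ?_
          by_cases hs : Pool.H34.Dec.sub F G f.1 = H
          · rw [if_pos hs, if_pos hs, if_pos (by rw [hs]; exact h)]
          · rw [if_neg hs, if_neg hs]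
        · rw [if_neg h]
          symm
          refine Finset.sum_eq_zero fun f _ => ?_
          by_cases hs : Pool.H34.Dec.sub F G f.1 = H
          · rw [if_pos hs, if_neg (by rw [hs]; exact h)]
          · rw [if_neg hs]
      rw [Finset.sum_congr rfl (fun H _ => e1 H), Finset.sum_comm, ← wcov ⟨(a, b), hab⟩]
      refine Finset.sum_congr rfl fun f _ => ?_
      rw [Finset.sum_ite_eq]
      rw [if_pos (Finset.mem_univ _)]
      have hmem : s(a, b) ∈ (Pool.H34.Dec.sub F G f.1).edgeSet ↔
          ∃ i j, F.Adj i j ∧ f.1 i = a ∧ f.1 j = b := by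
        rw [SimpleGraph.Subgraph.mem_edgeSet]
        constructor
        · rintro ⟨_, h⟩; exact h
        · intro h; exact ⟨hab, h⟩
      show _ = w f * farkasF_v F f.1 a b
      rw [farkasF_v_val F f.2.1]
      by_cases hh : ∃ i j, F.Adj i j ∧ f.1 i = a ∧ f.1 j = b
      · rw [if_pos hh, if_pos (hmem.2 hh), mul_one]
      · rw [if_neg hh, if_neg (fun h => hh (hmem.1 h)), mul_zero]
  refine ⟨w', fun H => ⟨w'0 H, ?_⟩, w'iso, w'cov⟩
  by_cases hH : w' H = 0
  · rw [hH]; exact zero_le_one
  · obtain ⟨φ⟩ := w'iso H hH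
    have hadj : H.coe.Adj (φ p) (φ q) := φ.map_rel_iff'.2 hpq
    have hadj' : H.Adj (φ p) (φ q) := hadj
    have he : s(((φ p : H.verts) : V), ((φ q : H.verts) : V)) ∈ H.edgeSet := by
      rw [SimpleGraph.Subgraph.mem_edgeSet]; exact hadj'
    rw [← w'cov _ (H.edgeSet_subset he)]
    exact Finset.single_le_sum (f := w') (fun H' _ => w'0 H') (Finset.mem_filter.2 ⟨Finset.mem_univ _, he⟩)

end Pool.OCY
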