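import Pool.Agent.OCY.Box
import Pool.Agent.OCY.Cyc4
import Pool.Agent.OCY.Cyc3

/-!
MODULE Few (difficulty 2).  There are few violating quadruples and triples.

RECIPE: `box 4 (2k+2) τ` and `box 3 k τ` with `P x = P4 G (2k) r (x 0) (x 1) (x 2) (x 3)`; if there were more than
`τ n ^ 4` quadruples, the box contradicts `cyc4` (for given `a, b, c, d` in the four sets use `x = ![a, b, c, d]`).
The number of `x : Fin 4 → V` with `P x` equals the number of `(a, b, c, d) : V × V × V × V` (bijection).
Take the maximum of the two `n₀`.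
-/

open Finset
open scoped Classical

namespace Pool.OCY

theorem few {k : ℕ} (hk : 2 ≤ k) {τ : ℝ} (hτ : 0 < τ) : ∃ n₀ : ℕ, ∀ (V : Type) [Fintype V],
    n₀ ≤ Fintype.card V → ∀ (G : SimpleGraph V) (r : V → V → ℝ), (∀ a b, r a b = r b a) →
      CycNonpos G (2 * k + 1) r →
      ((univ.filter fun x : V × V × V × V => P4 G (2 * k) r x.1 x.2.1 x.2.2.1 x.2.2.2).card : ℝ)
        ≤ τ * (Fintype.card V : ℝ) ^ 4 ∧
      ((univ.filter fun x : V × V × V => P3 G (2 * k) r x.1 x.2.1 x.2.2).card : ℝ)
        ≤ τ * (Fintype.card V : ℝ) ^ 3 := by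
  obtain ⟨n1, h1⟩ := box 4 (2 * k + 2) τ hτ
  obtain ⟨n2, h2⟩ := box 3 k τ hτ
  refine ⟨max n1 n2, ?_⟩
  intro V _ hn G r hs hr
  constructor
  · by_contra hlt
    push Not at hlt
    have hc : (univ.filter fun x : V × V × V × V =>
        P4 G (2 * k) r x.1 x.2.1 x.2.2.1 x.2.2.2).card =
        (univ.filter fun x : Fin 4 → V => P4 G (2 * k) r (x 0) (x 1) (x 2) (x 3)).card := by
      refine Finset.card_bij' (fun q _ => ![q.1, q.2.1, q.2.2.1, q.2.2.2])
        (fun x _ => (x 0, x 1, x 2, x 3)) ?_ ?_ ?_ ?_
      · intro q hq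
        simp only [mem_filter, mem_univ, true_and] at hq ⊢
        exact hq
      · intro x hx
        simp only [mem_filter, mem_univ, true_and] at hx ⊢
        exact hx
      · intro q hq
        rfl
      · intro x hx
        funext i
        fin_cases i <;> rfl
    rw [hc] at hlt
    obtain ⟨X, hX1, hX2⟩ := h1 V (le_trans (le_max_left _ _) hn)
      (fun x : Fin 4 → V => P4 G (2 * k) r (x 0) (x 1) (x 2) (x 3)) hlt.le
    refine cyc4 hk hs hr X hX1 ?_
    intro a ha b hb c hc d hd
    have := hX2 ![a, b, c, d] (by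
      intro i
      fin_cases i
      · exact ha
      · exact hb
      · exact hc
      · exact hd)
    exact this
  · by_contra hlt
    push Not at hlt
    have hc : (univ.filter fun x : V × V × V =>
        P3 G (2 * k) r x.1 x.2.1 x.2.2).card =
        (univ.filter fun x : Fin 3 → V => P3 G (2 * k) r (x 0) (x 1) (x 2)).card := by
      refine Finset.card_bij' (fun q _ => ![q.1, q.2.1, q.2.2])
        (fun x _ => (x 0, x 1, x 2)) ?_ ?_ ?_ ?_
      · intro q hq
        simp only [mem_filter, mem_univ, true_and] at hq ⊢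
        exact hq
      · intro x hx
        simp only [mem_filter, mem_univ, true_and] at hx ⊢
        exact hx
      · intro q hq
        rfl
      · intro x hx
        funext i
        fin_cases i <;> rfl
    rw [hc] at hlt
    obtain ⟨X, hX1, hX2⟩ := h2 V (le_trans (le_max_right _ _) hn)
      (fun x : Fin 3 → V => P3 G (2 * k) r (x 0) (x 1) (x 2)) hlt.le
    refine cyc3 hk hs hr X hX1 ?_
    intro a ha b hb c hc
    have := hX2 ![a, b, c] (by
      intro i
      fin_cases i
      · exact ha
      · exact hb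
      · exact hc)
    exact this

end Pool.OCY
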