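import Pool.Agent.OCY.Phi

/-! One missing pair. -/

open Finset
open scoped Classical

namespace Pool.OCY

/-- value of the multipliers at an edge with one full end -/
lemma gE {T : ℝ} (hT : 3 ≤ T) (x x' : ℝ) :
    (-((T - 2) * (x + x')) ≤ 2 * (-(T - 1) * phi T x x' + phi T x' x)) ∨
    (x + x' ≤ 0 ∧ (T - 2) * (x + x') ≤ 2 * T * (-(T - 1) * phi T x x' + phi T x' x)) ∨
    ((T + 2) * x + T * x' ≤ 0 ∧ 0 ≤ x' ∧
      (T - 2) * x ≤ T * (-(T - 1) * phi T x x' + phi T x' x)) := by
  have hT0 : 0 < T := by linarith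
  have g1 := phi_1' T x' x
  have g2 := phi_2' hT0 x' x
  have g3 := phi_3' hT0 x' x
  have g4 := phi_4' hT0 x' x
  set G := phi T x' x with hG
  rcases phi_cases hT0 x x' with ⟨e, q1, q2, q3⟩ | ⟨e, q1, q2, q3⟩ | ⟨e, q1, q2, q3⟩ | ⟨e, q1, q2, q3⟩
  · left
    set P := phi T x x' with hP
    have h1 : (T - 1) * (2 * P) = (T - 1) * (x + x') := by rw [e]
    linarith
  · right; left
    set P := phi T x x' with hP
    have h1 : (T - 1) * (2 * T * P) = (T - 1) * (-(x + x')) := by rw [e]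
    exact ⟨q1, by linarith⟩
  · right; right
    set P := phi T x x' with hP
    have h1 : (T - 1) * (2 * T ^ 2 * P) = (T - 1) * (T * (x' - x) + 2 * x) := by rw [e]
    have r1 : (T + 2) * x + T * x' ≤ 0 := by
      have : (T - 1) * ((T + 2) * x + T * x') ≤ (T - 1) * 0 := by linarith
      exact le_of_mul_le_mul_left this (by linarith)
    have r2 : -x ≤ T * x' := by linarith
    refine ⟨r1, ?_, ?_⟩
    · have h8 := mul_le_mul_of_nonneg_left r2 (by linarith : (0 : ℝ) ≤ T + 2)
      have h9 : 0 ≤ (T * (T + 1)) * x' := by linarith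
      exact nonneg_of_mul_nonneg_right h9 (by positivity)
    · have : (2 * T) * ((T - 2) * x) ≤ (2 * T) * (T * (-(T - 1) * P + G)) := by linarith
      exact le_of_mul_le_mul_left this (by positivity)
  · left
    set P := phi T x x' with hP
    have h1 : (T - 1) * (2 * T ^ 2 * P) = (T - 1) * (T * (T - 1) * (x + x') - 2 * x') := by rw [e]
    have : T ^ 2 * (-((T - 2) * (x + x'))) ≤ T ^ 2 * (2 * (-(T - 1) * P + G)) := by linarith
    exact le_of_mul_le_mul_left this (by positivity)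

section

variable {T x x' z z' p q q' w : ℝ}

/-- the collected bounds -/
structure B1 (T x x' z z' p q q' w : ℝ) : Prop where
  hT : 3 ≤ T
  c1 : p ≤ x + z
  c2 : q ≤ x + z'
  c3 : q' ≤ x' + z
  w1 : x + x' ≤ w
  w2 : z + z' ≤ w
  w3 : p ≤ w
  w4 : q ≤ w
  w5 : q' ≤ w
  t1 : x + x' + p + q' + (T - 2) * w ≤ 0
  t2 : z + z' + p + q + (T - 2) * w ≤ 0

lemma B1.swap (h : B1 T x x' z z' p q q' w) : B1 T z z' x x' p q' q w :=
  ⟨h.hT, by linarith [h.c1], by linarith [h.c3], by linarith [h.c2], h.w2, h.w1, h.w3, h.w5, h.w4,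
    h.t2, h.t1⟩

/-- every lower bound of `w` gives an upper bound -/
lemma B1.u1 (h : B1 T x x' z z' p q q' w) {u : ℝ} (hu : u ≤ w) : p + q + q' ≤ -((T - 2) * u) := by
  have := mul_le_mul_of_nonneg_left hu (by linarith [h.hT] : (0 : ℝ) ≤ T - 2)
  linarith [h.t1, h.t2, h.c2, h.c3]

lemma B1.k1 (h : B1 T x x' z z' p q q' w) :
    (T - 1) * (p + q + q') ≤ (T - 2) * (x + x' + (z + z')) := by
  have h1 := h.u1 h.w3
  have h2 : p + q + q' ≤ p + (x + x') + (z + z') := by linarith [h.c2, h.c3]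
  have h3 := mul_le_mul_of_nonneg_left h2 (by linarith [h.hT] : (0 : ℝ) ≤ T - 2)
  linarith

lemma B1.l11 (h : B1 T x x' z z' p q q' w) :
    2 * (p + q + q') ≤ -((T - 2) * (x + x' + (z + z'))) := by
  have h1 := h.u1 h.w1
  have h2 := h.u1 h.w2
  linarith

lemma B1.l21 (h : B1 T x x' z z' p q q' w) :
    2 * T * (p + q + q') ≤ (T - 2) * (x + x') - T * (T - 2) * (z + z') := by
  have hT := h.hT
  have hT0 : 0 < T := by linarith
  rcases le_total 0 (T * (z + z') + (x + x')) with hc | hc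
  · have h1 := mul_le_mul_of_nonneg_left (h.u1 h.w2) (by linarith : (0 : ℝ) ≤ 2 * T)
    have h2 := mul_nonneg (by linarith : (0 : ℝ) ≤ T - 2) hc
    linarith
  · have h1 := mul_le_mul_of_nonneg_left h.k1 (by linarith : (0 : ℝ) ≤ 2 * T)
    have h2 := mul_nonneg (mul_nonneg (by linarith : (0 : ℝ) ≤ T - 2) (by linarith : (0 : ℝ) ≤ T + 1))
      (neg_nonneg.2 hc)
    have : (T - 1) * (2 * T * (p + q + q'))
        ≤ (T - 1) * ((T - 2) * (x + x') - T * (T - 2) * (z + z')) := by
      linarith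
    exact le_of_mul_le_mul_left this (by linarith)

lemma B1.l22 (h : B1 T x x' z z' p q q' w) (h1 : x + x' ≤ 0) (h2 : z + z' ≤ 0) :
    2 * T * (p + q + q') ≤ (T - 2) * (x + x' + (z + z')) := by
  have hT := h.hT
  have h3 := mul_le_mul_of_nonneg_left h.k1 (by linarith : (0 : ℝ) ≤ 2 * T)
  have h4 := mul_nonneg (mul_nonneg (by linarith : (0 : ℝ) ≤ T - 2) (by linarith : (0 : ℝ) ≤ T + 1))
      (by linarith : 0 ≤ -(x + x' + (z + z')))
  have : (T - 1) * (2 * T * (p + q + q')) ≤ (T - 1) * ((T - 2) * (x + x' + (z + z'))) := by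
    linarith
  exact le_of_mul_le_mul_left this (by linarith)

lemma B1.l31 (h : B1 T x x' z z' p q q' w) :
    2 * T * (p + q + q') ≤ 2 * (T - 2) * x - T * (T - 2) * (z + z') := by
  have hT := h.hT
  have hT0 : 0 < T := by linarith
  rcases le_total (T * (2 * z + T * (z + z'))) (2 * (-2 * x - T * (x + x'))) with hc | hc
  · have h2 : p + q + q' ≤ x + z + (x + x') + (z + z') := by linarith [h.c1, h.c2, h.c3]
    have h3 := mul_le_mul_of_nonneg_left h2 (by linarith : (0 : ℝ) ≤ 2 * T)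
    linarith
  · rcases le_total 0 (T * (z + z') + 2 * x) with hd | hd
    · have h1 := mul_le_mul_of_nonneg_left (h.u1 h.w2) (by linarith : (0 : ℝ) ≤ 2 * T)
      have h2 := mul_nonneg (by linarith : (0 : ℝ) ≤ T - 2) hd
      linarith
    · have h1 := mul_le_mul_of_nonneg_left h.w2 (by linarith : (0 : ℝ) ≤ T - 2)
      have h2 : p + q + q' ≤ x + z' - (x + x') - (T - 2) * (z + z') := by linarith [h.c2, h.t1]
      have h3 := mul_le_mul_of_nonneg_left h2 (by linarith : (0 : ℝ) ≤ 2 * T)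
      linarith

lemma B1.l32 (h : B1 T x x' z z' p q q' w) (h1 : (T + 2) * x + T * x' ≤ 0) (h2 : 0 ≤ x')
    (h3 : z + z' ≤ 0) :
    2 * T * (p + q + q') ≤ 2 * (T - 2) * x + (T - 2) * (z + z') := by
  have hT := h.hT
  have hT0 : 0 < T := by linarith
  rcases le_total (2 * T * z + (T + 2) * (z + z')) (2 * (-2 * x - T * (x + x'))) with hc | hc
  · have h2 : p + q + q' ≤ x + z + (x + x') + (z + z') := by linarith [h.c1, h.c2, h.c3]
    have h3 := mul_le_mul_of_nonneg_left h2 (by linarith : (0 : ℝ) ≤ 2 * T)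
    linarith
  · have h4 := mul_le_mul_of_nonneg_left h.w3 (by linarith : (0 : ℝ) ≤ T - 2)
    have h5 := mul_le_mul_of_nonneg_left h.w5 (by linarith : (0 : ℝ) ≤ T - 2)
    have h6 : T * (p + q') ≤ -(2 * (x + x')) := by linarith [h.t1]
    have h7 := mul_le_mul_of_nonneg_left h.c2 hT0.le
    have h8 : 0 ≤ (T + 2) * (-(z + z')) := mul_nonneg (by linarith) (by linarith)
    linarith

lemma B1.l33 (h : B1 T x x' z z' p q q' w) (h1 : (T + 2) * x + T * x' ≤ 0)
    (h2 : (T + 2) * z + T * z' ≤ 0) :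
    T * (p + q + q') ≤ (T - 2) * (x + z) := by
  have hT := h.hT
  have h2 : p + q + q' ≤ x + z + (x + x') + (z + z') := by linarith [h.c1, h.c2, h.c3]
  have h3 := mul_le_mul_of_nonneg_left h2 (by linarith : (0 : ℝ) ≤ T)
  linarith

/-- the pair `a'c` is missing: `p = ab`, `q = ac`, `q' = a'b` -/
lemma pat1 (h : B1 T x x' z z' p q q' w) :
    p + q + q' ≤ -(T - 1) * phi T x x' + phi T x' x + (-(T - 1) * phi T z z' + phi T z' z) := by
  have hT := h.hT
  have hT0 : 0 < T := by linarith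
  set ge := -(T - 1) * phi T x x' + phi T x' x with hge
  set gf := -(T - 1) * phi T z z' + phi T z' z with hgf
  have key : 2 * T * (p + q + q') ≤ 2 * T * (ge + gf) → p + q + q' ≤ ge + gf := fun h =>
    le_of_mul_le_mul_left h (by positivity)
  rcases gE hT x x' with he | ⟨he0, he⟩ | ⟨he0, he1, he⟩ <;>
    rcases gE hT z z' with hf | ⟨hf0, hf⟩ | ⟨hf0, hf1, hf⟩ <;> rw [← hge] at he <;>
    rw [← hgf] at hf
  · have := h.l11
    linarith
  · apply key
    have h1 := h.swap.l21
    have h2 := mul_le_mul_of_nonneg_left he hT0.le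
    linarith
  · apply key
    have h1 := h.swap.l31
    have h2 := mul_le_mul_of_nonneg_left he hT0.le
    linarith
  · apply key
    have h1 := h.l21
    have h2 := mul_le_mul_of_nonneg_left hf hT0.le
    linarith
  · apply key
    have h1 := h.l22 he0 hf0
    linarith
  · apply key
    have h1 := h.swap.l32 hf0 hf1 he0
    linarith
  · apply key
    have h1 := h.l31
    have h2 := mul_le_mul_of_nonneg_left hf hT0.le
    linarith
  · apply key
    have h1 := h.l32 he0 he1 hf0
    linarith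
  · apply key
    have h1 := h.l33 he0 hf0
    linarith

end

end Pool.OCY
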