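import Pool.Agent.OCY.Phi

/-! Two or more missing pairs. -/

open Finset
open scoped Classical

namespace Pool.OCY

lemma half3 {T : ℝ} (hT : 3 ≤ T) (x x' : ℝ) : x ≤ phi T x x' + (T + 1) * phi T x' x := by
  have hT0 : 0 < T := by linarith
  have h1 := phi_4' hT0 x x'
  have h2 := mul_le_mul_of_nonneg_left (phi_3' hT0 x' x) (by linarith : (0 : ℝ) ≤ T + 1)
  have h3 : 2 * T ^ 2 * x ≤ 2 * T ^ 2 * (phi T x x' + (T + 1) * phi T x' x) := by linarith
  exact le_of_mul_le_mul_left h3 (by positivity)

/-- only the pair `ab` is present -/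
lemma pat3 {T : ℝ} (hT : 3 ≤ T) {x x' z z' ab : ℝ} (c1 : ab ≤ x + z) :
    ab ≤ phi T x x' + (T + 1) * phi T x' x + (phi T z z' + (T + 1) * phi T z' z) := by
  have := half3 hT x x'
  have := half3 hT z z'
  linarith

/-- present pairs `ab`, `a'c` -/
lemma pat2o {T : ℝ} {x x' z z' ab a'c : ℝ} (c1 : ab ≤ x + z) (c4 : a'c ≤ x' + z') :
    ab + a'c ≤ phi T x x' + phi T x' x + (phi T z z' + phi T z' z) := by
  have := phi_1' T x x'
  have := phi_1' T x' x
  have := phi_1' T z z'
  have := phi_1' T z' z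
  linarith

/-- present pairs `ab`, `ac`: triangle `a b c` -/
lemma pat2c {T : ℝ} (hT : 3 ≤ T) {x x' z z' ab ac w : ℝ}
    (c1 : ab ≤ x + z) (c2 : ac ≤ x + z') (w1 : x + x' ≤ w) (w3 : ab ≤ w)
    (w4 : ac ≤ w) (t : z + z' + ab + ac + (T - 2) * w ≤ 0) :
    ab + ac ≤ -(T - 1) * phi T x x' + (T + 1) * phi T x' x + (phi T z z' + phi T z' z) := by
  have hT0 : 0 < T := by linarith
  have hs : 0 ≤ T - 2 := by linarith
  -- bounds for the left hand side
  have k1 : ab + ac ≤ 2 * x + (z + z') := by linarith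
  have k2 : T * (ab + ac) ≤ -(2 * (z + z')) := by
    have h1 := mul_le_mul_of_nonneg_left w3 hs
    have h2 := mul_le_mul_of_nonneg_left w4 hs
    linarith
  have k3 : ab + ac ≤ -(z + z') - (T - 2) * (x + x') := by
    have h1 := mul_le_mul_of_nonneg_left w1 hs
    linarith
  set Λ := ab + ac with hΛ
  -- lower bounds for the multipliers
  have f1 := phi_1' T z z'
  have f2 := phi_1' T z' z
  have f3 := phi_2' hT0 z z'
  have f4 := phi_2' hT0 z' z
  have g1 := phi_1' T x' x
  have g2 := phi_2' hT0 x' x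
  have g3 := phi_3' hT0 x' x
  set F := phi T z z' + phi T z' z with hF
  have F1 : z + z' ≤ F := by linarith
  have F2 : -(z + z') ≤ T * F := by linarith
  set G := phi T x' x with hG
  have hG0 : 0 ≤ G := phi_nonneg hT0 _ _
  have hF0 : 0 ≤ F := add_nonneg (phi_nonneg hT0 _ _) (phi_nonneg hT0 _ _)
  rcases phi_cases hT0 x x' with ⟨e, q1, q2, q3⟩ | ⟨e, q1, q2, q3⟩ | ⟨e, q1, q2, q3⟩ | ⟨e, q1, q2, q3⟩
  · -- phi = r / 2
    set P := phi T x x' with hP
    have hR : x + x' ≤ -(T - 1) * P + (T + 1) * G := by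
      have : (T - 1) * (2 * P) = (T - 1) * (x + x') := by rw [e]
      have := mul_le_mul_of_nonneg_left g1 (by linarith : (0 : ℝ) ≤ T + 1)
      linarith
    rcases le_total 0 (z + z') with hz | hz
    · have : T * Λ ≤ 0 := by linarith
      have : Λ ≤ 0 := by
        by_contra hc
        push Not at hc
        have := mul_pos hT0 hc
        linarith
      linarith
    · -- 4 T Λ ≤ T c1 + T c3 + 2 T c2
      have h1 := mul_le_mul_of_nonneg_left k1 hT0.le
      have h3 := mul_le_mul_of_nonneg_left k3 hT0.le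
      have : T * Λ ≤ T * (x + x') + T * F := by nlinarith
      have : T * Λ ≤ T * (-(T - 1) * P + (T + 1) * G + F) := by
        have := mul_le_mul_of_nonneg_left hR hT0.le
        linarith
      exact le_of_mul_le_mul_left this hT0
  · -- phi = - r / (2 T)
    set P := phi T x x' with hP
    have hR : -(x + x') ≤ T * (-(T - 1) * P + (T + 1) * G) := by
      have h1 : (T - 1) * (2 * T * P) = (T - 1) * (-(x + x')) := by rw [e]
      have h2 := mul_le_mul_of_nonneg_left g2 (by linarith : (0 : ℝ) ≤ T + 1)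
      linarith
    rcases le_total 0 (z + z') with hz | hz
    · have : T * Λ ≤ T * (-(T - 1) * P + (T + 1) * G + F) := by
        have : 0 ≤ T * F := by positivity
        linarith
      exact le_of_mul_le_mul_left this hT0
    · rcases le_total (-(z + z')) (-(x + x')) with hc | hc
      · have : T * Λ ≤ T * (-(T - 1) * P + (T + 1) * G + F) := by linarith
        exact le_of_mul_le_mul_left this hT0
      · -- c1 / 2 + c2 / 2
        have h1 : (T - 1) * (2 * T * P) = (T - 1) * (-(x + x')) := by rw [e]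
        have h3 := mul_le_mul_of_nonneg_left g3 (by linarith : (0 : ℝ) ≤ T + 1)
        have h4 := mul_le_mul_of_nonneg_left k1 (by positivity : (0 : ℝ) ≤ T ^ 2)
        have h5 := mul_le_mul_of_nonneg_left k2 hT0.le
        have h6 := mul_le_mul_of_nonneg_left F2 hT0.le
        have h7 := mul_le_mul_of_nonneg_left hc (by positivity : (0 : ℝ) ≤ T ^ 2)
        have h8 : T * ((T - 1) * (2 * T * P)) = T * ((T - 1) * (-(x + x'))) := by rw [e]
        have : 2 * T ^ 2 * Λ ≤ 2 * T ^ 2 * (-(T - 1) * P + (T + 1) * G + F) := by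
          nlinarith
        exact le_of_mul_le_mul_left this (by positivity)
  · -- phi = A
    set P := phi T x x' with hP
    have h1 : (T - 1) * (2 * T ^ 2 * P) = (T - 1) * (T * (x' - x) + 2 * x) := by rw [e]
    have h2 := mul_le_mul_of_nonneg_left g2 (by positivity : (0 : ℝ) ≤ T * (T + 1))
    have h4 := mul_le_mul_of_nonneg_left k1 (by positivity : (0 : ℝ) ≤ 2 * T ^ 2)
    have h6 := mul_le_mul_of_nonneg_left F1 (by positivity : (0 : ℝ) ≤ 2 * T ^ 2)
    have r1 : (T + 2) * x ≤ -(T * x') := by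
      have : (T - 1) * ((T + 2) * x) ≤ (T - 1) * (-(T * x')) := by linarith
      exact le_of_mul_le_mul_left this (by linarith)
    have r2 : -x ≤ T * x' := by linarith
    have r3 : 0 ≤ x' := by
      have h8 := mul_le_mul_of_nonneg_left r2 (by linarith : (0 : ℝ) ≤ T + 2)
      have h9 : 0 ≤ (T * (T + 1)) * x' := by linarith
      exact nonneg_of_mul_nonneg_right h9 (by positivity)
    have r4 : x ≤ 0 := by
      have h8 : (T + 2) * x ≤ 0 := by
        have : 0 ≤ T * x' := by positivity
        linarith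
      by_contra hc
      push Not at hc
      have : 0 < (T + 2) * x := by positivity
      linarith
    have r5 : x * (2 * T ^ 2 + 2 * T - 1) ≤ -(T ^ 2 * x') := by
      have h8 := mul_le_mul_of_nonneg_left r1 hT0.le
      have h9 : 0 ≤ (-x) * (T ^ 2 - 1) := mul_nonneg (by linarith) (by nlinarith)
      linarith
    have : 2 * T ^ 2 * Λ ≤ 2 * T ^ 2 * (-(T - 1) * P + (T + 1) * G + F) := by
      linarith
    exact le_of_mul_le_mul_left this (by positivity)
  · -- phi = B
    set P := phi T x x' with hP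
    have h1 : (T - 1) * (2 * T ^ 2 * P) = (T - 1) * (T * (T - 1) * (x + x') - 2 * x') := by rw [e]
    have h3 := mul_le_mul_of_nonneg_left g3 (by linarith : (0 : ℝ) ≤ T + 1)
    have R1 : T ^ 2 * (3 - T) * (x + x') - 2 * T * (T - 1) * x'
        ≤ 2 * T ^ 2 * (-(T - 1) * P + (T + 1) * G) := by linarith
    have r2 : 2 * x' ≤ T ^ 2 * (x + x') := by linarith
    rcases le_total 0 (z + z') with hz | hz
    · have h4 : T * Λ ≤ 0 := by linarith
      have h5 : Λ ≤ 0 := by
        by_contra hc
        push Not at hc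
        have := mul_pos hT0 hc
        linarith
      have h6 : 0 ≤ T ^ 2 * (3 - T) * (x + x') - 2 * T * (T - 1) * x' := by
        rcases le_total 0 (x + x') with hr | hr
        · have h7 := mul_le_mul_of_nonneg_left q1 (mul_nonneg hT0.le (by linarith : (0 : ℝ) ≤ T - 1))
          have h8 : 0 ≤ T ^ 2 * (x + x') := by positivity
          linarith
        · have h7 : T ^ 2 * (x + x') ≤ 0 := mul_nonpos_of_nonneg_of_nonpos (by positivity) hr
          have h8 : 0 ≤ T * (T - 1) * (-x') :=
            mul_nonneg (mul_nonneg hT0.le (by linarith)) (by linarith)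
          have h9 : 0 ≤ (T - 3) * (-(T ^ 2 * (x + x'))) := mul_nonneg (by linarith) (by linarith)
          linarith
      have : 2 * T ^ 2 * 0 ≤ 2 * T ^ 2 * (-(T - 1) * P + (T + 1) * G) := by linarith
      have := le_of_mul_le_mul_left this (by positivity)
      linarith
    · have h4 := mul_le_mul_of_nonneg_left k1 (by positivity : (0 : ℝ) ≤ T ^ 2)
      have h5 := mul_le_mul_of_nonneg_left k3 (by positivity : (0 : ℝ) ≤ T ^ 2)
      have h6 := mul_le_mul_of_nonneg_left k2 (by positivity : (0 : ℝ) ≤ 2 * T)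
      have h7 := mul_le_mul_of_nonneg_left F2 (by positivity : (0 : ℝ) ≤ 2 * T)
      have h8 := mul_le_mul_of_nonneg_left q1 (mul_nonneg hT0.le hs)
      have : 2 * T ^ 2 * Λ ≤ 2 * T ^ 2 * (-(T - 1) * P + (T + 1) * G + F) := by
        linarith
      exact le_of_mul_le_mul_left this (by positivity)

end Pool.OCY
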