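import Pool.Agent.OCY.Pat0
import Pool.Agent.OCY.Pat1
import Pool.Agent.OCY.Pat2

/-! The four point inequality on the graph. -/

open Finset
open scoped Classical

namespace Pool.OCY

variable {V : Type*} {G : SimpleGraph V} {T : ℝ} {r : V → V → ℝ} {h : V → ℝ}

lemma ex6 (a b c d e f : ℝ) : ∃ w, (w = a ∨ w = b ∨ w = c ∨ w = d ∨ w = e ∨ w = f) ∧
    a ≤ w ∧ b ≤ w ∧ c ≤ w ∧ d ≤ w ∧ e ≤ w ∧ f ≤ w := by
  have h2 : ∀ a b : ℝ, ∃ w, (w = a ∨ w = b) ∧ a ≤ w ∧ b ≤ w := by
    intro a b
    rcases le_total a b with h | h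
    · exact ⟨b, Or.inr rfl, h, le_refl _⟩
    · exact ⟨a, Or.inl rfl, le_refl _, h⟩
  obtain ⟨u, hu, u1, u2⟩ := h2 a b
  obtain ⟨v, hv, v1, v2⟩ := h2 c d
  obtain ⟨x, hx, x1, x2⟩ := h2 e f
  obtain ⟨y, hy, y1, y2⟩ := h2 u v
  obtain ⟨z, hz, z1, z2⟩ := h2 y x
  refine ⟨z, ?_, u1.trans (y1.trans z1), u2.trans (y1.trans z1), v1.trans (y2.trans z1),
    v2.trans (y2.trans z1), x1.trans z2, x2.trans z2⟩
  rcases hz with rfl | rfl
  · rcases hy with rfl | rfl
    · rcases hu with rfl | rfl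
      · exact Or.inl rfl
      · exact Or.inr (Or.inl rfl)
    · rcases hv with rfl | rfl
      · exact Or.inr (Or.inr (Or.inl rfl))
      · exact Or.inr (Or.inr (Or.inr (Or.inl rfl)))
  · rcases hx with rfl | rfl
    · exact Or.inr (Or.inr (Or.inr (Or.inr (Or.inl rfl))))
    · exact Or.inr (Or.inr (Or.inr (Or.inr (Or.inr rfl))))

/-- the walk condition at the first vertex of a triangle -/
lemma tri1 (hr : Hom G T r) {a b c d : V} (h1 : G.Adj a b) (h2 : G.Adj a c) (h3 : G.Adj b c)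
    (h4 : G.Adj a d) : r a b + r a c + r b c + (T - 2) * r a d ≤ 0 := hr a b c d h1 h2 h3 h4

/-- at the second vertex -/
lemma tri2 (hr : Hom G T r) (hs : ∀ a b, r a b = r b a) {a b c d : V} (h1 : G.Adj a b)
    (h2 : G.Adj a c) (h3 : G.Adj b c) (h4 : G.Adj b d) :
    r a b + r a c + r b c + (T - 2) * r b d ≤ 0 := by
  have := hr b a c d h1.symm h3 h2 h4
  rw [hs b a] at this
  linarith

/-- at the third vertex -/
lemma tri3 (hr : Hom G T r) (hs : ∀ a b, r a b = r b a) {a b c d : V} (h1 : G.Adj a b)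
    (h2 : G.Adj a c) (h3 : G.Adj b c) (h4 : G.Adj c d) :
    r a b + r a c + r b c + (T - 2) * r c d ≤ 0 := by
  have := hr c a b d h2.symm h3.symm h1 h4
  rw [hs c a, hs c b] at this
  linarith

lemma fp0 (hT : 3 ≤ T) (hs : ∀ a b, r a b = r b a) (hr : Hom G T r) (hh : IsPot G r h)
    {a a' b c : V} (he : G.Adj a a') (hf : G.Adj b c) (te : r a a' = h a + h a')
    (tf : r b c = h b + h c) (p1 : G.Adj a b) (p2 : G.Adj a c) (p3 : G.Adj a' b)
    (p4 : G.Adj a' c) :
    r a b + r a c + r a' b + r a' c ≤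
      -((T - 1) * (phi T (h a) (h a') + phi T (h a') (h a) +
        (phi T (h b) (h c) + phi T (h c) (h b)))) := by
  obtain ⟨w, hw, w1, w2, w3, w4, w5, w6⟩ :=
    ex6 (r a a') (r b c) (r a b) (r a c) (r a' b) (r a' c)
  have t1 : r a a' + r a b + r a' b + (T - 2) * w ≤ 0 := by
    rcases hw with rfl | rfl | rfl | rfl | rfl | rfl
    · exact tri1 hr he p1 p3 he
    · exact tri3 hr hs he p1 p3 hf
    · exact tri1 hr he p1 p3 p1
    · exact tri1 hr he p1 p3 p2
    · exact tri2 hr hs he p1 p3 p3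
    · exact tri2 hr hs he p1 p3 p4
  have t2 : r a a' + r a c + r a' c + (T - 2) * w ≤ 0 := by
    rcases hw with rfl | rfl | rfl | rfl | rfl | rfl
    · exact tri1 hr he p2 p4 he
    · rw [hs b c]; exact tri3 hr hs he p2 p4 hf.symm
    · exact tri1 hr he p2 p4 p1
    · exact tri1 hr he p2 p4 p2
    · exact tri2 hr hs he p2 p4 p3
    · exact tri2 hr hs he p2 p4 p4
  have t3 : r a b + r a c + r b c + (T - 2) * w ≤ 0 := by
    rcases hw with rfl | rfl | rfl | rfl | rfl | rfl
    · exact tri1 hr p1 p2 hf he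
    · exact tri2 hr hs p1 p2 hf hf
    · exact tri1 hr p1 p2 hf p1
    · exact tri1 hr p1 p2 hf p2
    · rw [hs a' b]; exact tri2 hr hs p1 p2 hf p3.symm
    · rw [hs a' c]; exact tri3 hr hs p1 p2 hf p4.symm
  have t4 : r a' b + r a' c + r b c + (T - 2) * w ≤ 0 := by
    rcases hw with rfl | rfl | rfl | rfl | rfl | rfl
    · rw [hs a a']; exact tri1 hr p3 p4 hf he.symm
    · exact tri2 hr hs p3 p4 hf hf
    · rw [hs a b]; exact tri2 hr hs p3 p4 hf p1.symm
    · rw [hs a c]; exact tri3 hr hs p3 p4 hf p2.symm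
    · exact tri1 hr p3 p4 hf p3
    · exact tri1 hr p3 p4 hf p4
  rw [te] at w1 t1 t2
  rw [tf] at w2 t3 t4
  exact pat0 (p := r a b) (q := r a c) (q' := r a' b) (p' := r a' c) (w := w)
    ⟨hT, hh _ _ p1, hh _ _ p2, hh _ _ p3, hh _ _ p4, w1, w2, w3, w4, w5, w6,
      by linarith, by linarith, by linarith, by linarith⟩

lemma fp1 (hT : 3 ≤ T) (hs : ∀ a b, r a b = r b a) (hr : Hom G T r) (hh : IsPot G r h)
    {a a' b c : V} (he : G.Adj a a') (hf : G.Adj b c) (te : r a a' = h a + h a')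
    (tf : r b c = h b + h c) (p1 : G.Adj a b) (p2 : G.Adj a c) (p3 : G.Adj a' b) :
    r a b + r a c + r a' b ≤
      -(T - 1) * phi T (h a) (h a') + phi T (h a') (h a) +
        (-(T - 1) * phi T (h b) (h c) + phi T (h c) (h b)) := by
  obtain ⟨w, hw, w1, w2, w3, w4, w5, w6⟩ :=
    ex6 (r a a') (r b c) (r a b) (r a c) (r a' b) (r a' b)
  have t1 : r a a' + r a b + r a' b + (T - 2) * w ≤ 0 := by
    rcases hw with rfl | rfl | rfl | rfl | rfl | rfl
    · exact tri1 hr he p1 p3 he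
    · exact tri3 hr hs he p1 p3 hf
    · exact tri1 hr he p1 p3 p1
    · exact tri1 hr he p1 p3 p2
    · exact tri2 hr hs he p1 p3 p3
    · exact tri2 hr hs he p1 p3 p3
  have t3 : r a b + r a c + r b c + (T - 2) * w ≤ 0 := by
    rcases hw with rfl | rfl | rfl | rfl | rfl | rfl
    · exact tri1 hr p1 p2 hf he
    · exact tri2 hr hs p1 p2 hf hf
    · exact tri1 hr p1 p2 hf p1
    · exact tri1 hr p1 p2 hf p2
    · rw [hs a' b]; exact tri2 hr hs p1 p2 hf p3.symm
    · rw [hs a' b]; exact tri2 hr hs p1 p2 hf p3.symm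
  rw [te] at w1 t1
  rw [tf] at w2 t3
  exact pat1 (p := r a b) (q := r a c) (q' := r a' b) (w := w)
    ⟨hT, hh _ _ p1, hh _ _ p2, hh _ _ p3, w1, w2, w3, w4, w5,
      by linarith, by linarith⟩

lemma fp2 (hT : 3 ≤ T) (hs : ∀ a b, r a b = r b a) (hr : Hom G T r) (hh : IsPot G r h)
    {a a' b c : V} (he : G.Adj a a') (hf : G.Adj b c) (te : r a a' = h a + h a')
    (tf : r b c = h b + h c) (p1 : G.Adj a b) (p2 : G.Adj a c) :
    r a b + r a c ≤
      -(T - 1) * phi T (h a) (h a') + (T + 1) * phi T (h a') (h a) +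
        (phi T (h b) (h c) + phi T (h c) (h b)) := by
  obtain ⟨w, hw, w1, w2, w3, w4, w5, w6⟩ :=
    ex6 (r a a') (r b c) (r a b) (r a c) (r a c) (r a c)
  have t3 : r a b + r a c + r b c + (T - 2) * w ≤ 0 := by
    rcases hw with rfl | rfl | rfl | rfl | rfl | rfl
    · exact tri1 hr p1 p2 hf he
    · exact tri2 hr hs p1 p2 hf hf
    · exact tri1 hr p1 p2 hf p1
    · exact tri1 hr p1 p2 hf p2
    · exact tri1 hr p1 p2 hf p2
    · exact tri1 hr p1 p2 hf p2
  rw [te] at w1
  rw [tf] at t3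
  exact pat2c (w := w) hT (hh _ _ p1) (hh _ _ p2) w1 w3 w4 (by linarith)

/-- the four point inequality -/
lemma four_point (hT : 3 ≤ T) (hs : ∀ a b, r a b = r b a) (hr : Hom G T r) (hh : IsPot G r h)
    {a a' b c : V} (he : G.Adj a a') (te : r a a' = h a + h a') (hf : G.Adj b c)
    (tf : r b c = h b + h c) :
    ext G r a b + ext G r a c + ext G r a' b + ext G r a' c ≤
      (T * (non G a b + non G a c) - (T - 1)) * phi T (h a) (h a')
      + (T * (non G a' b + non G a' c) - (T - 1)) * phi T (h a') (h a)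
      + (T * (non G a b + non G a' b) - (T - 1)) * phi T (h b) (h c)
      + (T * (non G a c + non G a' c) - (T - 1)) * phi T (h c) (h b) := by
  have hT0 : 0 < T := by linarith
  have te' : r a' a = h a' + h a := by rw [hs, te, add_comm]
  have tf' : r c b = h c + h b := by rw [hs, tf, add_comm]
  have sb : r b a = r a b := hs _ _
  have sc : r c a = r a c := hs _ _
  have sb' : r b a' = r a' b := hs _ _
  have sc' : r c a' = r a' c := hs _ _
  unfold ext non
  by_cases p1 : G.Adj a b <;> by_cases p2 : G.Adj a c <;> by_cases p3 : G.Adj a' b <;>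
    by_cases p4 : G.Adj a' c <;> simp only [p1, p2, p3, p4, if_true, if_false]
  · -- all present
    have := fp0 hT hs hr hh he hf te tf p1 p2 p3 p4
    linarith
  · -- a'c missing
    have := fp1 hT hs hr hh he hf te tf p1 p2 p3
    linarith
  · -- a'b missing
    have := fp1 hT hs hr hh he hf.symm te tf' p2 p1 p4
    linarith
  · -- a'b, a'c missing
    have := fp2 hT hs hr hh he hf te tf p1 p2
    linarith
  · -- ac missing
    have := fp1 hT hs hr hh he.symm hf te' tf p3 p4 p1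
    linarith
  · -- ac, a'c missing : present ab, a'b
    have := fp2 hT hs hr hh hf he tf te p1.symm p3.symm
    linarith
  · -- ac, a'b missing
    have := pat2o (T := T) (hh _ _ p1) (hh _ _ p4)
    linarith
  · -- only ab
    have := pat3 hT (x' := h a') (z' := h c) (hh _ _ p1)
    linarith
  · -- ab missing
    have := fp1 hT hs hr hh he.symm hf.symm te' tf' p4 p3 p2
    linarith
  · -- ab, a'c missing
    have := pat2o (T := T) (hh _ _ p2) (hh _ _ p3)
    linarith
  · -- ab, a'b missing : present ac, a'c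
    have := fp2 hT hs hr hh hf.symm he tf' te p2.symm p4.symm
    linarith
  · -- only ac
    have := pat3 hT (x' := h a') (z' := h b) (hh _ _ p2)
    linarith
  · -- ab, ac missing : present a'b, a'c
    have := fp2 hT hs hr hh he.symm hf te' tf p3 p4
    linarith
  · -- only a'b
    have := pat3 hT (x' := h a) (z' := h c) (hh _ _ p3)
    linarith
  · -- only a'c
    have := pat3 hT (x' := h a) (z' := h b) (hh _ _ p4)
    linarith
  · -- none
    have n1 := phi_nonneg hT0 (h a) (h a')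
    have n2 := phi_nonneg hT0 (h a') (h a)
    have n3 := phi_nonneg hT0 (h b) (h c)
    have n4 := phi_nonneg hT0 (h c) (h b)
    have := mul_nonneg (by linarith : (0 : ℝ) ≤ T + 1) n1
    have := mul_nonneg (by linarith : (0 : ℝ) ≤ T + 1) n2
    have := mul_nonneg (by linarith : (0 : ℝ) ≤ T + 1) n3
    have := mul_nonneg (by linarith : (0 : ℝ) ≤ T + 1) n4
    linarith

end Pool.OCY
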