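import Pool.Agent.OCY.Defs

/-!
MODULE Pot (difficulty 2).  Optimal potentials exist when the minimum degree exceeds `n/2`.

RECIPE: copy of `Pool.Agent.FNW.Pot` (`pot_lower`, `exists_pot`), which has `3/4` instead of `1/2 + η`.
With `C = sum of all |r a b|`: if `h` is a potential with `∑ h ≤ n C` and `b` is a vertex where `h` is
minimal, then `h v ≥ -C - h b` for the neighbours `v` of `b` and `h v ≥ h b` for the others, so if
`h b < 0` is very negative, `n C ≥ ∑ h ≥ n h b + (1/2+η) n (-C - 2 h b)`, hence `h b ≥ -(3/2+η) C / (2 η)`.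
So the set of such `h` is compact and nonempty (`h = C` constant), take a minimiser.
-/

open Finset Filter Topology
open scoped Classical

namespace Pool.OCY

/-- lower bound for potentials of small sum -/
lemma pot_lower {V : Type*} [Fintype V] [Nonempty V] {G : SimpleGraph V} {η : ℝ} (hη : 0 < η)
    (hG : ∀ v, (1 / 2 + η) * Fintype.card V ≤ G.degree v)
    {r : V → V → ℝ} {C B : ℝ} (hB : 2 * η * B = (3 / 2 + η) * C) (hBC : C / 2 ≤ B)
    (hr : ∀ a b, -C ≤ r a b) {h : V → ℝ}
    (hp : IsPot G r h) (hs : ∑ a, h a ≤ Fintype.card V * C) (a : V) : -B ≤ h a := by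
  obtain ⟨b, hb⟩ := Finite.exists_min h
  refine le_trans ?_ (hb a)
  by_contra hcon
  push Not at hcon
  set n : ℝ := (Fintype.card V : ℝ) with hn
  have hn0 : 0 < n := by rw [hn]; exact_mod_cast Fintype.card_pos
  have h1 : ∀ v, (if G.Adj b v then (-C - h b) else h b) ≤ h v := by
    intro v
    split_ifs with hv
    · have := hp b v hv; have := hr b v; linarith
    · exact hb v
  have h2 : ∑ v, (if G.Adj b v then (-C - h b) else h b) ≤ ∑ v, h v :=
    Finset.sum_le_sum fun v _ => h1 v
  have h3 : ∑ v, (if G.Adj b v then (-C - h b) else h b)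
      = n * h b + G.degree b * (-C - 2 * h b) := by
    have e1 : (G.degree b : ℝ) = ∑ v, if G.Adj b v then (1 : ℝ) else 0 := by
      rw [Finset.sum_boole, SimpleGraph.degree, SimpleGraph.neighborFinset_eq_filter]
    have e2 : n * h b = ∑ _v : V, h b := by
      rw [Finset.sum_const, Finset.card_univ, nsmul_eq_mul]
    rw [e1, e2, Finset.sum_mul, ← Finset.sum_add_distrib]
    refine Finset.sum_congr rfl fun v _ => ?_
    split_ifs <;> ring
  have h4 := hG b
  have h5 : (1 / 2 + η) * n * (-C - 2 * h b) ≤ G.degree b * (-C - 2 * h b) :=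
    mul_le_mul_of_nonneg_right h4 (by linarith)
  have h6 : 2 * η * h b < 2 * η * (-B) := mul_lt_mul_of_pos_left hcon (by linarith)
  have h7 : 0 < n * (-(2 * η * h b) - (3 / 2 + η) * C) := mul_pos hn0 (by linarith)
  have h8 : (1 / 2 + η) * n * (-C - 2 * h b) =
      n * (-(2 * η * h b) - (3 / 2 + η) * C) + n * C - n * h b := by ring
  linarith

theorem exists_pot {V : Type*} [Fintype V] [Nonempty V] {G : SimpleGraph V} {η : ℝ} (hη : 0 < η)
    (hG : ∀ v, (1 / 2 + η) * Fintype.card V ≤ G.degree v) (r : V → V → ℝ) :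
    ∃ h, IsPot G r h ∧ ∀ h', IsPot G r h' → ∑ a, h a ≤ ∑ a, h' a := by
  set C : ℝ := ∑ a, ∑ b, |r a b| with hC
  have hC0 : 0 ≤ C := Finset.sum_nonneg fun a _ => Finset.sum_nonneg fun b _ => abs_nonneg _
  have hrC : ∀ a b, |r a b| ≤ C := by
    intro a b
    refine (Finset.single_le_sum (f := fun b => |r a b|) (fun b _ => abs_nonneg _)
      (Finset.mem_univ b)).trans ?_
    exact Finset.single_le_sum (f := fun a => ∑ b, |r a b|)
      (fun a _ => Finset.sum_nonneg fun b _ => abs_nonneg _) (Finset.mem_univ a)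
  obtain ⟨B, hB, hBC⟩ : ∃ B : ℝ, 2 * η * B = (3 / 2 + η) * C ∧ C / 2 ≤ B := by
    refine ⟨(3 / 2 + η) * C / (2 * η), ?_, ?_⟩
    · field_simp
    · rw [le_div_iff₀ (by linarith)]
      nlinarith
  set n : ℝ := (Fintype.card V : ℝ) with hn
  have hn0 : 0 < n := by rw [hn]; exact_mod_cast Fintype.card_pos
  set K : Set (V → ℝ) := {h | IsPot G r h ∧ ∑ a, h a ≤ n * C} with hK
  have hbox : IsCompact (Set.pi Set.univ fun _ : V => Set.Icc (-B) (n * C + n * B)) :=
    isCompact_univ_pi fun _ => isCompact_Icc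
  have hKc : IsCompact K := by
    refine hbox.of_isClosed_subset ?_ ?_
    · have : K = (⋂ a : V, ⋂ b : V, ⋂ _ : G.Adj a b, {h : V → ℝ | r a b ≤ h a + h b}) ∩
          {h : V → ℝ | ∑ a, h a ≤ n * C} := by
        ext h
        simp only [hK, IsPot, Set.mem_ofPred_eq, Set.mem_inter_iff, Set.mem_iInter]
      rw [this]
      refine IsClosed.inter ?_ ?_
      · exact isClosed_iInter fun a => isClosed_iInter fun b => isClosed_iInter fun _ =>
          isClosed_le continuous_const ((continuous_apply a).add (continuous_apply b))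
      · exact isClosed_le (continuous_finsetSum _ fun a _ => continuous_apply a) continuous_const
    · rintro h ⟨hp, hs⟩
      simp only [Set.mem_pi, Set.mem_univ, true_implies, Set.mem_Icc]
      intro a
      have hl := pot_lower hη hG hB hBC (fun a b => (abs_le.1 (hrC a b)).1) hp hs
      refine ⟨hl a, ?_⟩
      have e1 : ∑ b, (h b + B) = ∑ b, h b + n * B := by
        rw [Finset.sum_add_distrib, Finset.sum_const, Finset.card_univ, nsmul_eq_mul]
      have e2 : h a + B ≤ ∑ b, (h b + B) :=
        Finset.single_le_sum (f := fun b => h b + B) (fun b _ => by linarith [hl b])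
          (Finset.mem_univ a)
      have e3 : 0 ≤ B := le_trans (by linarith) hBC
      linarith
  have hne : K.Nonempty := by
    refine ⟨fun _ => C, fun a b _ => ?_, ?_⟩
    · have := (abs_le.1 (hrC a b)).2
      linarith
    · rw [Finset.sum_const, Finset.card_univ, nsmul_eq_mul]
  obtain ⟨h, hh, hmin⟩ := hKc.exists_isMinOn hne
    (continuous_finsetSum _ fun a _ => continuous_apply a).continuousOn
    (f := fun h : V → ℝ => ∑ a, h a)
  refine ⟨h, hh.1, fun h' hp' => ?_⟩
  by_cases hs : ∑ a, h' a ≤ n * C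
  · exact hmin ⟨hp', hs⟩
  · exact hh.2.trans (not_le.1 hs).le

end Pool.OCY
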