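import Mathlib

/-!
MODULE HubA (difficulty 2).  Pair weights with prescribed marginals.

RECIPE: `m = N.card`, `P = ∑ x ∈ N, p x`.  For `x ≠ y` in `N` let
`w x y = (p x + p y) / (m - 2) - P / ((m - 1) (m - 2))`.  Then `∑_{y ∈ N, y ≠ x} w x y = p x`
(`((m-1) p x + (P - p x)) / (m-2) - P/(m-2)`), `0 ≤ w x y` (`p x + p y ≥ 7/4 ≥ m/(m-1) ≥ P/(m-1)` for `m ≥ 16`) and
`w x y ≤ 2 / (m - 2)`.  Hence
`∑ p x f x = ½ ∑_{x ≠ y} w x y (f x + f y) ≤ ½ ∑_{x ≠ y} w x y D x y ≤ (1/(m-2)) ∑ ∑ D x y`.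
-/

open Finset
open scoped Classical

namespace Pool.OCY

theorem hubA {V : Type*} (N : Finset V) (hN : 16 ≤ N.card) (f : V → ℝ) (D : V → V → ℝ)
    (p : V → ℝ) (hp : ∀ x ∈ N, 7 / 8 ≤ p x ∧ p x ≤ 1) (hD0 : ∀ x y, 0 ≤ D x y)
    (h : ∀ x ∈ N, ∀ y ∈ N, x ≠ y → f x + f y ≤ D x y) :
    ∑ x ∈ N, p x * f x ≤ 1 / ((N.card : ℝ) - 2) * ∑ x ∈ N, ∑ y ∈ N, D x y := by
  have hm : (16 : ℝ) ≤ (N.card : ℝ) := by exact_mod_cast hN
  obtain ⟨m, hmdef⟩ : ∃ m : ℝ, m = (N.card : ℝ) := ⟨_, rfl⟩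
  rw [← hmdef] at hm ⊢
  obtain ⟨P, hP⟩ : ∃ P : ℝ, P = ∑ x ∈ N, p x := ⟨_, rfl⟩
  have hP0 : 0 ≤ P := by
    rw [hP]
    exact Finset.sum_nonneg fun x hx => by linarith [(hp x hx).1]
  have hPm : P ≤ m := by
    rw [hP, hmdef]
    calc ∑ x ∈ N, p x ≤ ∑ _x ∈ N, (1 : ℝ) := Finset.sum_le_sum fun x hx => (hp x hx).2
      _ = (N.card : ℝ) := by rw [Finset.sum_const, nsmul_eq_mul, mul_one]
  have h1 : 0 < m - 1 := by linarith
  have h2 : 0 < m - 2 := by linarith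
  obtain ⟨c, hc⟩ : ∃ c : ℝ, c = P / ((m - 1) * (m - 2)) := ⟨_, rfl⟩
  have hc0 : 0 ≤ c := by rw [hc]; positivity
  obtain ⟨w, hw⟩ : ∃ w : V → V → ℝ, ∀ x y, w x y = (p x + p y) / (m - 2) - c :=
    ⟨_, fun _ _ => rfl⟩
  have hcs : c ≤ (7 / 4) / (m - 2) := by
    rw [hc, ← div_div]
    refine div_le_div_of_nonneg_right ?_ h2.le
    rw [div_le_iff₀ h1]
    linarith
  have hw0 : ∀ x ∈ N, ∀ y ∈ N, 0 ≤ w x y := by
    intro x hx y hy
    rw [hw]
    have : (7 / 4) / (m - 2) ≤ (p x + p y) / (m - 2) :=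
      div_le_div_of_nonneg_right (by linarith [(hp x hx).1, (hp y hy).1]) h2.le
    linarith
  have hw2 : ∀ x ∈ N, ∀ y ∈ N, w x y ≤ 2 / (m - 2) := by
    intro x hx y hy
    rw [hw]
    have : (p x + p y) / (m - 2) ≤ 2 / (m - 2) :=
      div_le_div_of_nonneg_right (by linarith [(hp x hx).2, (hp y hy).2]) h2.le
    linarith
  obtain ⟨W, hW⟩ : ∃ W : V → V → ℝ, ∀ x y, W x y = if x = y then 0 else w x y :=
    ⟨_, fun _ _ => rfl⟩
  have hrow : ∀ x ∈ N, ∑ y ∈ N, W x y = p x := by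
    intro x hx
    have e1 : ∑ y ∈ N, W x y = ∑ y ∈ N, w x y - w x x := by
      have : ∀ y ∈ N, W x y = w x y - (if y = x then w x x else 0) := by
        intro y _
        rw [hW]
        by_cases hxy : x = y
        · rw [if_pos hxy, if_pos hxy.symm, hxy, sub_self]
        · rw [if_neg hxy, if_neg (Ne.symm hxy), sub_zero]
      rw [Finset.sum_congr rfl this, Finset.sum_sub_distrib, Finset.sum_ite_eq' N x, if_pos hx]
    have e2 : ∑ y ∈ N, w x y = (m * p x + P) / (m - 2) - m * c := by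
      rw [Finset.sum_congr rfl fun y _ => hw x y, Finset.sum_sub_distrib, ← Finset.sum_div,
        Finset.sum_add_distrib, Finset.sum_const, Finset.sum_const, nsmul_eq_mul, nsmul_eq_mul,
        ← hmdef, ← hP]
    rw [e1, e2, hw, hc]
    have h1' := h1.ne'
    have h2' := h2.ne'
    field_simp
    ring
  have hsym : ∀ x y, W x y = W y x := by
    intro x y
    rw [hW, hW]
    by_cases hxy : x = y
    · rw [if_pos hxy, if_pos hxy.symm]
    · rw [if_neg hxy, if_neg (Ne.symm hxy), hw, hw, add_comm (p x)]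
  have hA : ∑ x ∈ N, p x * f x = ∑ x ∈ N, ∑ y ∈ N, W x y * f x := by
    refine Finset.sum_congr rfl fun x hx => ?_
    rw [← Finset.sum_mul, hrow x hx]
  have hB : ∑ x ∈ N, p x * f x = ∑ x ∈ N, ∑ y ∈ N, W x y * f y := by
    rw [hA, Finset.sum_comm]
    exact Finset.sum_congr rfl fun x _ => Finset.sum_congr rfl fun y _ => by rw [hsym]
  have hC : 2 * ∑ x ∈ N, p x * f x = ∑ x ∈ N, ∑ y ∈ N, W x y * (f x + f y) := by
    rw [two_mul]
    nth_rewrite 1 [hA]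
    rw [hB, ← Finset.sum_add_distrib]
    refine Finset.sum_congr rfl fun x _ => ?_
    rw [← Finset.sum_add_distrib]
    exact Finset.sum_congr rfl fun y _ => by ring
  have hD : ∑ x ∈ N, ∑ y ∈ N, W x y * (f x + f y) ≤
      ∑ x ∈ N, ∑ y ∈ N, 2 / (m - 2) * D x y := by
    refine Finset.sum_le_sum fun x hx => Finset.sum_le_sum fun y hy => ?_
    rw [hW]
    by_cases hxy : x = y
    · rw [if_pos hxy, zero_mul]
      exact mul_nonneg (by positivity) (hD0 x y)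
    · rw [if_neg hxy]
      calc w x y * (f x + f y) ≤ w x y * D x y :=
            mul_le_mul_of_nonneg_left (h x hx y hy hxy) (hw0 x hx y hy)
        _ ≤ 2 / (m - 2) * D x y := mul_le_mul_of_nonneg_right (hw2 x hx y hy) (hD0 x y)
  have hE : ∑ x ∈ N, ∑ y ∈ N, 2 / (m - 2) * D x y =
      2 * (1 / (m - 2) * ∑ x ∈ N, ∑ y ∈ N, D x y) := by
    simp only [← Finset.mul_sum]
    ring
  rw [← hC, hE] at hD
  linarith

end Pool.OCY
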