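import Pool.Agent.OCY.CycF

/-!
MODULE Low (difficulty 3).  The extremal graphs: two completely joined copies of `2k` disjoint cliques of size `m`.
-/

open Finset
open scoped Classical

namespace Pool.OCY

/-- the extremal graph -/
def low (k m : ℕ) : SimpleGraph (Fin m × (Fin (2 * k) × Bool)) where
  Adj u v := u ≠ v ∧ (u.2 = v.2 ∨ u.2.2 ≠ v.2.2)
  symm := by
    refine ⟨?_⟩
    rintro u v ⟨h1, h2⟩
    exact ⟨h1.symm, h2.imp Eq.symm Ne.symm⟩
  loopless := by
    refine ⟨?_⟩
    rintro u ⟨h, _⟩
    exact h rfl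

/-- the test weights -/
noncomputable def lw (k : ℕ) {m : ℕ} (u v : Fin m × (Fin (2 * k) × Bool)) : ℝ :=
  if u.2.2 = v.2.2 then -(2 * k) else 1

theorem low_aux_card {n : ℕ} (x : Fin n × Bool) :
    ∑ c : Fin n × Bool, (if x = c then 1 else if x.2 ≠ c.2 then 1 else 0) = 1 + n := by
  have h : ∀ c : Fin n × Bool, (if x = c then 1 else if x.2 ≠ c.2 then 1 else 0)
      = (if x = c then 1 else 0) + (if x.2 ≠ c.2 then 1 else 0) := by
    intro c
    by_cases e : x = c
    · subst e
      simp
    · simp [e]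
  rw [Finset.sum_congr rfl fun c _ => h c, Finset.sum_add_distrib]
  congr 1
  · simp
  · rw [Fintype.sum_prod_type]
    obtain ⟨a, b⟩ := x
    cases b <;> simp

theorem low_degree {k m : ℕ} (hk : 1 ≤ k) (u : Fin m × (Fin (2 * k) × Bool)) :
    (low k m).degree u + 1 = (2 * k + 1) * m := by
  rw [← SimpleGraph.card_neighborFinset_eq_degree]
  have h1 : insert u ((low k m).neighborFinset u) =
      univ.filter (fun v => u.2 = v.2 ∨ u.2.2 ≠ v.2.2) := by
    ext v
    rw [Finset.mem_insert, SimpleGraph.mem_neighborFinset, Finset.mem_filter]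
    constructor
    · rintro (rfl | h)
      · exact ⟨Finset.mem_univ _, Or.inl rfl⟩
      · exact ⟨Finset.mem_univ _, h.2⟩
    · rintro ⟨_, h⟩
      by_cases e : v = u
      · exact Or.inl e
      · exact Or.inr ⟨fun h' => e h'.symm, h⟩
  have h2 : u ∉ (low k m).neighborFinset u := by
    rw [SimpleGraph.mem_neighborFinset]
    exact (low k m).loopless.irrefl u
  rw [← Finset.card_insert_of_notMem h2, h1, Finset.card_filter, Fintype.sum_prod_type]
  have h3 : ∀ x : Fin m, ∑ c : Fin (2 * k) × Bool,
      (if u.2 = (x, c).2 ∨ u.2.2 ≠ (x, c).2.2 then 1 else 0) = 1 + 2 * k := by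
    intro x
    rw [← low_aux_card u.2]
    refine Finset.sum_congr rfl fun c _ => ?_
    by_cases e : u.2 = c
    · rw [if_pos (Or.inl e), if_pos e]
    · rw [if_neg e]
      by_cases e2 : u.2.2 ≠ c.2
      · rw [if_pos (Or.inr e2), if_pos e2]
      · rw [if_neg e2, if_neg]
        rintro (h | h)
        · exact e h
        · exact e2 h
  rw [Finset.sum_congr rfl fun x _ => h3 x, Finset.sum_const, Finset.card_univ, Fintype.card_fin,
    smul_eq_mul]
  ring

theorem low_aux_sum {n : ℕ} (t : ℝ) (x : Fin n × Bool) :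
    ∑ c : Fin n × Bool, (if x = c then t else if x.2 ≠ c.2 then 1 else 0) = t + n := by
  have h : ∀ c : Fin n × Bool, (if x = c then t else if x.2 ≠ c.2 then 1 else 0)
      = (if x = c then t else 0) + (if x.2 ≠ c.2 then (1 : ℝ) else 0) := by
    intro c
    by_cases e : x = c
    · subst e
      simp
    · simp [e]
  rw [Finset.sum_congr rfl fun c _ => h c, Finset.sum_add_distrib]
  congr 1
  · simp
  · rw [Fintype.sum_prod_type]
    obtain ⟨a, b⟩ := x
    cases b <;> simp

theorem low_row {k m : ℕ} (u : Fin m × (Fin (2 * k) × Bool)) :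
    ∑ v, ext (low k m) (lw k) u v = 2 * k := by
  have h : ∀ v : Fin m × (Fin (2 * k) × Bool), ext (low k m) (lw k) u v =
      (if u.2 = v.2 then -(2 * (k : ℝ)) else if u.2.2 ≠ v.2.2 then 1 else 0) +
        (if v = u then 2 * (k : ℝ) else 0) := by
    intro v
    unfold ext lw
    by_cases e : v = u
    · subst e
      rw [if_neg ((low k m).loopless.irrefl v)]
      simp
    · by_cases e1 : u.2 = v.2
      · have hadj : (low k m).Adj u v := ⟨fun h' => e h'.symm, Or.inl e1⟩
        rw [if_pos hadj, if_pos e1, if_neg e, if_pos (by rw [e1])]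
        ring
      · by_cases e2 : u.2.2 ≠ v.2.2
        · have hadj : (low k m).Adj u v := ⟨fun h' => e h'.symm, Or.inr e2⟩
          rw [if_pos hadj, if_neg e1, if_pos e2, if_neg e, if_neg e2]
          ring
        · have hadj : ¬ (low k m).Adj u v := by
            rintro ⟨_, h | h⟩
            · exact e1 h
            · exact e2 h
          rw [if_neg hadj, if_neg e1, if_neg e2, if_neg e]
          ring
  rw [Finset.sum_congr rfl fun v _ => h v, Finset.sum_add_distrib, Fintype.sum_prod_type]
  have h3 : ∀ x : Fin m, ∑ c : Fin (2 * k) × Bool,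
      (if u.2 = (x, c).2 then -(2 * (k : ℝ)) else if u.2.2 ≠ (x, c).2.2 then 1 else 0) = 0 := by
    intro x
    have := low_aux_sum (-(2 * (k : ℝ))) u.2
    push_cast at this
    rw [show -(2 * (k : ℝ)) + 2 * k = 0 by ring] at this
    exact this
  rw [Finset.sum_congr rfl fun x _ => h3 x, Finset.sum_const_zero, zero_add]
  simp

theorem low_sum {k m : ℕ} (hk : 1 ≤ k) :
    ∑ u, ∑ v, ext (low k m) (lw k) u v = 8 * (k : ℝ) ^ 2 * m := by
  rw [Finset.sum_congr rfl fun u _ => low_row u, Finset.sum_const, Finset.card_univ,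
    Fintype.card_prod, Fintype.card_prod, Fintype.card_fin, Fintype.card_fin, Fintype.card_bool,
    nsmul_eq_mul]
  push_cast
  ring

theorem low_copies {k m : ℕ} (hk : 1 ≤ k) (f : Fin (2 * k + 1) → Fin m × (Fin (2 * k) × Bool))
    (hf : ∀ i j, (SimpleGraph.cycleGraph (2 * k + 1)).Adj i j → (low k m).Adj (f i) (f j)) :
    ∑ i, ∑ j, (if (SimpleGraph.cycleGraph (2 * k + 1)).Adj i j then lw k (f i) (f j) else 0)
      ≤ 0 := by
  rw [sum_cycle hk (fun i j => lw k (f i) (f j))]
  swap
  · intro i j
    unfold lw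
    by_cases e : (f i).2.2 = (f j).2.2
    · rw [if_pos e, if_pos e.symm]
    · rw [if_neg e, if_neg (fun h => e h.symm)]
  -- a step which does not change the side
  obtain ⟨i0, hi0⟩ : ∃ i : Fin (2 * k + 1), (f i).2.2 = (f (i + 1)).2.2 := by
    by_contra hcon
    push Not at hcon
    let t : Fin (2 * k + 1) → ZMod 2 := fun i => if (f i).2.2 then 1 else 0
    have h1 : ∀ i, t (i + 1) = t i + 1 := by
      intro i
      have := hcon i
      simp only [t]
      cases e1 : (f i).2.2 <;> cases e2 : (f (i + 1)).2.2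
      · rw [e1, e2] at this
        exact absurd rfl this
      · simp
      · simp
        decide
      · rw [e1, e2] at this
        exact absurd rfl this
    have h2 : ∑ i, t (i + 1) = ∑ i, t i := Equiv.sum_comp (Equiv.addRight (1 : Fin (2 * k + 1))) t
    rw [Finset.sum_congr rfl fun i _ => h1 i, Finset.sum_add_distrib] at h2
    have h3 : ∑ _i : Fin (2 * k + 1), (1 : ZMod 2) = 0 := by
      have := h2
      rwa [add_eq_left] at this
    rw [Finset.sum_const, Finset.card_univ, Fintype.card_fin, nsmul_eq_mul, mul_one] at h3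
    have h4 : ((2 * k + 1 : ℕ) : ZMod 2) = 1 := by
      push_cast
      rw [show (2 : ZMod 2) = 0 from rfl]
      ring
    rw [h4] at h3
    exact absurd h3 (by decide)
  have hle : ∀ i, lw k (f i) (f (i + 1)) ≤ 1 := by
    intro i
    unfold lw
    split_ifs
    · have : (0 : ℝ) ≤ k := Nat.cast_nonneg k
      linarith
    · exact le_refl _
  have h0 : lw k (f i0) (f (i0 + 1)) = -(2 * (k : ℝ)) := by
    unfold lw
    rw [if_pos hi0]
  have hsum : ∑ i, lw k (f i) (f (i + 1)) ≤ 0 := by
    rw [← Finset.add_sum_erase univ _ (Finset.mem_univ i0), h0]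
    have h5 : ∑ i ∈ univ.erase i0, lw k (f i) (f (i + 1)) ≤ ∑ _i ∈ univ.erase i0, (1 : ℝ) :=
      Finset.sum_le_sum fun i _ => hle i
    rw [Finset.sum_const, Finset.card_erase_of_mem (Finset.mem_univ i0), Finset.card_univ,
      Fintype.card_fin, nsmul_eq_mul, mul_one, Nat.add_sub_cancel] at h5
    push_cast at h5
    linarith
  linarith

end Pool.OCY
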