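import Pool.Agent.OCY.Defs
import Pool.Agent.H34.Dec.Copies

/-!
MODULE NoDecF (difficulty 2).  Weak duality for an arbitrary `F`.
-/

open Finset
open scoped Classical

namespace Pool.OCY

open Pool.H34.Dec (IsFracDecomp)

theorem no_decF {W V : Type} [Fintype W] [Fintype V] {F : SimpleGraph W} {G : SimpleGraph V}
    {r : V → V → ℝ}
    (h : ∀ f : W → V, Function.Injective f → (∀ i j, F.Adj i j → G.Adj (f i) (f j)) →
        ∑ i, ∑ j, (if F.Adj i j then r (f i) (f j) else 0) ≤ 0)
    (hpos : 0 < ∑ a, ∑ b, ext G r a b) : ¬ ∃ w, IsFracDecomp F G w := by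
  rintro ⟨w, hw0, hw1, hw2⟩
  -- value of a copy
  have hcopy : ∀ H : G.Subgraph, w H ≠ 0 →
      ∑ a, ∑ b, (if H.Adj a b then r a b else 0) ≤ 0 := by
    intro H hH
    obtain ⟨φ⟩ := hw1 H hH
    set ι : W → V := fun i => (φ i : V) with hι
    have hinj : Function.Injective ι := fun i j hij => φ.injective (Subtype.ext hij)
    have hrange : ∀ u, u ∈ H.verts → ∃ i, ι i = u := by
      intro u hu
      refine ⟨φ.symm ⟨u, hu⟩, ?_⟩
      simp [hι]
    have hadj : ∀ i j, H.Adj (ι i) (ι j) ↔ F.Adj i j := by
      intro i j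
      exact (φ.map_adj_iff (v := i) (w := j))
    have hsum : ∀ g : V → ℝ, (∀ u, u ∉ H.verts → g u = 0) → ∑ u, g u = ∑ i, g (ι i) := by
      intro g hg
      have e1 : ∑ i, g (ι i) = ∑ u ∈ univ.image ι, g u :=
        (Finset.sum_image fun i _ j _ h => hinj h).symm
      rw [e1]
      symm
      refine Finset.sum_subset (Finset.subset_univ _) fun u _ hu => hg u fun huv => hu ?_
      obtain ⟨i, hi⟩ := hrange u huv
      exact Finset.mem_image.2 ⟨i, Finset.mem_univ i, hi⟩
    have h1 : ∑ a, ∑ b, (if H.Adj a b then r a b else 0)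
        = ∑ i, ∑ j, (if H.Adj (ι i) (ι j) then r (ι i) (ι j) else 0) := by
      rw [hsum]
      · refine Finset.sum_congr rfl fun i _ => ?_
        rw [hsum]
        intro u hu
        rw [if_neg]
        exact fun h => hu (H.edge_vert h.symm)
      · intro u hu
        refine Finset.sum_eq_zero fun v _ => ?_
        rw [if_neg]
        exact fun h => hu (H.edge_vert h)
    rw [h1]
    have h2 : ∑ i, ∑ j, (if H.Adj (ι i) (ι j) then r (ι i) (ι j) else 0)
        = ∑ i, ∑ j, (if F.Adj i j then r (ι i) (ι j) else 0) := by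
      refine Finset.sum_congr rfl fun i _ => Finset.sum_congr rfl fun j _ => ?_
      by_cases hij : F.Adj i j
      · rw [if_pos hij, if_pos ((hadj i j).2 hij)]
      · rw [if_neg hij, if_neg fun hh => hij ((hadj i j).1 hh)]
    rw [h2]
    exact h ι hinj (fun i j hij => H.adj_sub ((hadj i j).2 hij))
  -- double counting
  have hcov : ∀ a b, G.Adj a b → ∑ H : G.Subgraph, (if H.Adj a b then w H else 0) = 1 := by
    intro a b hab
    have h1 := hw2 s(a, b) ((SimpleGraph.mem_edgeSet G).2 hab)
    rw [← Finset.sum_filter]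
    rw [← h1]
    refine Finset.sum_congr ?_ fun _ _ => rfl
    ext H
    simp only [Finset.mem_filter, Finset.mem_univ, true_and]
    exact (SimpleGraph.Subgraph.mem_edgeSet).symm
  have h2 : ∑ a, ∑ b, ext G r a b
      = ∑ H : G.Subgraph, w H * ∑ a, ∑ b, (if H.Adj a b then r a b else 0) := by
    have e1 : ∀ a b, ext G r a b
        = ∑ H : G.Subgraph, w H * (if H.Adj a b then r a b else 0) := by
      intro a b
      unfold ext
      by_cases hab : G.Adj a b
      · rw [if_pos hab]
        have : ∑ H : G.Subgraph, w H * (if H.Adj a b then r a b else 0)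
            = (∑ H : G.Subgraph, (if H.Adj a b then w H else 0)) * r a b := by
          rw [Finset.sum_mul]
          refine Finset.sum_congr rfl fun H _ => ?_
          split_ifs <;> ring
        rw [this, hcov a b hab, one_mul]
      · rw [if_neg hab]
        symm
        refine Finset.sum_eq_zero fun H _ => ?_
        rw [if_neg, mul_zero]
        exact fun h => hab (H.adj_sub h)
    simp only [e1, Finset.mul_sum]
    rw [Finset.sum_congr rfl fun a _ => Finset.sum_comm, Finset.sum_comm]
  rw [h2] at hpos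
  have h3 : ∑ H : G.Subgraph, w H * ∑ a, ∑ b, (if H.Adj a b then r a b else 0) ≤ 0 := by
    refine Finset.sum_nonpos fun H _ => ?_
    by_cases h0 : w H = 0
    · rw [h0, zero_mul]
    · exact mul_nonpos_of_nonneg_of_nonpos (hw0 H).1 (hcopy H h0)
  linarith

end Pool.OCY
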