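import Pool.Agent.OCY.Phi

/-! No missing pair. -/

open Finset
open scoped Classical

namespace Pool.OCY

/-- the possible values of `phi T x x' + phi T x' x` -/
def Sg (T x x' s : ℝ) : Prop :=
  s ≤ x + x' ∨ (T * s ≤ -(x + x') ∧ x + x' ≤ 0) ∨
  (2 * T * s ≤ T * x' + (T - 2) * x ∧ (T + 2) * x + T * x' ≤ 0 ∧
    0 ≤ T ^ 2 * x' + (T ^ 2 - 2) * x) ∨
  (T ^ 2 * s ≤ -((T - 1) * x) ∧ x ≤ 0 ∧ x + x' ≤ 0)

lemma sg {T : ℝ} (hT : 3 ≤ T) (x x' : ℝ) :
    Sg T x x' (phi T x x' + phi T x' x) ∨ Sg T x' x (phi T x x' + phi T x' x) := by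
  have hT0 : 0 < T := by linarith
  have hT2 : 0 < T ^ 2 := by positivity
  rcases phi_cases hT0 x x' with ⟨e, q1, q2, q3⟩ | ⟨e, q1, q2, q3⟩ | ⟨e, q1, q2, q3⟩ | ⟨e, q1, q2, q3⟩ <;>
    rcases phi_cases hT0 x' x with ⟨f, p1, p2, p3⟩ | ⟨f, p1, p2, p3⟩ | ⟨f, p1, p2, p3⟩ | ⟨f, p1, p2, p3⟩ <;>
    set P := phi T x x' with hP <;> set Q := phi T x' x with hQ
  · -- 1 1
    exact Or.inl (Or.inl (by linarith))
  · -- 1 2
    refine Or.inl (Or.inl ?_)
    have h0 : x + x' = 0 := by linarith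
    have h1 : 2 * T * Q = 2 * T * 0 := by rw [f]; linarith
    have h2 := mul_left_cancel₀ (by positivity : (2 * T : ℝ) ≠ 0) h1
    linarith
  · -- 1 3
    refine Or.inl (Or.inl ?_)
    have h1 := mul_le_mul_of_nonneg_left q3 (by linarith : (0 : ℝ) ≤ T - 1)
    have h2 : 2 * T ^ 2 * Q ≤ 2 * T ^ 2 * ((x + x') / 2) := by linarith
    have h3 := le_of_mul_le_mul_left h2 (by positivity)
    linarith
  · -- 1 4
    refine Or.inl (Or.inl ?_)
    have h1 : (T - 1) * 0 ≤ (T - 1) * ((T + 2) * x + T * x') := by linarith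
    have h1' := le_of_mul_le_mul_left h1 (by linarith)
    have h2 : 2 * T ^ 2 * Q ≤ 2 * T ^ 2 * ((x + x') / 2) := by linarith
    have h3 := le_of_mul_le_mul_left h2 (by positivity)
    linarith
  · -- 2 1
    refine Or.inl (Or.inl ?_)
    have h0 : x + x' = 0 := by linarith
    have h1 : 2 * T * P = 2 * T * 0 := by rw [e]; linarith
    have h2 := mul_left_cancel₀ (by positivity : (2 * T : ℝ) ≠ 0) h1
    linarith
  · -- 2 2
    refine Or.inl (Or.inr (Or.inl ⟨?_, q1⟩))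
    linarith
  · -- 2 3
    refine Or.inr (Or.inr (Or.inr (Or.inr ⟨?_, ?_, by linarith⟩)))
    · have : 2 * (T ^ 2 * (P + Q)) ≤ 2 * (-((T - 1) * x')) := by
        have h1 : T * (2 * T * P) = T * (-(x + x')) := by rw [e]
        linarith
      linarith
    · have h1 : 0 ≤ T * x + x' := by linarith
      have h2 := mul_nonneg hT0.le (by linarith : 0 ≤ -(x + x'))
      have h3 : (T - 1) * x' ≤ (T - 1) * 0 := by linarith
      exact le_of_mul_le_mul_left h3 (by linarith)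
  · -- 2 4
    refine Or.inl (Or.inr (Or.inl ⟨?_, q1⟩))
    have hx : x ≤ 0 := by
      have h1 := mul_nonneg hT2.le (by linarith : 0 ≤ -(x + x'))
      linarith
    have h1 : x + T * x' ≤ 0 := by linarith
    have h2 := mul_le_mul_of_nonneg_left h1 hT0.le
    have h3 : 0 ≤ (T ^ 2 - T - 2) * (-x) := mul_nonneg (by nlinarith) (by linarith)
    have h4 : 2 * T ^ 2 * Q ≤ 2 * T ^ 2 * (-(x + x') / (2 * T)) := by
      have : 2 * T ^ 2 * (-(x + x') / (2 * T)) = -(T * (x + x')) := by field_simp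
      rw [this]
      linarith
    have h5 := le_of_mul_le_mul_left h4 (by positivity)
    have h6 : T * Q ≤ T * (-(x + x') / (2 * T)) := mul_le_mul_of_nonneg_left h5 hT0.le
    have h7 : T * (-(x + x') / (2 * T)) = -(x + x') / 2 := by field_simp
    rw [h7] at h6
    linarith
  · -- 3 1
    refine Or.inl (Or.inl ?_)
    have h1 := mul_le_mul_of_nonneg_left p3 (by linarith : (0 : ℝ) ≤ T - 1)
    have h2 : 2 * T ^ 2 * P ≤ 2 * T ^ 2 * ((x + x') / 2) := by linarith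
    have h3 := le_of_mul_le_mul_left h2 (by positivity)
    linarith
  · -- 3 2
    refine Or.inl (Or.inr (Or.inr (Or.inr ⟨?_, ?_, by linarith⟩)))
    · have : 2 * (T ^ 2 * (P + Q)) ≤ 2 * (-((T - 1) * x)) := by
        have h1 : T * (2 * T * Q) = T * (-(x' + x)) := by rw [f]
        linarith
      linarith
    · have h1 : 0 ≤ T * x' + x := by linarith
      have h2 := mul_nonneg hT0.le (by linarith : 0 ≤ -(x + x'))
      have h3 : (T - 1) * x ≤ (T - 1) * 0 := by linarith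
      exact le_of_mul_le_mul_left h3 (by linarith)
  · -- 3 3
    refine Or.inl (Or.inl ?_)
    have h1 : (T + 1) * 0 ≤ (T + 1) * (x + x') := by linarith
    have h2 := le_of_mul_le_mul_left h1 (by linarith)
    have h3 : T ^ 2 * (P + Q) ≤ T ^ 2 * (x + x') := by
      have h4 : 0 ≤ (T ^ 2 - 1) * (x + x') := mul_nonneg (by nlinarith) h2
      linarith
    exact le_of_mul_le_mul_left h3 (by positivity)
  · -- 3 4
    refine Or.inl (Or.inr (Or.inr (Or.inl ⟨?_, ?_, ?_⟩)))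
    · have h1 : T * (2 * T * (P + Q)) ≤ T * (T * x' + (T - 2) * x) := by linarith
      exact le_of_mul_le_mul_left h1 hT0
    · linarith
    · linarith
  · -- 4 1
    refine Or.inl (Or.inl ?_)
    have h1 : (T - 1) * 0 ≤ (T - 1) * ((T + 2) * x' + T * x) := by linarith
    have h1' := le_of_mul_le_mul_left h1 (by linarith)
    have h2 : 2 * T ^ 2 * P ≤ 2 * T ^ 2 * ((x + x') / 2) := by linarith
    have h3 := le_of_mul_le_mul_left h2 (by positivity)
    linarith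
  · -- 4 2
    refine Or.inl (Or.inr (Or.inl ⟨?_, by linarith⟩))
    have hx : x' ≤ 0 := by
      have h1 := mul_nonneg hT2.le (by linarith : 0 ≤ -(x + x'))
      linarith
    have h1 : x' + T * x ≤ 0 := by linarith
    have h2 := mul_le_mul_of_nonneg_left h1 hT0.le
    have h3 : 0 ≤ (T ^ 2 - T - 2) * (-x') := mul_nonneg (by nlinarith) (by linarith)
    have h4 : 2 * T ^ 2 * P ≤ 2 * T ^ 2 * (-(x + x') / (2 * T)) := by
      have : 2 * T ^ 2 * (-(x + x') / (2 * T)) = -(T * (x + x')) := by field_simp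
      rw [this]
      linarith
    have h5 := le_of_mul_le_mul_left h4 (by positivity)
    have h6 : T * P ≤ T * (-(x + x') / (2 * T)) := mul_le_mul_of_nonneg_left h5 hT0.le
    have h7 : T * (-(x + x') / (2 * T)) = -(x + x') / 2 := by field_simp
    rw [h7] at h6
    linarith
  · -- 4 3
    refine Or.inr (Or.inr (Or.inr (Or.inl ⟨?_, ?_, ?_⟩)))
    · have h1 : T * (2 * T * (P + Q)) ≤ T * (T * x + (T - 2) * x') := by linarith
      exact le_of_mul_le_mul_left h1 hT0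
    · linarith
    · linarith
  · -- 4 4
    refine Or.inl (Or.inl ?_)
    have h1 : (T ^ 2 - 1) * 0 ≤ (T ^ 2 - 1) * (x + x') := by linarith
    have h2 := le_of_mul_le_mul_left h1 (by nlinarith)
    have h3 : T ^ 2 * (P + Q) ≤ T ^ 2 * (x + x') := by
      have h4 : 0 ≤ (T + 1) * (x + x') := mul_nonneg (by linarith) h2
      linarith
    exact le_of_mul_le_mul_left h3 (by positivity)

section

variable {T x x' z z' p q q' p' w : ℝ}

/-- the collected bounds: `p = ab`, `q = ac`, `q' = a'b`, `p' = a'c` -/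
structure B0 (T x x' z z' p q q' p' w : ℝ) : Prop where
  hT : 3 ≤ T
  c1 : p ≤ x + z
  c2 : q ≤ x + z'
  c3 : q' ≤ x' + z
  c4 : p' ≤ x' + z'
  w1 : x + x' ≤ w
  w2 : z + z' ≤ w
  w3 : p ≤ w
  w4 : q ≤ w
  w5 : q' ≤ w
  w6 : p' ≤ w
  t1 : x + x' + p + q' + (T - 2) * w ≤ 0
  t2 : x + x' + q + p' + (T - 2) * w ≤ 0
  t3 : z + z' + p + q + (T - 2) * w ≤ 0
  t4 : z + z' + q' + p' + (T - 2) * w ≤ 0

lemma B0.swap (h : B0 T x x' z z' p q q' p' w) : B0 T z z' x x' p q' q p' w :=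
  ⟨h.hT, by linarith [h.c1], by linarith [h.c3], by linarith [h.c2], by linarith [h.c4],
    h.w2, h.w1, h.w3, h.w5, h.w4, h.w6, h.t3, h.t4, h.t1, h.t2⟩

lemma B0.swapE (h : B0 T x x' z z' p q q' p' w) : B0 T x' x z z' q' p' p q w :=
  ⟨h.hT, h.c3, h.c4, h.c1, h.c2, by linarith [h.w1], h.w2, h.w5, h.w6, h.w3, h.w4,
    by linarith [h.t1], by linarith [h.t2], h.t4, h.t3⟩

lemma B0.swapF (h : B0 T x x' z z' p q q' p' w) : B0 T x x' z' z q p p' q' w :=
  ⟨h.hT, h.c2, h.c1, h.c4, h.c3, h.w1, by linarith [h.w2], h.w4, h.w3, h.w6, h.w5,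
    h.t2, h.t1, by linarith [h.t3], by linarith [h.t4]⟩

/-- the triangles on `aa'` -/
lemma B0.v1 (h : B0 T x x' z z' p q q' p' w) {u : ℝ} (hu : u ≤ w) :
    p + q + q' + p' ≤ -(2 * (x + x')) - 2 * (T - 2) * u := by
  have := mul_le_mul_of_nonneg_left hu (by linarith [h.hT] : (0 : ℝ) ≤ T - 2)
  linarith [h.t1, h.t2]

lemma B0.v2 (h : B0 T x x' z z' p q q' p' w) :
    p + q + q' + p' ≤ 2 * (x + x' + (z + z')) := by
  linarith [h.c1, h.c2, h.c3, h.c4]

lemma B0.v3 (h : B0 T x x' z z' p q q' p' w) {u : ℝ} (hu : u ≤ w) :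
    p + q + q' + p' ≤ 2 * x - (T - 2) * u := by
  have := mul_le_mul_of_nonneg_left hu (by linarith [h.hT] : (0 : ℝ) ≤ T - 2)
  linarith [h.c1, h.c2, h.t4]

lemma B0.v4 (h : B0 T x x' z z' p q q' p' w) :
    T * (p + q + q' + p') ≤ 2 * T * x + (T - 2) * (z + z') := by
  have h1 := mul_le_mul_of_nonneg_left h.w5 (by linarith [h.hT] : (0 : ℝ) ≤ T - 2)
  have h2 := mul_le_mul_of_nonneg_left h.w6 (by linarith [h.hT] : (0 : ℝ) ≤ T - 2)
  have h3 := mul_le_mul_of_nonneg_left (add_le_add h.c1 h.c2) (by linarith [h.hT] : (0 : ℝ) ≤ T)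
  linarith [h.t4]

lemma B0.v6 (h : B0 T x x' z z' p q q' p' w) :
    p + q + q' + p' ≤ p' + (x + x') + (z + z') + x + z := by
  linarith [h.c1, h.c2, h.c3]

/-- the cases of types `(i, j)` with `i ≥ j` or `(1, 2)` -/
lemma B0.m11 (h : B0 T x x' z z' p q q' p' w) {s t : ℝ} (hs : s ≤ x + x') (ht : t ≤ z + z') :
    p + q + q' + p' ≤ -((T - 1) * (s + t)) := by
  have h1 := h.v1 h.w1
  have h2 := h.swap.v1 h.w2
  have h3 := mul_le_mul_of_nonneg_left (add_le_add hs ht) (by linarith [h.hT] : (0 : ℝ) ≤ T - 1)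
  linarith

lemma B0.m12 (h : B0 T x x' z z' p q q' p' w) {s t : ℝ} (hs : s ≤ x + x')
    (ht : T * t ≤ -(z + z')) :
    p + q + q' + p' ≤ -((T - 1) * (s + t)) := by
  have hT := h.hT
  have hT0 : 0 < T := by linarith
  have k : T * (p + q + q' + p') ≤ T * (-((T - 1) * (s + t))) → 
    p + q + q' + p' ≤ -((T - 1) * (s + t)) := fun h => le_of_mul_le_mul_left h hT0
  apply k
  have h3 := mul_le_mul_of_nonneg_left hs (by nlinarith : (0 : ℝ) ≤ T * (T - 1))
  have h4 := mul_le_mul_of_nonneg_left ht (by linarith : (0 : ℝ) ≤ T - 1)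
  rcases le_total (-(z + z')) (T * (x + x')) with hc | hc
  · have h1 := mul_le_mul_of_nonneg_left (h.v1 h.w1) hT0.le
    have h2 := mul_nonneg (by linarith : (0 : ℝ) ≤ T - 1) (sub_nonneg.2 hc)
    linarith
  · have h1 := mul_le_mul_of_nonneg_left h.v2 hT0.le
    have h2 := mul_nonneg (by linarith : (0 : ℝ) ≤ T + 1) (sub_nonneg.2 hc)
    linarith

lemma B0.m22 (h : B0 T x x' z z' p q q' p' w) {s t : ℝ} (hs : T * s ≤ -(x + x'))
    (hs0 : x + x' ≤ 0) (ht : T * t ≤ -(z + z')) (ht0 : z + z' ≤ 0) :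
    p + q + q' + p' ≤ -((T - 1) * (s + t)) := by
  have hT := h.hT
  have hT0 : 0 < T := by linarith
  have k : T * (p + q + q' + p') ≤ T * (-((T - 1) * (s + t))) → 
    p + q + q' + p' ≤ -((T - 1) * (s + t)) := fun h => le_of_mul_le_mul_left h hT0
  apply k
  have h3 := mul_le_mul_of_nonneg_left hs (by linarith : (0 : ℝ) ≤ T - 1)
  have h4 := mul_le_mul_of_nonneg_left ht (by linarith : (0 : ℝ) ≤ T - 1)
  have h1 := mul_le_mul_of_nonneg_left h.v2 hT0.le
  have h2 := mul_nonneg (by linarith : (0 : ℝ) ≤ T + 1) (by linarith : 0 ≤ -(x + x' + (z + z')))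
  linarith

lemma B0.m31 (h : B0 T x x' z z' p q q' p' w) {s t : ℝ}
    (hs : 2 * T * s ≤ T * x' + (T - 2) * x) (hs1 : (T + 2) * x + T * x' ≤ 0)
    (ht : t ≤ z + z') :
    p + q + q' + p' ≤ -((T - 1) * (s + t)) := by
  have hT := h.hT
  have hT0 : 0 < T := by linarith
  have k : (2 * T) * (p + q + q' + p') ≤ (2 * T) * (-((T - 1) * (s + t))) → 
    p + q + q' + p' ≤ -((T - 1) * (s + t)) := fun h => le_of_mul_le_mul_left h (by positivity)
  apply k
  have h3 := mul_le_mul_of_nonneg_left hs (by linarith : (0 : ℝ) ≤ T - 1)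
  have h4 := mul_le_mul_of_nonneg_left ht (by nlinarith : (0 : ℝ) ≤ 2 * T * (T - 1))
  rcases le_total (T * x' + (T - 2) * x) (2 * T * (z + z')) with hc | hc
  · have h1 := mul_le_mul_of_nonneg_left (h.swap.v1 h.w2) (by linarith : (0 : ℝ) ≤ 2 * T)
    have h2 := mul_nonneg (by linarith : (0 : ℝ) ≤ T - 1) (sub_nonneg.2 hc)
    linarith
  · have h1 := mul_le_mul_of_nonneg_left (h.v3 h.w2) (by linarith : (0 : ℝ) ≤ 2 * T)
    have h2 := mul_nonneg hT0.le (sub_nonneg.2 hs1)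
    linarith

lemma B0.m41 (h : B0 T x x' z z' p q q' p' w) {s t : ℝ}
    (hs : T ^ 2 * s ≤ -((T - 1) * x)) (hs1 : x ≤ 0) (ht : t ≤ z + z') :
    p + q + q' + p' ≤ -((T - 1) * (s + t)) := by
  have hT := h.hT
  have hT0 : 0 < T := by linarith
  have k : (T ^ 2) * (p + q + q' + p') ≤ (T ^ 2) * (-((T - 1) * (s + t))) → 
    p + q + q' + p' ≤ -((T - 1) * (s + t)) := fun h => le_of_mul_le_mul_left h (by positivity)
  apply k
  have h3 := mul_le_mul_of_nonneg_left hs (by linarith : (0 : ℝ) ≤ T - 1)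
  have h4 := mul_le_mul_of_nonneg_left ht
    (mul_nonneg (by positivity) (by linarith) : (0 : ℝ) ≤ T ^ 2 * (T - 1))
  rcases le_total (-((T - 1) * x)) (T ^ 2 * (z + z')) with hc | hc
  · have h1 := mul_le_mul_of_nonneg_left (h.swap.v1 h.w2) (by positivity : (0 : ℝ) ≤ T ^ 2)
    have h2 := mul_nonneg (by linarith : (0 : ℝ) ≤ T - 1) (sub_nonneg.2 hc)
    linarith
  · have h1 := mul_le_mul_of_nonneg_left (h.v3 h.w2) (by positivity : (0 : ℝ) ≤ T ^ 2)
    have h2 := mul_nonneg (by nlinarith : (0 : ℝ) ≤ T * (T + 1)) (neg_nonneg.2 hs1)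
    linarith

lemma B0.m32 (h : B0 T x x' z z' p q q' p' w) {s t : ℝ}
    (hs : 2 * T * s ≤ T * x' + (T - 2) * x) (hs1 : (T + 2) * x + T * x' ≤ 0)
    (ht : T * t ≤ -(z + z')) :
    p + q + q' + p' ≤ -((T - 1) * (s + t)) := by
  have hT := h.hT
  have hT0 : 0 < T := by linarith
  have k : (2 * T * (T + 2)) * (p + q + q' + p') ≤ (2 * T * (T + 2)) * (-((T - 1) * (s + t))) → 
    p + q + q' + p' ≤ -((T - 1) * (s + t)) := fun h => le_of_mul_le_mul_left h (by positivity)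
  apply k
  have h3 := mul_le_mul_of_nonneg_left hs (by nlinarith : (0 : ℝ) ≤ (T - 1) * (T + 2))
  have h4 := mul_le_mul_of_nonneg_left ht (by nlinarith : (0 : ℝ) ≤ 2 * ((T - 1) * (T + 2)))
  have h1 := mul_le_mul_of_nonneg_left h.v4 (by linarith : (0 : ℝ) ≤ 2 * (T + 1))
  have h2 := mul_le_mul_of_nonneg_left h.v2 (by linarith : (0 : ℝ) ≤ 2 * T)
  have h5 := mul_nonneg (by nlinarith : (0 : ℝ) ≤ T ^ 2 + T + 2) (neg_nonneg.2 hs1)
  linarith

lemma B0.m42 (h : B0 T x x' z z' p q q' p' w) {s t : ℝ}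
    (hs : T ^ 2 * s ≤ -((T - 1) * x)) (hs1 : x ≤ 0) (hs2 : x + x' ≤ 0)
    (ht : T * t ≤ -(z + z')) :
    p + q + q' + p' ≤ -((T - 1) * (s + t)) := by
  have hT := h.hT
  have hT0 : 0 < T := by linarith
  have k : (T ^ 2 * (T + 2)) * (p + q + q' + p') ≤ (T ^ 2 * (T + 2)) * (-((T - 1) * (s + t))) → 
    p + q + q' + p' ≤ -((T - 1) * (s + t)) := fun h => le_of_mul_le_mul_left h (by positivity)
  apply k
  have h3 := mul_le_mul_of_nonneg_left hs (by nlinarith : (0 : ℝ) ≤ (T - 1) * (T + 2))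
  have h4 := mul_le_mul_of_nonneg_left ht
    (mul_nonneg hT0.le (by nlinarith) : (0 : ℝ) ≤ T * ((T - 1) * (T + 2)))
  have h1 := mul_le_mul_of_nonneg_left h.v4 (by nlinarith : (0 : ℝ) ≤ T * (T + 1))
  have h2 := mul_le_mul_of_nonneg_left h.v2 (by positivity : (0 : ℝ) ≤ T ^ 2)
  have h5 := mul_nonneg (by positivity : (0 : ℝ) ≤ 2 * T ^ 2) (neg_nonneg.2 hs2)
  have h6 := mul_nonneg (by nlinarith [mul_nonneg hT0.le (sq_nonneg T)] :
    (0 : ℝ) ≤ T ^ 3 + 2 * T ^ 2 + 3 * T - 2) (neg_nonneg.2 hs1)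
  linarith

lemma B0.m33 (h : B0 T x x' z z' p q q' p' w) {s t : ℝ}
    (hs : 2 * T * s ≤ T * x' + (T - 2) * x) (hs1 : (T + 2) * x + T * x' ≤ 0)
    (ht : 2 * T * t ≤ T * z' + (T - 2) * z) (ht1 : (T + 2) * z + T * z' ≤ 0) :
    p + q + q' + p' ≤ -((T - 1) * (s + t)) := by
  have hT := h.hT
  have hT0 : 0 < T := by linarith
  have k : (2 * T) * (p + q + q' + p') ≤ (2 * T) * (-((T - 1) * (s + t))) → 
    p + q + q' + p' ≤ -((T - 1) * (s + t)) := fun h => le_of_mul_le_mul_left h (by positivity)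
  apply k
  have h3 := mul_le_mul_of_nonneg_left hs (by linarith : (0 : ℝ) ≤ T - 1)
  have h4 := mul_le_mul_of_nonneg_left ht (by linarith : (0 : ℝ) ≤ T - 1)
  have h1 := mul_le_mul_of_nonneg_left (h.v3 h.w2) hT0.le
  have h2 := mul_le_mul_of_nonneg_left (h.swap.v3 h.w1) hT0.le
  linarith

lemma B0.m43 (h : B0 T x x' z z' p q q' p' w) {s t : ℝ}
    (hs : T ^ 2 * s ≤ -((T - 1) * x)) (hs1 : x ≤ 0)
    (ht : 2 * T * t ≤ T * z' + (T - 2) * z) (ht1 : (T + 2) * z + T * z' ≤ 0)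
    (ht2 : 0 ≤ T ^ 2 * z' + (T ^ 2 - 2) * z) :
    p + q + q' + p' ≤ -((T - 1) * (s + t)) := by
  have hT := h.hT
  have hT0 : 0 < T := by linarith
  have k : (2 * T ^ 2) * (p + q + q' + p') ≤ (2 * T ^ 2) * (-((T - 1) * (s + t))) → 
    p + q + q' + p' ≤ -((T - 1) * (s + t)) := fun h => le_of_mul_le_mul_left h (by positivity)
  apply k
  have hz : z ≤ 0 := by
    have h1 := mul_le_mul_of_nonneg_left ht1 hT0.le
    have h2 : (2 * T + 2) * z ≤ (2 * T + 2) * 0 := by linarith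
    exact le_of_mul_le_mul_left h2 (by linarith)
  have h3 := mul_le_mul_of_nonneg_left hs (by linarith : (0 : ℝ) ≤ 2 * (T - 1))
  have h4 := mul_le_mul_of_nonneg_left ht (by nlinarith : (0 : ℝ) ≤ T * (T - 1))
  have h1 := mul_le_mul_of_nonneg_left (h.v3 h.w2) (by positivity : (0 : ℝ) ≤ T ^ 2)
  have h2 := mul_le_mul_of_nonneg_left (h.swap.v3 h.w2) (by positivity : (0 : ℝ) ≤ T ^ 2)
  have h5 := mul_nonneg (by linarith : (0 : ℝ) ≤ T - 3) ht2
  have h6 := mul_nonneg (by linarith : (0 : ℝ) ≤ 4 * T - 2) (neg_nonneg.2 hs1)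
  linarith

lemma B0.m44 (h : B0 T x x' z z' p q q' p' w) {s t : ℝ}
    (hs : T ^ 2 * s ≤ -((T - 1) * x)) (hs1 : x ≤ 0) (hs2 : x + x' ≤ 0)
    (ht : T ^ 2 * t ≤ -((T - 1) * z)) (ht1 : z ≤ 0) (ht2 : z + z' ≤ 0) :
    p + q + q' + p' ≤ -((T - 1) * (s + t)) := by
  have hT := h.hT
  have hT0 : 0 < T := by linarith
  have k : (T ^ 2) * (p + q + q' + p') ≤ (T ^ 2) * (-((T - 1) * (s + t))) → 
    p + q + q' + p' ≤ -((T - 1) * (s + t)) := fun h => le_of_mul_le_mul_left h (by positivity)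
  apply k
  have h1 := mul_le_mul_of_nonneg_left h.v6 (by linarith : (0 : ℝ) ≤ T - 2)
  have h2 := h.v3 h.w6
  have h3 := h.swap.v3 h.w6
  have h7 : (T - 1) * (p + q + q' + p') ≤ (T - 1) * (x + z) := by
    have h4 := mul_nonneg (by linarith : (0 : ℝ) ≤ T - 2) (neg_nonneg.2 hs2)
    have h5 := mul_nonneg (by linarith : (0 : ℝ) ≤ T - 2) (neg_nonneg.2 ht2)
    linarith
  have h8 := le_of_mul_le_mul_left h7 (by linarith)
  have h9 := mul_le_mul_of_nonneg_left h8 (by positivity : (0 : ℝ) ≤ T ^ 2)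
  have h10 := mul_le_mul_of_nonneg_left hs (by linarith : (0 : ℝ) ≤ T - 1)
  have h11 := mul_le_mul_of_nonneg_left ht (by linarith : (0 : ℝ) ≤ T - 1)
  have h12 := mul_nonneg (by linarith : (0 : ℝ) ≤ 2 * T - 1) (neg_nonneg.2 hs1)
  have h13 := mul_nonneg (by linarith : (0 : ℝ) ≤ 2 * T - 1) (neg_nonneg.2 ht1)
  linarith

lemma B0.main (h : B0 T x x' z z' p q q' p' w) {s t : ℝ} (hs : Sg T x x' s)
    (ht : Sg T z z' t) : p + q + q' + p' ≤ -((T - 1) * (s + t)) := by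
  have sw : p + q' + q + p' ≤ -((T - 1) * (t + s)) → p + q + q' + p' ≤ -((T - 1) * (s + t)) := by
    intro h
    rw [add_comm s t]
    linarith
  rcases hs with a | ⟨a, a'⟩ | ⟨a, a', a''⟩ | ⟨a, a', a''⟩ <;>
    rcases ht with b | ⟨b, b'⟩ | ⟨b, b', b''⟩ | ⟨b, b', b''⟩
  · exact h.m11 a b
  · exact h.m12 a b
  · exact sw (h.swap.m31 b b' a)
  · exact sw (h.swap.m41 b b' a)
  · exact sw (h.swap.m12 b a)
  · exact h.m22 a a' b b'
  · exact sw (h.swap.m32 b b' a)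
  · exact sw (h.swap.m42 b b' b'' a)
  · exact h.m31 a a' b
  · exact h.m32 a a' b
  · exact h.m33 a a' b b'
  · exact sw (h.swap.m43 b b' a a' a'')
  · exact h.m41 a a' b
  · exact h.m42 a a' a'' b
  · exact h.m43 a a' b b' b''
  · exact h.m44 a a' a'' b b' b''

/-- no pair is missing -/
lemma pat0 (h : B0 T x x' z z' p q q' p' w) :
    p + q + q' + p' ≤
      -((T - 1) * (phi T x x' + phi T x' x + (phi T z z' + phi T z' z))) := by
  rcases sg h.hT x x' with a | a <;> rcases sg h.hT z z' with b | b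
  · exact h.main a b
  · have := h.swapF.main a b
    linarith
  · have := h.swapE.main a b
    linarith
  · have := h.swapE.swapF.main a b
    linarith

end

end Pool.OCY
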