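import Pool.Agent.OCY.Defs

/-!
MODULE PathAv (difficulty 3).  Averaging over the paths with `m` inner vertices.

RECIPE: induction on `m` of the stronger statement with a forbidden set: for all finite `Z` with
`Z.card ≤ z` (z any fixed number; the constants and `n₀` may depend on `m, z`), if the hypothesis holds for all
lists `L` whose vertices avoid `Z`, then the conclusion holds.
* `m = 1`: for `v` in `N(x) ∩ N(y)`, `v ∉ Z`, `v ≠ x, y`: `K + r x v + r v y ≤ 0`.  There are at least
  `2 η n - z ≥ η n` such `v` (`|N(x) ∩ N(y)| ≥ 2 (1/2 + η) n - n`; `x, y` are not in it).  Sum over `v`: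
  `K * #v ≤ ∑_v (|r x v| + |r v y|) ≤ rho x + rho y`; if `K ≤ 0` the claim is trivial (right side `≥ 0`),
  otherwise `K ≤ (rho x + rho y) / (η n)`.
* `m → m + 1`: for `v ∈ N(x)`, `v ∉ Z ∪ {y}` apply the case `m` to `v, y`, the forbidden set `Z ∪ {x}`
  and `K + r x v` (lists `v :: L`, `psum (x :: v :: L') = r x v + psum (v :: L')`):
  `K + r x v ≤ C/n (rho v + rho y) + C/n² tot`.  Sum over these `v` (at least `n/2 - z - 1 ≥ n/4` of them):
  `K ≤ (4/n) (rho x + C/n * tot) + C/n rho y + C/n² tot` (`∑_v rho v ≤ tot`), constant `max 4 (5 C)`.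
-/

open Finset
open scoped Classical

namespace Pool.OCY

theorem pathAv_rho_nonneg {V : Type} [Fintype V] (H : SimpleGraph V) (r : V → V → ℝ) (a : V) :
    0 ≤ rho H r a := Finset.sum_nonneg fun _ _ => abs_nonneg _

theorem pathAv_tot {V : Type} [Fintype V] (H : SimpleGraph V) (r : V → V → ℝ) :
    tot H r = ∑ a, rho H r a := rfl

theorem pathAv_tot_nonneg {V : Type} [Fintype V] (H : SimpleGraph V) (r : V → V → ℝ) :
    0 ≤ tot H r := by
  rw [pathAv_tot]
  exact Finset.sum_nonneg fun a _ => pathAv_rho_nonneg H r a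

theorem pathAv_sub {V : Type} [Fintype V] (H : SimpleGraph V) (r : V → V → ℝ) (x : V)
    (M : Finset V) (hM : ∀ v ∈ M, H.Adj x v) : ∑ v ∈ M, |r x v| ≤ rho H r x := by
  unfold rho
  have h1 : ∑ v ∈ M, |r x v| = ∑ v ∈ M, |ext H r x v| := by
    refine Finset.sum_congr rfl fun v hv => ?_
    unfold ext
    rw [if_pos (hM v hv)]
  rw [h1]
  exact Finset.sum_le_sum_of_subset_of_nonneg (Finset.subset_univ _) fun _ _ _ => abs_nonneg _

/-- the base case -/
theorem pathAv_one {η : ℝ} (hη : 0 < η) (z : ℕ) :
    ∃ C : ℝ, 0 < C ∧ ∃ n₀ : ℕ, ∀ (V : Type) [Fintype V], n₀ ≤ Fintype.card V →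
      ∀ (H : SimpleGraph V) (S : Finset V), (∀ a b, H.Adj a b → a ∈ S ∧ b ∈ S) →
      (∀ v ∈ S, (1 / 2 + η) * Fintype.card V ≤ H.degree v) →
      ∀ r : V → V → ℝ, (∀ a b, r a b = r b a) → ∀ Z : Finset V, Z.card ≤ z →
      ∀ x ∈ S, ∀ y ∈ S, x ≠ y → ∀ K : ℝ,
      (∀ L : List V, L.length = 1 → (x :: (L ++ [y])).Nodup →
        List.IsChain H.Adj (x :: (L ++ [y])) → (∀ v ∈ L, v ∉ Z) →
        K + psum r (x :: (L ++ [y])) ≤ 0) →
      K ≤ C / (Fintype.card V : ℝ) * (rho H r x + rho H r y)
        + C / (Fintype.card V : ℝ) ^ 2 * tot H r := by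
  refine ⟨1 / η, by positivity, ⌈(z : ℝ) / η⌉₊ + 1, ?_⟩
  intro V _ hn H S hS hdeg r hr Z hZ x hx y hy hxy K hK
  have hnz : (z : ℝ) / η + 1 ≤ Fintype.card V := by
    have h1 : (z : ℝ) / η ≤ ⌈(z : ℝ) / η⌉₊ := Nat.le_ceil _
    have h2 : ((⌈(z : ℝ) / η⌉₊ + 1 : ℕ) : ℝ) ≤ Fintype.card V := by exact_mod_cast hn
    push_cast at h2
    linarith
  have hnp : (0 : ℝ) < Fintype.card V := by
    have : (0 : ℝ) ≤ (z : ℝ) / η := by positivity
    linarith
  have hzn : (z : ℝ) ≤ η * Fintype.card V := by
    have h1 : (z : ℝ) / η ≤ Fintype.card V := by linarith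
    rw [div_le_iff₀ hη] at h1
    linarith
  set M : Finset V := (H.neighborFinset x ∩ H.neighborFinset y) \ Z with hM
  have hMx : ∀ v ∈ M, H.Adj x v := by
    intro v hv
    rw [hM, Finset.mem_sdiff, Finset.mem_inter, SimpleGraph.mem_neighborFinset] at hv
    exact hv.1.1
  have hMy : ∀ v ∈ M, H.Adj y v := by
    intro v hv
    rw [hM, Finset.mem_sdiff, Finset.mem_inter, SimpleGraph.mem_neighborFinset,
      SimpleGraph.mem_neighborFinset] at hv
    exact hv.1.2
  have hMZ : ∀ v ∈ M, v ∉ Z := by
    intro v hv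
    rw [hM, Finset.mem_sdiff] at hv
    exact hv.2
  have hcard : η * (Fintype.card V : ℝ) ≤ M.card := by
    have h1 : (H.neighborFinset x ∪ H.neighborFinset y).card +
        (H.neighborFinset x ∩ H.neighborFinset y).card =
        (H.neighborFinset x).card + (H.neighborFinset y).card :=
      Finset.card_union_add_card_inter _ _
    have h2 : (H.neighborFinset x ∪ H.neighborFinset y).card ≤ Fintype.card V :=
      Finset.card_le_univ _
    have h3 : (H.neighborFinset x ∩ H.neighborFinset y).card ≤ M.card + Z.card := by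
      have := Finset.card_le_card_sdiff_add_card (t := Z)
        (s := H.neighborFinset x ∩ H.neighborFinset y)
      exact this
    rw [SimpleGraph.card_neighborFinset_eq_degree, SimpleGraph.card_neighborFinset_eq_degree] at h1
    have h4 := hdeg x hx
    have h5 := hdeg y hy
    have h6 : ((H.neighborFinset x ∪ H.neighborFinset y).card : ℝ) +
        (H.neighborFinset x ∩ H.neighborFinset y).card = H.degree x + H.degree y := by
      exact_mod_cast h1
    have h7 : ((H.neighborFinset x ∪ H.neighborFinset y).card : ℝ) ≤ Fintype.card V := by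
      exact_mod_cast h2
    have h8 : ((H.neighborFinset x ∩ H.neighborFinset y).card : ℝ) ≤ M.card + Z.card := by
      exact_mod_cast h3
    have h9 : (Z.card : ℝ) ≤ z := by exact_mod_cast hZ
    nlinarith
  have hrx := pathAv_rho_nonneg H r x
  have hry := pathAv_rho_nonneg H r y
  have ht := pathAv_tot_nonneg H r
  have htt : 0 ≤ 1 / η / (Fintype.card V : ℝ) ^ 2 * tot H r := by positivity
  have hrr : 0 ≤ 1 / η / (Fintype.card V : ℝ) * (rho H r x + rho H r y) := by positivity
  by_cases hK0 : K ≤ 0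
  · linarith
  · push Not at hK0
    have hv : ∀ v ∈ M, K ≤ |r x v| + |r y v| := by
      intro v hvM
      have h1 := hK [v] rfl (by
        simp only [List.cons_append, List.nil_append, List.nodup_cons, List.mem_cons,
          List.not_mem_nil, or_false, not_or, List.nodup_nil, not_false_eq_true, and_true]
        exact ⟨⟨(hMx v hvM).ne, hxy⟩, (hMy v hvM).ne.symm⟩) (by
        simp only [List.cons_append, List.nil_append, List.isChain_cons_cons,
          List.isChain_singleton, and_true]
        exact ⟨hMx v hvM, (hMy v hvM).symm⟩) (by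
        intro w hw
        rw [List.mem_singleton] at hw
        subst hw
        exact hMZ w hvM)
      have h2 : psum r (x :: ([v] ++ [y])) = r x v + (r v y + 0) := rfl
      rw [h2, hr v y] at h1
      have h3 := neg_abs_le (r x v)
      have h4 := neg_abs_le (r y v)
      linarith
    have hsum : (M.card : ℝ) * K ≤ rho H r x + rho H r y := by
      have h1 : ∑ v ∈ M, K ≤ ∑ v ∈ M, (|r x v| + |r y v|) := Finset.sum_le_sum hv
      rw [Finset.sum_const, nsmul_eq_mul, Finset.sum_add_distrib] at h1
      have h2 := pathAv_sub H r x M hMx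
      have h3 := pathAv_sub H r y M hMy
      linarith
    have h1 : η * (Fintype.card V : ℝ) * K ≤ rho H r x + rho H r y :=
      (mul_le_mul_of_nonneg_right hcard hK0.le).trans hsum
    have h2 : K ≤ 1 / η / (Fintype.card V : ℝ) * (rho H r x + rho H r y) := by
      have h3 : 1 / η / (Fintype.card V : ℝ) * (rho H r x + rho H r y) =
          (rho H r x + rho H r y) / (η * Fintype.card V) := by
        field_simp
      rw [h3, le_div_iff₀ (by positivity)]
      linarith
    linarith

theorem pathAv_gen {η : ℝ} (hη : 0 < η) (m : ℕ) (hm : 1 ≤ m) :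
    ∀ z : ℕ, ∃ C : ℝ, 0 < C ∧ ∃ n₀ : ℕ, ∀ (V : Type) [Fintype V], n₀ ≤ Fintype.card V →
      ∀ (H : SimpleGraph V) (S : Finset V), (∀ a b, H.Adj a b → a ∈ S ∧ b ∈ S) →
      (∀ v ∈ S, (1 / 2 + η) * Fintype.card V ≤ H.degree v) →
      ∀ r : V → V → ℝ, (∀ a b, r a b = r b a) → ∀ Z : Finset V, Z.card ≤ z →
      ∀ x ∈ S, ∀ y ∈ S, x ≠ y → ∀ K : ℝ,
      (∀ L : List V, L.length = m → (x :: (L ++ [y])).Nodup →
        List.IsChain H.Adj (x :: (L ++ [y])) → (∀ v ∈ L, v ∉ Z) →
        K + psum r (x :: (L ++ [y])) ≤ 0) →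
      K ≤ C / (Fintype.card V : ℝ) * (rho H r x + rho H r y)
        + C / (Fintype.card V : ℝ) ^ 2 * tot H r := by
  induction m, hm using Nat.le_induction with
  | base => exact fun z => pathAv_one hη z
  | succ m hm ih =>
    intro z
    obtain ⟨C, hC, n₀, h⟩ := ih (z + 1)
    refine ⟨max 4 (5 * C), lt_max_of_lt_left (by norm_num), max n₀ (4 * (z + 1)), ?_⟩
    intro V _ hn H S hS hdeg r hr Z hZ x hx y hy hxy K hK
    have hn0 : n₀ ≤ Fintype.card V := (le_max_left _ _).trans hn
    have hn4 : 4 * (z + 1) ≤ Fintype.card V := (le_max_right _ _).trans hn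
    have hn4' : 4 * ((z : ℝ) + 1) ≤ Fintype.card V := by exact_mod_cast hn4
    have hnp : (0 : ℝ) < Fintype.card V := by
      have : (0 : ℝ) ≤ z := by positivity
      linarith
    set M : Finset V := H.neighborFinset x \ insert y Z with hM
    have hMx : ∀ v ∈ M, H.Adj x v := by
      intro v hv
      rw [hM, Finset.mem_sdiff, SimpleGraph.mem_neighborFinset] at hv
      exact hv.1
    have hMy : ∀ v ∈ M, v ≠ y := by
      intro v hv
      rw [hM, Finset.mem_sdiff, Finset.mem_insert, not_or] at hv
      exact hv.2.1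
    have hMZ : ∀ v ∈ M, v ∉ Z := by
      intro v hv
      rw [hM, Finset.mem_sdiff, Finset.mem_insert, not_or] at hv
      exact hv.2.2
    have hcard : (Fintype.card V : ℝ) / 4 ≤ M.card := by
      have h3 : (H.neighborFinset x).card ≤ M.card + (insert y Z).card :=
        Finset.card_le_card_sdiff_add_card
      rw [SimpleGraph.card_neighborFinset_eq_degree] at h3
      have h4 := hdeg x hx
      have h5 : (insert y Z).card ≤ z + 1 := (Finset.card_insert_le _ _).trans (by omega)
      have h6 : (H.degree x : ℝ) ≤ M.card + (z + 1) := by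
        have : H.degree x ≤ M.card + (z + 1) := by omega
        exact_mod_cast this
      nlinarith
    have hrx := pathAv_rho_nonneg H r x
    have hry := pathAv_rho_nonneg H r y
    have ht := pathAv_tot_nonneg H r
    set n : ℝ := ((Fintype.card V : ℕ) : ℝ) with hnn
    have hv : ∀ v ∈ M, K ≤ |r x v| + C / n * rho H r v +
        (C / n * rho H r y + C / n ^ 2 * tot H r) := by
      intro v hvM
      have hvS : v ∈ S := (hS x v (hMx v hvM)).2
      have h1 := h V hn0 H S hS hdeg r hr (insert x Z) ((Finset.card_insert_le _ _).trans (by omega))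
        v hvS y hy (hMy v hvM) (K + r x v) (by
          intro L hL hnd hch hLZ
          have h2 := hK (v :: L) (by simp [hL]) (by
            rw [List.cons_append, List.nodup_cons]
            refine ⟨?_, hnd⟩
            rw [List.mem_cons, List.mem_append, List.mem_singleton]
            rintro (h3 | h3 | h3)
            · exact (hMx v hvM).ne h3
            · exact hLZ x h3 (Finset.mem_insert_self _ _)
            · exact hxy h3) (by
            rw [List.cons_append, List.isChain_cons_cons]
            exact ⟨hMx v hvM, hch⟩) (by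
            intro w hw
            rcases List.mem_cons.1 hw with rfl | hw
            · exact hMZ w hvM
            · exact fun hwZ => hLZ w hw (Finset.mem_insert_of_mem hwZ))
          have h3 : psum r (x :: (v :: L ++ [y])) = r x v + psum r (v :: (L ++ [y])) := rfl
          rw [h3] at h2
          linarith)
      have h4 := neg_abs_le (r x v)
      rw [← hnn] at h1
      linarith
    have hsum : (M.card : ℝ) * K ≤ rho H r x + C / n * tot H r +
        M.card * (C / n * rho H r y + C / n ^ 2 * tot H r) := by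
      have h1 : ∑ v ∈ M, K ≤ ∑ v ∈ M, (|r x v| + C / n * rho H r v +
        (C / n * rho H r y + C / n ^ 2 * tot H r)) := Finset.sum_le_sum hv
      rw [Finset.sum_const, nsmul_eq_mul, Finset.sum_add_distrib, Finset.sum_add_distrib,
        Finset.sum_const, nsmul_eq_mul, ← Finset.mul_sum] at h1
      have h2 := pathAv_sub H r x M hMx
      have h3 : ∑ v ∈ M, rho H r v ≤ tot H r := by
        rw [pathAv_tot]
        exact Finset.sum_le_sum_of_subset_of_nonneg (Finset.subset_univ _)
          fun v _ _ => pathAv_rho_nonneg H r v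
      have h4 : C / n * ∑ v ∈ M, rho H r v ≤ C / n * tot H r :=
        mul_le_mul_of_nonneg_left h3 (by positivity)
      linarith
    set B : ℝ := C / n * rho H r y + C / n ^ 2 * tot H r with hB
    set A : ℝ := rho H r x + C / n * tot H r with hA
    have hA0 : 0 ≤ A := by positivity
    have hkey : K ≤ B + 4 * A / n := by
      by_cases hKB : K - B ≤ 0
      · have : 0 ≤ 4 * A / n := by positivity
        linarith
      · push Not at hKB
        have h1 : n / 4 * (K - B) ≤ M.card * (K - B) := mul_le_mul_of_nonneg_right hcard hKB.le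
        have h2 : n / 4 * (K - B) ≤ A := by nlinarith
        have h3 : K - B ≤ 4 * A / n := by
          rw [le_div_iff₀ hnp]
          linarith
        linarith
    have hm4 : (4 : ℝ) ≤ max 4 (5 * C) := le_max_left _ _
    have hm5 : 5 * C ≤ max 4 (5 * C) := le_max_right _ _
    set C' : ℝ := max 4 (5 * C) with hC'
    have hmC : C ≤ C' := by linarith
    have f1 : 4 / n * rho H r x ≤ C' / n * rho H r x := by gcongr
    have f2 : C / n * rho H r y ≤ C' / n * rho H r y := by gcongr
    have f3 : 5 * C / n ^ 2 * tot H r ≤ C' / n ^ 2 * tot H r := by gcongr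
    have f4 : B + 4 * A / n = 4 / n * rho H r x + C / n * rho H r y + 5 * C / n ^ 2 * tot H r := by
      rw [hA, hB]
      field_simp
      ring
    rw [f4] at hkey
    linarith

theorem path_av {η : ℝ} (hη : 0 < η) (hη1 : η ≤ 1 / 2) (m : ℕ) (hm : 1 ≤ m) :
    ∃ C : ℝ, 0 < C ∧ ∃ n₀ : ℕ, ∀ (V : Type) [Fintype V], n₀ ≤ Fintype.card V →
      ∀ (H : SimpleGraph V) (S : Finset V), (∀ a b, H.Adj a b → a ∈ S ∧ b ∈ S) →
      (∀ v ∈ S, (1 / 2 + η) * Fintype.card V ≤ H.degree v) →
      ∀ r : V → V → ℝ, (∀ a b, r a b = r b a) → ∀ x ∈ S, ∀ y ∈ S, x ≠ y → ∀ K : ℝ,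
      (∀ L : List V, L.length = m → (x :: (L ++ [y])).Nodup →
        List.IsChain H.Adj (x :: (L ++ [y])) → K + psum r (x :: (L ++ [y])) ≤ 0) →
      K ≤ C / (Fintype.card V : ℝ) * (rho H r x + rho H r y)
        + C / (Fintype.card V : ℝ) ^ 2 * tot H r := by
  obtain ⟨C, hC, n₀, h⟩ := pathAv_gen hη m hm 0
  refine ⟨C, hC, n₀, ?_⟩
  intro V _ hn H S hS hdeg r hr x hx y hy hxy K hK
  exact h V hn H S hS hdeg r hr ∅ (by simp) x hx y hy hxy K
    (fun L hL hnd hch _ => hK L hL hnd hch)

end Pool.OCY
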