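import Pool.Agent.OCY.Defs

/-! Elementary facts on the multiplier `phi`. -/

open Finset
open scoped Classical

namespace Pool.OCY

lemma phi_1 (T x y : ℝ) : (x + y) / 2 ≤ phi T x y := (le_max_left _ _).trans (le_max_left _ _)
lemma phi_2 (T x y : ℝ) : -(x + y) / (2 * T) ≤ phi T x y :=
  (le_max_right _ _).trans (le_max_left _ _)
lemma phi_3 (T x y : ℝ) : (y - x) / (2 * T) + x / T ^ 2 ≤ phi T x y :=
  (le_max_left _ _).trans (le_max_right _ _)
lemma phi_4 (T x y : ℝ) : (T - 1) * (x + y) / (2 * T) - y / T ^ 2 ≤ phi T x y :=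
  (le_max_right _ _).trans (le_max_right _ _)

lemma phi_1' (T x y : ℝ) : x + y ≤ 2 * phi T x y := by linarith [phi_1 T x y]

lemma phi_2' {T : ℝ} (hT : 0 < T) (x y : ℝ) : -(x + y) ≤ 2 * T * phi T x y := by
  have h := phi_2 T x y
  rw [div_le_iff₀ (by linarith)] at h
  linarith

lemma phi_3' {T : ℝ} (hT : 0 < T) (x y : ℝ) : T * (y - x) + 2 * x ≤ 2 * T ^ 2 * phi T x y := by
  have h := phi_3 T x y
  have e : (y - x) / (2 * T) + x / T ^ 2 = (T * (y - x) + 2 * x) / (2 * T ^ 2) := by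
    field_simp
  rw [e, div_le_iff₀ (by positivity)] at h
  linarith

lemma phi_4' {T : ℝ} (hT : 0 < T) (x y : ℝ) :
    T * (T - 1) * (x + y) - 2 * y ≤ 2 * T ^ 2 * phi T x y := by
  have h := phi_4 T x y
  have e : (T - 1) * (x + y) / (2 * T) - y / T ^ 2
      = (T * (T - 1) * (x + y) - 2 * y) / (2 * T ^ 2) := by
    field_simp
  rw [e, div_le_iff₀ (by positivity)] at h
  linarith

lemma phi_nonneg {T : ℝ} (hT : 0 < T) (x y : ℝ) : 0 ≤ phi T x y := by
  have h1 := phi_1' T x y
  have h2 := phi_2' hT x y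
  have h3 : 0 ≤ (2 + 2 * T) * phi T x y := by linarith
  exact nonneg_of_mul_nonneg_right h3 (by linarith)

/-- the four pieces, scaled by `2 T ^ 2` -/
lemma phi_eq {T : ℝ} (hT : 0 < T) (x y : ℝ) : 2 * T ^ 2 * phi T x y =
    max (max (T ^ 2 * (x + y)) (-(T * (x + y))))
      (max (T * (y - x) + 2 * x) (T * (T - 1) * (x + y) - 2 * y)) := by
  unfold phi
  have hp : (0 : ℝ) ≤ 2 * T ^ 2 := by positivity
  rw [mul_max_of_nonneg _ _ hp, mul_max_of_nonneg _ _ hp, mul_max_of_nonneg _ _ hp]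
  congr 1
  · congr 1
    · field_simp
    · field_simp
  · congr 1
    · field_simp
    · field_simp

/-- case distinction on the piece which is the maximum -/
lemma phi_cases {T : ℝ} (hT : 0 < T) (x y : ℝ) :
    (2 * phi T x y = x + y ∧ 0 ≤ x + y ∧
      T * (y - x) + 2 * x ≤ T ^ 2 * (x + y) ∧ -(2 * y) ≤ T * (x + y)) ∨
    (2 * T * phi T x y = -(x + y) ∧ x + y ≤ 0 ∧
      T * (y - x) + 2 * x ≤ -(T * (x + y)) ∧ T * (T - 1) * (x + y) - 2 * y ≤ -(T * (x + y))) ∨
    (2 * T ^ 2 * phi T x y = T * (y - x) + 2 * x ∧ T ^ 2 * (x + y) ≤ T * (y - x) + 2 * x ∧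
      -(T * (x + y)) ≤ T * (y - x) + 2 * x ∧
      T * (T - 1) * (x + y) - 2 * y ≤ T * (y - x) + 2 * x) ∨
    (2 * T ^ 2 * phi T x y = T * (T - 1) * (x + y) - 2 * y ∧ T * (x + y) ≤ -(2 * y) ∧
      -(T * (x + y)) ≤ T * (T - 1) * (x + y) - 2 * y ∧
      T * (y - x) + 2 * x ≤ T * (T - 1) * (x + y) - 2 * y) := by
  have h := phi_eq hT x y
  set P1 := T ^ 2 * (x + y) with hP1
  set P2 := -(T * (x + y)) with hP2
  set P3 := T * (y - x) + 2 * x with hP3
  set P4 := T * (T - 1) * (x + y) - 2 * y with hP4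
  have hT2 : 0 < T ^ 2 := by positivity
  rcases le_total (max P1 P2) (max P3 P4) with h1 | h1
  · rw [max_eq_right h1] at h
    have a1 : P1 ≤ max P3 P4 := (le_max_left _ _).trans h1
    have a2 : P2 ≤ max P3 P4 := (le_max_right _ _).trans h1
    rcases le_total P3 P4 with h2 | h2
    · rw [max_eq_right h2] at h a1 a2
      refine Or.inr (Or.inr (Or.inr ⟨h, ?_, a2, h2⟩))
      rw [hP1, hP4] at a1
      nlinarith
    · rw [max_eq_left h2] at h a1 a2
      exact Or.inr (Or.inr (Or.inl ⟨h, a1, a2, h2⟩))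
  · rw [max_eq_left h1] at h
    have a3 : P3 ≤ max P1 P2 := (le_max_left _ _).trans h1
    have a4 : P4 ≤ max P1 P2 := (le_max_right _ _).trans h1
    rcases le_total P1 P2 with h2 | h2
    · rw [max_eq_right h2] at h a3 a4
      refine Or.inr (Or.inl ⟨?_, ?_, a3, a4⟩)
      · have : T * (2 * T * phi T x y) = T * (-(x + y)) := by rw [hP2] at h; linarith
        exact mul_left_cancel₀ hT.ne' this
      · by_contra hc
        push Not at hc
        have h5 : 0 < T ^ 2 * (x + y) := by positivity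
        have h6 : 0 < T * (x + y) := by positivity
        rw [hP1, hP2] at h2
        linarith
    · rw [max_eq_left h2] at h a3 a4
      refine Or.inl ⟨?_, ?_, a3, ?_⟩
      · have : T ^ 2 * (2 * phi T x y) = T ^ 2 * (x + y) := by rw [hP1] at h; linarith
        exact mul_left_cancel₀ hT2.ne' this
      · by_contra hc
        push Not at hc
        have h5 : T ^ 2 * (x + y) < 0 := mul_neg_of_pos_of_neg hT2 hc
        have h6 : T * (x + y) < 0 := mul_neg_of_pos_of_neg hT hc
        rw [hP1, hP2] at h2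
        linarith
      · rw [hP1, hP4] at a4
        nlinarith

/-- lower bound for the sum over an edge -/
lemma phi_add_ge {T : ℝ} (hT : 3 ≤ T) (x y : ℝ) :
    (|x| + |y|) / (2 * T ^ 2) ≤ phi T x y + phi T y x := by
  have hT0 : 0 < T := by linarith
  have a1 := phi_1' T x y
  have a2 := phi_2' hT0 x y
  have a3 := phi_3' hT0 x y
  have b3 := phi_3' hT0 y x
  have b2 := phi_2' hT0 y x
  have b1 := phi_1' T y x
  have n1 := phi_nonneg hT0 x y
  have n2 := phi_nonneg hT0 y x
  rw [div_le_iff₀ (by positivity)]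
  set u := phi T x y
  set v := phi T y x
  have hu : 0 ≤ T ^ 2 * u := by positivity
  have hv : 0 ≤ T ^ 2 * v := by positivity
  rcases le_total 0 x with hx | hx <;> rcases le_total 0 y with hy | hy
  · rw [abs_of_nonneg hx, abs_of_nonneg hy]
    nlinarith
  · rw [abs_of_nonneg hx, abs_of_nonpos hy]
    nlinarith
  · rw [abs_of_nonpos hx, abs_of_nonneg hy]
    nlinarith
  · rw [abs_of_nonpos hx, abs_of_nonpos hy]
    nlinarith

end Pool.OCY
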