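import Pool.Agent.OCY.StarA
import Pool.Agent.OCY.StarB
import Pool.Agent.OCY.Tail
import Pool.Agent.OCY.Const

/-!
MODULE Star (difficulty 4).  The sampling inequality.

RECIPE.  Let `n = card V`.  If `V` is empty everything is `0`.  Put `p = 1/2 - 1/(2T) - ε` (`≥ 1/3 - 1/12 > 0`,
as `1/(2T) ≤ 1/6`), `θ = p + ε/2`, `c₁ = (ε/2) / (8 T)`, `ρ = c₁ / 4`, and `M, x` from `exists_const`.
The number of `w` with `¬ Adj u w` is `n - deg u ≤ p n`.
For `U : Fin M → V` call `U` good if for all `v` the number of `l` with `¬ Adj (U v) (U l)` is `≤ θ M`;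
then the number of `l` with `Adj` is `≥ (1 - θ) M = (1/2 + 1/(2T) + ε/2) M` and `good_U` applies with `ε/2`:
`Q U := ∑ i j, ext (U i) (U j) + c₁ ∑ i j, |ext (U i) (U j)| ≤ M ^ 2 X U`, `X U = ∑ i j k l, exc4 ...`.
If `U` is bad, `Q U ≤ 2 ∑_{i≠j} |ext (U i) (U j)|` (`c₁ ≤ 1`, the terms `i = j` vanish), and
`1_{U bad} ≤ ∑_v 1[θ M < number of l ...]`.  Sum over `U`:
`∑_U Q U ≤ M ^ 2 ∑_U X U + 2 ∑_{i ≠ j} ∑_v ∑_U (if θ M < .. then |ext (U i) (U j)| else 0)`.
Left side: by `avg2`, `n ^ 2 ∑_U Q U = M (M-1) n ^ M (∑ ext + c₁ tot)` (terms `i = j` vanish).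
Last sum: by `tail` (with `F = |ext G r|`), `n ^ 2 * (...) ≤ M (M-1) * M * x^3 q^M * n ^ M * tot ≤ M (M-1) ρ n ^ M tot`.
`∑_U X U` by `sum_exc`.  Divide by `M (M-1) n ^ M`:
`∑ ext + (c₁ - 2 ρ) tot ≤ M ^ 2 / (M (M-1)) * n ^ 2 * (M ^ 4 E4 / n ^ 4 + 2 M ^ 3 E3 / n ^ 3)`, so `c = c₁ / 2` and
`C = 2 (M ^ 4 + 2 M ^ 3)` work (`M ≥ 2` gives `M ^ 2 ≤ 2 M (M - 1)`).
-/

open Finset
open scoped Classical

namespace Pool.OCY

theorem star_cnt (M : ℕ) (K : ℝ) :
    ∑ i : Fin M, ∑ j : Fin M, (if i = j then 0 else K) = (M : ℝ) * ((M : ℝ) - 1) * K := by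
  have h1 : ∀ i : Fin M, ∑ j : Fin M, (if i = j then 0 else K) = ((M : ℝ) - 1) * K := by
    intro i
    have h2 : ∀ j : Fin M, (if i = j then (0 : ℝ) else K) = K - (if i = j then K else 0) := by
      intro j
      split_ifs <;> ring
    rw [Finset.sum_congr rfl (fun j _ => h2 j), Finset.sum_sub_distrib]
    simp
    ring
  rw [Finset.sum_congr rfl (fun i _ => h1 i)]
  simp
  ring

theorem star_pair {V : Type*} [Fintype V] (M : ℕ) (g : V → V → ℝ) (hg : ∀ a, g a a = 0) :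
    (Fintype.card V : ℝ) ^ 2 * ∑ U : Fin M → V, ∑ i, ∑ j, g (U i) (U j)
      = (M : ℝ) * ((M : ℝ) - 1) * ((Fintype.card V : ℝ) ^ M * ∑ a, ∑ b, g a b) := by
  rw [← star_cnt M, Finset.mul_sum]
  have h1 : ∑ U : Fin M → V, (Fintype.card V : ℝ) ^ 2 * ∑ i, ∑ j, g (U i) (U j)
      = ∑ U : Fin M → V, ∑ i, ∑ j, (Fintype.card V : ℝ) ^ 2 * g (U i) (U j) := by
    apply Finset.sum_congr rfl
    intro U _
    rw [Finset.mul_sum]
    apply Finset.sum_congr rfl
    intro i _
    rw [Finset.mul_sum]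
  rw [h1, Finset.sum_comm]
  apply Finset.sum_congr rfl
  intro i _
  rw [Finset.sum_comm]
  apply Finset.sum_congr rfl
  intro j _
  rw [← Finset.mul_sum]
  by_cases hij : i = j
  · subst hij
    rw [if_pos rfl]
    simp [hg]
  · rw [if_neg hij]
    exact avg2 hij g

theorem star_tail {V : Type*} [Fintype V] (M : ℕ) (G : SimpleGraph V) {p θ x : ℝ} (hp : 0 ≤ p)
    (hG : ∀ u, ((univ.filter fun w => ¬ G.Adj u w).card : ℝ) ≤ p * Fintype.card V)
    (hx : 1 ≤ x) (F : V → V → ℝ) (hF : ∀ a b, 0 ≤ F a b) (hF0 : ∀ a, F a a = 0) :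
    (Fintype.card V : ℝ) ^ 2 * ∑ U : Fin M → V, ∑ i, ∑ j, ∑ v : Fin M,
        (if θ * M < ((univ.filter fun l => ¬ G.Adj (U v) (U l)).card : ℝ) then F (U i) (U j) else 0)
      ≤ (M : ℝ) * ((M : ℝ) - 1) * ((M : ℝ) * (x ^ 3 * ((1 + (x - 1) * p) / x ^ θ) ^ M) *
          ((Fintype.card V : ℝ) ^ M * ∑ a, ∑ b, F a b)) := by
  rw [← star_cnt M, Finset.mul_sum]
  have h1 : ∑ U : Fin M → V, (Fintype.card V : ℝ) ^ 2 * ∑ i, ∑ j, ∑ v : Fin M,
        (if θ * M < ((univ.filter fun l => ¬ G.Adj (U v) (U l)).card : ℝ) then F (U i) (U j) else 0)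
      = ∑ U : Fin M → V, ∑ i, ∑ j, ∑ v : Fin M, (Fintype.card V : ℝ) ^ 2 *
        (if θ * M < ((univ.filter fun l => ¬ G.Adj (U v) (U l)).card : ℝ)
          then F (U i) (U j) else 0) := by
    apply Finset.sum_congr rfl
    intro U _
    rw [Finset.mul_sum]
    apply Finset.sum_congr rfl
    intro i _
    rw [Finset.mul_sum]
    apply Finset.sum_congr rfl
    intro j _
    rw [Finset.mul_sum]
  rw [h1, Finset.sum_comm]
  apply Finset.sum_le_sum
  intro i _
  rw [Finset.sum_comm]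
  apply Finset.sum_le_sum
  intro j _
  rw [Finset.sum_comm]
  by_cases hij : i = j
  · subst hij
    rw [if_pos rfl]
    simp [hF0]
  · rw [if_neg hij]
    have h2 : ∀ v : Fin M, ∑ U : Fin M → V, (Fintype.card V : ℝ) ^ 2 *
        (if θ * M < ((univ.filter fun l => ¬ G.Adj (U v) (U l)).card : ℝ)
          then F (U i) (U j) else 0)
        ≤ x ^ 3 * ((1 + (x - 1) * p) / x ^ θ) ^ M * (Fintype.card V : ℝ) ^ M *
          ∑ a, ∑ b, F a b := by
      intro v
      rw [← Finset.mul_sum]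
      exact tail hij v G hp hG hx F hF
    refine (Finset.sum_le_sum fun v _ => h2 v).trans (le_of_eq ?_)
    rw [Finset.sum_const, nsmul_eq_mul, Finset.card_univ, Fintype.card_fin]
    ring

theorem exc4_nonneg' {V : Type*} (G : SimpleGraph V) (T : ℝ) (r : V → V → ℝ) (a b c d : V) :
    0 ≤ exc4 G T r a b c d := by
  unfold exc4
  split_ifs
  · exact le_max_left _ _
  · exact le_rfl

theorem exc3_nonneg' {V : Type*} (G : SimpleGraph V) (T : ℝ) (r : V → V → ℝ) (a b c : V) :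
    0 ≤ exc3 G T r a b c := by
  unfold exc3
  split_ifs
  · exact le_max_left _ _
  · exact le_rfl

theorem star_ext_self {V : Type*} (G : SimpleGraph V) (r : V → V → ℝ) (a : V) :
    ext G r a a = 0 := by
  unfold ext
  rw [if_neg (G.loopless.irrefl a)]

theorem star_alg {n m A t c₁ E4 E3 W Z nM y : ℝ} (hn0 : 0 < n) (hM : 2 ≤ m) (ht : 0 ≤ t)
    (hE4 : 0 ≤ E4) (hE3 : 0 ≤ E3) (hnM : 0 < nM)
    (h1 : m * (m - 1) * (nM * (A + c₁ * t)) ≤ n ^ 2 * (m ^ 2 * W) + n ^ 2 * (2 * Z))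
    (h2 : n ^ 2 * Z ≤ m * (m - 1) * (y * (nM * t))) (hy : y ≤ c₁ / 4)
    (h3 : W ≤ nM * (m ^ 4 * E4 / n ^ 4 + 2 * m ^ 3 * E3 / n ^ 3)) :
    A + c₁ / 2 * t ≤ (2 * m ^ 4 + 4 * m ^ 3) * (E4 / n ^ 2 + E3 / n) := by
  have hMM : 0 < m * (m - 1) := mul_pos (by linarith) (by linarith)
  have hR2 : n ^ 2 * Z ≤ m * (m - 1) * ((c₁ / 4) * (nM * t)) := by
    refine h2.trans ?_
    apply mul_le_mul_of_nonneg_left _ hMM.le
    apply mul_le_mul_of_nonneg_right hy
    exact mul_nonneg hnM.le ht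
  obtain ⟨B, hB⟩ : ∃ B, B = m ^ 4 * E4 / n ^ 4 + 2 * m ^ 3 * E3 / n ^ 3 := ⟨_, rfl⟩
  have hB0 : 0 ≤ B := by rw [hB]; positivity
  rw [← hB] at h3
  have hE2 : n ^ 2 * (m ^ 2 * W) ≤ m * (m - 1) * (2 * n ^ 2 * nM * B) := by
    have h1 : m ^ 2 ≤ 2 * (m * (m - 1)) := by nlinarith
    calc n ^ 2 * (m ^ 2 * W) ≤ n ^ 2 * (m ^ 2 * (nM * B)) := by
          apply mul_le_mul_of_nonneg_left _ (sq_nonneg n)
          exact mul_le_mul_of_nonneg_left h3 (sq_nonneg _)
      _ = m ^ 2 * (n ^ 2 * nM * B) := by ring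
      _ ≤ 2 * (m * (m - 1)) * (n ^ 2 * nM * B) :=
          mul_le_mul_of_nonneg_right h1 (mul_nonneg (mul_nonneg (sq_nonneg n) hnM.le) hB0)
      _ = _ := by ring
  have hfin : m * (m - 1) * (nM * (A + c₁ * t))
      ≤ m * (m - 1) * (nM * (2 * n ^ 2 * B + c₁ / 2 * t)) := by
    calc m * (m - 1) * (nM * (A + c₁ * t))
        ≤ n ^ 2 * (m ^ 2 * W) + n ^ 2 * (2 * Z) := h1
      _ = n ^ 2 * (m ^ 2 * W) + 2 * (n ^ 2 * Z) := by ring
      _ ≤ m * (m - 1) * (2 * n ^ 2 * nM * B)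
          + 2 * (m * (m - 1) * ((c₁ / 4) * (nM * t))) := by linarith
      _ = _ := by ring
  have hfin2 := le_of_mul_le_mul_left (le_of_mul_le_mul_left hfin hMM) hnM
  have hB2 : 2 * n ^ 2 * B = 2 * m ^ 4 * (E4 / n ^ 2) + 4 * m ^ 3 * (E3 / n) := by
    rw [hB]
    field_simp
    ring
  have h4 : 0 ≤ E4 / n ^ 2 := by positivity
  have h3 : 0 ≤ E3 / n := by positivity
  have h5 : 0 ≤ m ^ 4 := by positivity
  have h6 : 0 ≤ m ^ 3 := by positivity
  have h7 : 0 ≤ m ^ 4 * (E3 / n) := mul_nonneg h5 h3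
  have h8 : 0 ≤ m ^ 3 * (E4 / n ^ 2) := mul_nonneg h6 h4
  nlinarith

theorem star {T ε : ℝ} (hT : 3 ≤ T) (hε : 0 < ε) (hε1 : ε ≤ 1 / 12) :
    ∃ c C : ℝ, 0 < c ∧ 0 < C ∧ ∀ (V : Type) [Fintype V] (G : SimpleGraph V),
      (∀ v, (1 / 2 + 1 / (2 * T) + ε) * Fintype.card V ≤ G.degree v) →
      ∀ r : V → V → ℝ, (∀ a b, r a b = r b a) →
        ∑ a, ∑ b, ext G r a b + c * tot G r
          ≤ C * ((∑ a, ∑ b, ∑ c', ∑ d, exc4 G T r a b c' d) / (Fintype.card V : ℝ) ^ 2
            + (∑ a, ∑ b, ∑ c', exc3 G T r a b c') / (Fintype.card V : ℝ)) := by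
  have hT0 : 0 < T := by linarith
  have hT6 : 1 / (2 * T) ≤ 1 / 6 := by
    apply one_div_le_one_div_of_le <;> linarith
  have hT6' : 0 < 1 / (2 * T) := by positivity
  set p : ℝ := 1 / 2 - 1 / (2 * T) - ε with hpdef
  have hp : 0 < p := by rw [hpdef]; linarith
  set θ : ℝ := p + ε / 2 with hθdef
  have hpθ : p < θ := by rw [hθdef]; linarith
  set c₁ : ℝ := (ε / 2) / (8 * T) with hc₁
  have hc₁0 : 0 < c₁ := by rw [hc₁]; positivity
  have hc₁1 : c₁ ≤ 1 := by
    rw [hc₁, div_le_one (by positivity)]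
    linarith
  obtain ⟨M, hM2, x, hx, hMx⟩ := exists_const (p := p) (θ := θ) (ρ := c₁ / 4) hp hpθ (by positivity)
  have hMr : (2 : ℝ) ≤ M := by exact_mod_cast hM2
  refine ⟨c₁ / 2, 2 * (M : ℝ) ^ 4 + 4 * (M : ℝ) ^ 3, by positivity, by positivity, ?_⟩
  intro V _ G hdeg r hs
  rcases isEmpty_or_nonempty V with hV | hV
  · simp [tot]
  set n : ℝ := (Fintype.card V : ℝ) with hn
  have hn0 : 0 < n := by
    rw [hn]
    exact_mod_cast Fintype.card_pos
  -- few non-neighbours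
  have hG : ∀ u, ((univ.filter fun w => ¬ G.Adj u w).card : ℝ) ≤ p * n := by
    intro u
    have h1 : (univ.filter fun w => G.Adj u w).card + (univ.filter fun w => ¬ G.Adj u w).card
        = Fintype.card V := by
      rw [Finset.card_filter_add_card_filter_not, Finset.card_univ]
    have h2 : (univ.filter fun w => G.Adj u w).card = G.degree u := by
      rw [← SimpleGraph.card_neighborFinset_eq_degree]
      congr 1
      ext w
      simp
    have h3 : (G.degree u : ℝ) + ((univ.filter fun w => ¬ G.Adj u w).card : ℝ) = n := by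
      rw [hn, ← h1, h2]
      push_cast
      ring
    have h4 := hdeg u
    rw [hpdef]
    nlinarith
  set E4 : ℝ := ∑ a, ∑ b, ∑ c', ∑ d, exc4 G T r a b c' d with hE4
  set E3 : ℝ := ∑ a, ∑ b, ∑ c', exc3 G T r a b c' with hE3
  set A : ℝ := ∑ a, ∑ b, ext G r a b with hA
  have hE40 : 0 ≤ E4 := Finset.sum_nonneg fun a _ => Finset.sum_nonneg fun b _ =>
    Finset.sum_nonneg fun c _ => Finset.sum_nonneg fun d _ => exc4_nonneg' G T r a b c d
  have hE30 : 0 ≤ E3 := Finset.sum_nonneg fun a _ => Finset.sum_nonneg fun b _ =>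
    Finset.sum_nonneg fun c _ => exc3_nonneg' G T r a b c
  have htot0 : 0 ≤ tot G r := Finset.sum_nonneg fun a _ => Finset.sum_nonneg fun b _ => abs_nonneg _
  -- pointwise bound
  have hpt : ∀ U : Fin M → V,
      ∑ i, ∑ j, (ext G r (U i) (U j) + c₁ * |ext G r (U i) (U j)|)
        ≤ (M : ℝ) ^ 2 * ∑ i, ∑ j, ∑ k, ∑ l, exc4 G T r (U i) (U j) (U k) (U l)
          + 2 * ∑ i, ∑ j, ∑ v : Fin M,
            (if θ * M < ((univ.filter fun l => ¬ G.Adj (U v) (U l)).card : ℝ)
              then |ext G r (U i) (U j)| else 0) := by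
    intro U
    have hsplit : ∑ i, ∑ j, (ext G r (U i) (U j) + c₁ * |ext G r (U i) (U j)|)
        = ∑ i, ∑ j, ext G r (U i) (U j) + c₁ * ∑ i, ∑ j, |ext G r (U i) (U j)| := by
      rw [Finset.mul_sum, ← Finset.sum_add_distrib]
      apply Finset.sum_congr rfl
      intro i _
      rw [Finset.mul_sum, ← Finset.sum_add_distrib]
    have hX0 : 0 ≤ ∑ i, ∑ j, ∑ k, ∑ l, exc4 G T r (U i) (U j) (U k) (U l) :=
      Finset.sum_nonneg fun a _ => Finset.sum_nonneg fun b _ =>
        Finset.sum_nonneg fun c _ => Finset.sum_nonneg fun d _ => exc4_nonneg' G T r _ _ _ _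
    have hY0 : ∀ i j, 0 ≤ ∑ v : Fin M,
            (if θ * M < ((univ.filter fun l => ¬ G.Adj (U v) (U l)).card : ℝ)
              then |ext G r (U i) (U j)| else 0) := by
      intro i j
      apply Finset.sum_nonneg
      intro v _
      split_ifs
      · exact abs_nonneg _
      · exact le_rfl
    by_cases hgood : ∀ v, ((univ.filter fun l => ¬ G.Adj (U v) (U l)).card : ℝ) ≤ θ * M
    · have h1 : ∀ v, (1 / 2 + 1 / (2 * T) + ε / 2) * M
          ≤ ((univ.filter fun l => G.Adj (U v) (U l)).card : ℝ) := by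
        intro v
        have h2 : (univ.filter fun l => G.Adj (U v) (U l)).card
            + (univ.filter fun l => ¬ G.Adj (U v) (U l)).card = M := by
          rw [Finset.card_filter_add_card_filter_not, Finset.card_univ, Fintype.card_fin]
        have h3 : ((univ.filter fun l => G.Adj (U v) (U l)).card : ℝ)
            + ((univ.filter fun l => ¬ G.Adj (U v) (U l)).card : ℝ) = (M : ℝ) := by
          exact_mod_cast h2
        have h4 := hgood v
        rw [hθdef, hpdef] at h4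
        nlinarith
      have h2 := good_U hT (ε := ε / 2) (by linarith) (by linarith) hs U h1
      rw [hsplit]
      have h3 : 0 ≤ ∑ i, ∑ j, ∑ v : Fin M,
            (if θ * M < ((univ.filter fun l => ¬ G.Adj (U v) (U l)).card : ℝ)
              then |ext G r (U i) (U j)| else 0) :=
        Finset.sum_nonneg fun i _ => Finset.sum_nonneg fun j _ => hY0 i j
      linarith
    · push Not at hgood
      obtain ⟨v, hv⟩ := hgood
      have h1 : ∀ i j, ext G r (U i) (U j) + c₁ * |ext G r (U i) (U j)|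
          ≤ 2 * ∑ v : Fin M,
            (if θ * M < ((univ.filter fun l => ¬ G.Adj (U v) (U l)).card : ℝ)
              then |ext G r (U i) (U j)| else 0) := by
        intro i j
        have h2 : |ext G r (U i) (U j)| ≤ ∑ v : Fin M,
            (if θ * M < ((univ.filter fun l => ¬ G.Adj (U v) (U l)).card : ℝ)
              then |ext G r (U i) (U j)| else 0) := by
          have h3 := Finset.single_le_sum (f := fun v : Fin M =>
            (if θ * M < ((univ.filter fun l => ¬ G.Adj (U v) (U l)).card : ℝ)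
              then |ext G r (U i) (U j)| else 0)) (s := univ) (fun v _ => by
                show 0 ≤ (if θ * M < ((univ.filter fun l => ¬ G.Adj (U v) (U l)).card : ℝ)
                  then |ext G r (U i) (U j)| else 0)
                split_ifs
                · exact abs_nonneg _
                · exact le_rfl) (Finset.mem_univ v)
          simp only [if_pos hv] at h3
          exact h3
        have h4 := le_abs_self (ext G r (U i) (U j))
        have h5 := abs_nonneg (ext G r (U i) (U j))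
        nlinarith
      have h2 : ∑ i, ∑ j, (ext G r (U i) (U j) + c₁ * |ext G r (U i) (U j)|)
          ≤ 2 * ∑ i, ∑ j, ∑ v : Fin M,
            (if θ * M < ((univ.filter fun l => ¬ G.Adj (U v) (U l)).card : ℝ)
              then |ext G r (U i) (U j)| else 0) := by
        rw [Finset.mul_sum]
        apply Finset.sum_le_sum
        intro i _
        rw [Finset.mul_sum]
        apply Finset.sum_le_sum
        intro j _
        exact h1 i j
      have h3 : 0 ≤ (M : ℝ) ^ 2 * ∑ i, ∑ j, ∑ k, ∑ l, exc4 G T r (U i) (U j) (U k) (U l) :=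
        mul_nonneg (sq_nonneg _) hX0
      linarith
  -- sum over all tuples
  have hsum := Finset.sum_le_sum (s := (univ : Finset (Fin M → V))) (fun U _ => hpt U)
  have hsum2 := mul_le_mul_of_nonneg_left hsum (sq_nonneg n)
  rw [Finset.sum_add_distrib, ← Finset.mul_sum, ← Finset.mul_sum, mul_add] at hsum2
  have hL := star_pair M (fun a b => ext G r a b + c₁ * |ext G r a b|) (fun a => by
    show ext G r a a + c₁ * |ext G r a a| = 0
    rw [star_ext_self]
    simp)
  have hL2 : ∑ a, ∑ b, (ext G r a b + c₁ * |ext G r a b|) = A + c₁ * tot G r := by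
    rw [hA, tot, Finset.mul_sum, ← Finset.sum_add_distrib]
    apply Finset.sum_congr rfl
    intro i _
    rw [Finset.mul_sum, ← Finset.sum_add_distrib]
  rw [hL2, ← hn] at hL
  have hR := star_tail M G (θ := θ) hp.le hG hx (fun a b => |ext G r a b|)
    (fun a b => abs_nonneg _) (fun a => by
      show |ext G r a a| = 0
      rw [star_ext_self, abs_zero])
  rw [← hn] at hR
  have hE := sum_exc (T := T) G hs M
  rw [← hn, ← hE4, ← hE3] at hE
  have hnM : 0 < n ^ M := pow_pos hn0 M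
  have htotdef : ∑ a, ∑ b, |ext G r a b| = tot G r := rfl
  rw [htotdef] at hR
  -- abbreviations
  set W : ℝ := ∑ U : Fin M → V, ∑ i, ∑ j, ∑ k, ∑ l, exc4 G T r (U i) (U j) (U k) (U l) with hW
  set Z : ℝ := ∑ U : Fin M → V, ∑ i, ∑ j, ∑ v : Fin M,
            (if θ * M < ((univ.filter fun l => ¬ G.Adj (U v) (U l)).card : ℝ)
              then |ext G r (U i) (U j)| else 0) with hZ
  rw [hL] at hsum2
  clear hpt hsum hL hL2
  clear_value W Z
  exact star_alg hn0 hMr htot0 hE40 hE30 hnM hsum2 hR hMx hE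

end Pool.OCY
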