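import Pool.Agent.OCY.HomThm

/-!
MODULE StarA (difficulty 2).  One tuple `U` with good degrees.

RECIPE: apply `hom_thm` to the graph `G.comap U` on `Fin M` (`Adj i j ↔ G.Adj (U i) (U j)`) and the weights
`r' i j = r (U i) (U j) - X / (T + 1)`, where `X = ∑ i j k l, exc4 (U i) (U j) (U k) (U l) ≥ 0`.
`Hom (G.comap U) T r'`: the four weights have total coefficient `1 + 1 + 1 + (T - 2) = T + 1`, so the sum is
`(r a b + r a c + r b c + (T-2) r a d) - X ≤ exc4 - X ≤ 0` (a single term of a sum of nonnegative terms).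
Conclusion of `hom_thm` with `c₁ = ε / (8 T) ≤ 1`: `∑ ext r' + c₁ ∑ |ext r'| ≤ 0`.  Now
`ext r' ≥ ext r - X/(T+1)` and `|ext r'| ≥ |ext r| - X/(T+1)` for every pair, so
`∑ ext r + c₁ ∑ |ext r| ≤ (1 + c₁) M ^ 2 X / (T+1) ≤ M ^ 2 X`.
-/

open Finset
open scoped Classical

namespace Pool.OCY

lemma starA_exc_nonneg {V : Type*} (G : SimpleGraph V) (T : ℝ) (r : V → V → ℝ) (a b c d : V) :
    0 ≤ exc4 G T r a b c d := by
  unfold exc4
  split_ifs
  · exact le_max_left _ _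
  · exact le_rfl

lemma starA_single {M : ℕ} (f : Fin M → Fin M → Fin M → Fin M → ℝ) (hf : ∀ i j k l, 0 ≤ f i j k l)
    (i j k l : Fin M) : f i j k l ≤ ∑ i, ∑ j, ∑ k, ∑ l, f i j k l := by
  calc f i j k l ≤ ∑ l, f i j k l :=
        Finset.single_le_sum (f := fun l => f i j k l) (fun l _ => hf i j k l) (Finset.mem_univ l)
    _ ≤ ∑ k, ∑ l, f i j k l :=
        Finset.single_le_sum (f := fun k => ∑ l, f i j k l)
          (fun k _ => Finset.sum_nonneg fun l _ => hf i j k l) (Finset.mem_univ k)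
    _ ≤ ∑ j, ∑ k, ∑ l, f i j k l :=
        Finset.single_le_sum (f := fun j => ∑ k, ∑ l, f i j k l)
          (fun j _ => Finset.sum_nonneg fun k _ => Finset.sum_nonneg fun l _ => hf i j k l)
          (Finset.mem_univ j)
    _ ≤ _ :=
        Finset.single_le_sum (f := fun i => ∑ j, ∑ k, ∑ l, f i j k l)
          (fun i _ => Finset.sum_nonneg fun j _ => Finset.sum_nonneg fun k _ =>
            Finset.sum_nonneg fun l _ => hf i j k l) (Finset.mem_univ i)

theorem good_U {T ε : ℝ} (hT : 3 ≤ T) (hε : 0 < ε) (hε1 : ε ≤ 1) {V : Type*} [Fintype V]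
    {G : SimpleGraph V} {r : V → V → ℝ} (hs : ∀ a b, r a b = r b a) {M : ℕ} (U : Fin M → V)
    (hU : ∀ v, (1 / 2 + 1 / (2 * T) + ε) * M ≤ ((univ.filter fun l => G.Adj (U v) (U l)).card : ℝ)) :
    ∑ i, ∑ j, ext G r (U i) (U j) + ε / (8 * T) * ∑ i, ∑ j, |ext G r (U i) (U j)|
      ≤ (M : ℝ) ^ 2 * ∑ i, ∑ j, ∑ k, ∑ l, exc4 G T r (U i) (U j) (U k) (U l) := by
  set X : ℝ := ∑ i, ∑ j, ∑ k, ∑ l, exc4 G T r (U i) (U j) (U k) (U l) with hX
  have hsing : ∀ i j k l, exc4 G T r (U i) (U j) (U k) (U l) ≤ X := fun i j k l =>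
    starA_single (fun i j k l => exc4 G T r (U i) (U j) (U k) (U l))
      (fun i j k l => starA_exc_nonneg G T r _ _ _ _) i j k l
  have hX0 : 0 ≤ X := Finset.sum_nonneg fun i _ => Finset.sum_nonneg fun j _ =>
    Finset.sum_nonneg fun k _ => Finset.sum_nonneg fun l _ => starA_exc_nonneg G T r _ _ _ _
  set δ : ℝ := X / (T + 1) with hδ
  have hT1 : 0 < T + 1 := by linarith
  have hδ0 : 0 ≤ δ := div_nonneg hX0 hT1.le
  have hδX : (T + 1) * δ = X := by rw [hδ]; field_simp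
  set G' : SimpleGraph (Fin M) := G.comap U with hG'
  set r' : Fin M → Fin M → ℝ := fun i j => r (U i) (U j) - δ with hr'
  have hadj : ∀ i j, G'.Adj i j ↔ G.Adj (U i) (U j) := fun i j => Iff.rfl
  have hdeg : ∀ v, (1 / 2 + 1 / (2 * T) + ε) * Fintype.card (Fin M) ≤ G'.degree v := by
    intro v
    rw [Fintype.card_fin]
    refine (hU v).trans ?_
    rw [Nat.cast_le, ← SimpleGraph.card_neighborFinset_eq_degree]
    apply Finset.card_le_card
    intro l hl
    rw [SimpleGraph.mem_neighborFinset, hadj]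
    exact (Finset.mem_filter.1 hl).2
  have hHom : Hom G' T r' := by
    intro a b c d hab hac hbc had
    have h1 : r (U a) (U b) + r (U a) (U c) + r (U b) (U c) + (T - 2) * r (U a) (U d) ≤
        exc4 G T r (U a) (U b) (U c) (U d) := by
      unfold exc4
      rw [if_pos ⟨hab, hac, hbc, had⟩]
      exact le_max_right _ _
    have h2 := hsing a b c d
    have h3 : r' a b + r' a c + r' b c + (T - 2) * r' a d =
        (r (U a) (U b) + r (U a) (U c) + r (U b) (U c) + (T - 2) * r (U a) (U d)) -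
          (T + 1) * δ := by
      simp only [hr']
      ring
    rw [h3, hδX]
    exact sub_nonpos.2 (h1.trans h2)
  have hmain := hom_thm hT hε hε1 hdeg (r := r') (fun a b => by simp only [hr', hs]) hHom
  have hc0 : 0 ≤ ε / (8 * T) := div_nonneg hε.le (by linarith)
  have hc1 : ε / (8 * T) ≤ 1 := by
    rw [div_le_one (by linarith)]
    linarith
  have he1 : ∀ i j, ext G r (U i) (U j) - δ ≤ ext G' r' i j := by
    intro i j
    unfold ext
    by_cases h : G.Adj (U i) (U j)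
    · rw [if_pos h, if_pos ((hadj i j).2 h)]
    · rw [if_neg h, if_neg (fun h' => h ((hadj i j).1 h'))]
      linarith
  have he2 : ∀ i j, |ext G r (U i) (U j)| - δ ≤ |ext G' r' i j| := by
    intro i j
    unfold ext
    by_cases h : G.Adj (U i) (U j)
    · rw [if_pos h, if_pos ((hadj i j).2 h)]
      have := abs_sub_abs_le_abs_sub (r (U i) (U j)) δ
      rw [abs_of_nonneg hδ0] at this
      exact this
    · rw [if_neg h, if_neg (fun h' => h ((hadj i j).1 h'))]
      simp only [abs_zero]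
      linarith
  have hs1 : ∑ i, ∑ j, ext G r (U i) (U j) - (M : ℝ) ^ 2 * δ ≤ ∑ i, ∑ j, ext G' r' i j := by
    have h1 : ∑ i : Fin M, ∑ j : Fin M, (ext G r (U i) (U j) - δ) ≤ ∑ i, ∑ j, ext G' r' i j :=
      Finset.sum_le_sum fun i _ => Finset.sum_le_sum fun j _ => he1 i j
    have h2 : ∑ i : Fin M, ∑ j : Fin M, (ext G r (U i) (U j) - δ) =
        ∑ i, ∑ j, ext G r (U i) (U j) - (M : ℝ) ^ 2 * δ := by
      simp only [Finset.sum_sub_distrib, Finset.sum_const, Finset.card_univ, Fintype.card_fin,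
        nsmul_eq_mul]
      ring
    linarith
  have hs2 : ∑ i, ∑ j, |ext G r (U i) (U j)| - (M : ℝ) ^ 2 * δ ≤ tot G' r' := by
    have h1 : ∑ i : Fin M, ∑ j : Fin M, (|ext G r (U i) (U j)| - δ) ≤ ∑ i, ∑ j, |ext G' r' i j| :=
      Finset.sum_le_sum fun i _ => Finset.sum_le_sum fun j _ => he2 i j
    have h2 : ∑ i : Fin M, ∑ j : Fin M, (|ext G r (U i) (U j)| - δ) =
        ∑ i, ∑ j, |ext G r (U i) (U j)| - (M : ℝ) ^ 2 * δ := by
      simp only [Finset.sum_sub_distrib, Finset.sum_const, Finset.card_univ, Fintype.card_fin,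
        nsmul_eq_mul]
      ring
    unfold tot
    linarith
  have hs3 : ε / (8 * T) * (∑ i, ∑ j, |ext G r (U i) (U j)| - (M : ℝ) ^ 2 * δ) ≤
      ε / (8 * T) * tot G' r' := mul_le_mul_of_nonneg_left hs2 hc0
  have hMδ : 0 ≤ (M : ℝ) ^ 2 * δ := mul_nonneg (sq_nonneg _) hδ0
  have hs4 : ε / (8 * T) * ((M : ℝ) ^ 2 * δ) ≤ 1 * ((M : ℝ) ^ 2 * δ) :=
    mul_le_mul_of_nonneg_right hc1 hMδ
  have hs5 : (M : ℝ) ^ 2 * X = T * ((M : ℝ) ^ 2 * δ) + (M : ℝ) ^ 2 * δ := by
    rw [← hδX]; ring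
  have hs6 : 1 * ((M : ℝ) ^ 2 * δ) ≤ T * ((M : ℝ) ^ 2 * δ) :=
    mul_le_mul_of_nonneg_right (by linarith) hMδ
  rw [mul_sub] at hs3
  linarith

end Pool.OCY
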